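import Pool.Agent.H141R2.NP9

/-!
# One step of the iteration
-/

namespace NearPoly

open KLev Finset

lemma Ql.mono {A R : Type} [Fintype A] {k P : ℕ} {S : Ev A R k P} {q θ L q' θ' L' : ℝ}
    (h : Ql S q θ L) (hq : q' ≤ q) (hθ : θ' ≤ θ) (hL : L ≤ L') : Ql S q' θ' L' where
  s0 := h.s0
  s1 := h.s1
  tb := fun c => (h.tb c).trans hL
  Xb := fun e => (h.Xb e).trans hL
  D := fun e => hq.trans (h.D e)
  g1 := fun e c h1 h2 => hq.trans (h.g1 e c h1 h2)
  g2 := fun e c h1 h2 => (mul_le_mul_of_nonneg_right hq (abs_nonneg _)).trans (h.g2 e c h1 h2)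
  w := fun e f h1 => hq.trans (h.w e f h1)
  th := fun e f h1 h2 =>
    (mul_le_mul_of_nonneg_right hθ (mul_nonneg (S.D_pos f).le (abs_nonneg _))).trans
      (h.th e f h1 h2)

/-- the parameters -/
noncomputable def mkP (q θ Γ : ℝ) : Pm where
  φ := θ / Γ
  lam := 1 / Γ ^ 2
  κ := 1 / Γ ^ 3
  δ := θ / Γ ^ 4
  ε := θ * q / Γ ^ 3

lemma mkP_PP {H P : ℕ} {q θ : ℝ} (hH : 1 ≤ H) (hP : 1 ≤ P) (hq : 0 < q) (hθ : 0 < θ)
    (hθ1 : θ ≤ 1) :
    PP (50 * P) (H * (50 * P) + 2500 * H * P) P H q θ (100000 * H * P)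
      (mkP q θ (100000 * H * P)) := by
  have hHR : (1:ℝ) ≤ H := by exact_mod_cast hH
  have hPR : (1:ℝ) ≤ P := by exact_mod_cast hP
  have hHP : (1:ℝ) ≤ H * P := one_le_mul_of_one_le_of_one_le hHR hPR
  have hHP2 : (P:ℝ) ≤ H * P := by nlinarith
  have hHP3 : (H:ℝ) ≤ H * P := by nlinarith
  set Γ : ℝ := 100000 * H * P with hΓ
  have hΓ' : Γ = 100000 * (H * P) := by rw [hΓ]; ring
  have hΓ0 : 0 < Γ := by rw [hΓ']; linarith
  have hΓ1 : 100000 ≤ Γ := by rw [hΓ']; linarith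
  have hinv : Γ⁻¹ ≤ 1 / 100000 := by
    rw [← one_div]; exact one_div_le_one_div_of_le (by norm_num) hΓ1
  have hinv0 : 0 < Γ⁻¹ := inv_pos.mpr hΓ0
  -- powers
  have key : ∀ (x : ℝ) (n : ℕ), x ≤ Γ / 8 → 1 / Γ ^ (n + 1) * x ≤ 1 / Γ ^ n / 8 := by
    intro x n hx
    rw [pow_succ, one_div, mul_inv]
    calc (Γ ^ n)⁻¹ * Γ⁻¹ * x ≤ (Γ ^ n)⁻¹ * Γ⁻¹ * (Γ / 8) :=
          mul_le_mul_of_nonneg_left hx (by positivity)
      _ = 1 / Γ ^ n / 8 := by field_simp
  have hsm : ∀ n : ℕ, 1 / Γ ^ n ≤ 1 := by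
    intro n
    rw [div_le_one (by positivity)]
    exact one_le_pow₀ (by linarith)
  refine { q0 := hq, θ0 := hθ, θ1 := hθ1, φ0 := ?_, φ1 := ?_, φθ := ?_, l0 := ?_, l1 := ?_,
           l2 := ?_, κ0 := ?_, κ1 := ?_, κ2 := ?_, δ0 := ?_, δ1 := ?_, δ2 := ?_, δ3 := ?_,
           ε0 := ?_, W1 := ?_, εW := ?_ } <;> (try simp only [mkP])
  · positivity
  · have h1 := key (50 * P + 1) 0 (by rw [hΓ']; linarith)
    rw [zero_add, pow_one, pow_zero] at h1
    push_cast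
    have e : θ / Γ * (50 * (P:ℝ) + 1) = θ * (1 / Γ * (50 * P + 1)) := by ring
    rw [e]
    have h0 : 0 ≤ 1 / Γ * (50 * (P:ℝ) + 1) := by positivity
    nlinarith
  · rw [div_le_div_iff₀ hΓ0 (by norm_num)]
    nlinarith
  · positivity
  · have h1 := key ((H:ℝ) * (50 * P) + (H * (50 * P) + 2500 * H * P) + 1) 1 (by
      rw [hΓ']; nlinarith)
    push_cast
    have h2 := hsm 1
    linarith
  · have h1 : (4 * (H:ℝ) * H) ≤ Γ ^ 2 := by
      have : 2 * (H:ℝ) ≤ Γ := by rw [hΓ']; linarith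
      nlinarith
    rw [one_div, inv_mul_le_iff₀ (by positivity)]
    linarith
  · positivity
  · exact key (2 * H) 2 (by rw [hΓ']; linarith)
  · have h1 := key (H:ℝ) 2 (by rw [hΓ']; linarith)
    have h2 := hsm 2
    linarith
  · positivity
  · have h1 := key (((H * (50 * P) + 2500 * H * P : ℕ) : ℝ) + 1) 3 (by
      push_cast; rw [hΓ']; nlinarith)
    have e1 : θ / Γ ^ 4 * (((H * (50 * P) + 2500 * H * P : ℕ) : ℝ) + 1) =
      θ * (1 / Γ ^ (3 + 1) * (((H * (50 * P) + 2500 * H * P : ℕ) : ℝ) + 1)) := by ring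
    have e2 : θ / Γ * (1 / Γ ^ 2) / 8 = θ * (1 / Γ ^ 3 / 8) := by field_simp
    rw [e1, e2]
    exact mul_le_mul_of_nonneg_left h1 hθ.le
  · have h1 := key (((H * (50 * P) + 2500 * H * P : ℕ) : ℝ) + 1) 3 (by
      push_cast; rw [hΓ']; nlinarith)
    have e1 : θ / Γ ^ 4 * (((H * (50 * P) + 2500 * H * P : ℕ) : ℝ) + 1) =
      θ * (1 / Γ ^ (3 + 1) * (((H * (50 * P) + 2500 * H * P : ℕ) : ℝ) + 1)) := by ring
    rw [e1]
    have h2 := hsm 3
    have h3 : 0 ≤ 1 / Γ ^ (3 + 1) * (((H * (50 * P) + 2500 * H * P : ℕ) : ℝ) + 1) := by positivity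
    calc θ * (1 / Γ ^ (3 + 1) * (((H * (50 * P) + 2500 * H * P : ℕ) : ℝ) + 1)) ≤
          1 * (1 / Γ ^ (3 + 1) * (((H * (50 * P) + 2500 * H * P : ℕ) : ℝ) + 1)) :=
          mul_le_mul_of_nonneg_right hθ1 h3
      _ ≤ 1 / 8 := by linarith
  · have h1 := key ((H:ℝ) + 1) 3 (by rw [hΓ']; linarith)
    have e1 : θ / Γ ^ 4 * ((H:ℝ) + 1) = θ * (1 / Γ ^ (3 + 1) * ((H:ℝ) + 1)) := by ring
    rw [e1]
    have h2 : 1 / Γ ^ 3 ≤ 1 / Γ := by
      apply one_div_le_one_div_of_le hΓ0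
      calc Γ = Γ ^ 1 := (pow_one _).symm
        _ ≤ Γ ^ 3 := pow_le_pow_right₀ (by linarith) (by norm_num)
    calc θ * (1 / Γ ^ (3 + 1) * ((H:ℝ) + 1)) ≤ θ * (1 / Γ ^ 3 / 8) :=
          mul_le_mul_of_nonneg_left h1 hθ.le
      _ ≤ θ * (1 / Γ / 8) := by
          apply mul_le_mul_of_nonneg_left _ hθ.le
          linarith
      _ = θ / Γ / 8 := by ring
  · positivity
  · push_cast
    rw [hΓ']; linarith
  · have e : θ * q / Γ ^ 3 * Γ = (θ / Γ) * q * Γ⁻¹ := by field_simp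
    rw [e]
    have h1 : 0 ≤ θ / Γ * q := by positivity
    calc θ / Γ * q * Γ⁻¹ ≤ θ / Γ * q * (1 / 100000) := mul_le_mul_of_nonneg_left hinv h1
      _ ≤ θ / Γ * q / 64 := by linarith

lemma mkP_qn {H P : ℕ} {q θ : ℝ} (hH : 1 ≤ H) (hP : 1 ≤ P) (hq : 0 < q) (hθ : 0 < θ) :
    q * θ ^ 3 / (100000 * H * P) ^ 15 ≤ qn (mkP q θ (100000 * H * P)) H := by
  have hHR : (1:ℝ) ≤ H := by exact_mod_cast hH
  have hPR : (1:ℝ) ≤ P := by exact_mod_cast hP
  have hHP3 : (H:ℝ) ≤ H * P := by nlinarith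
  set Γ : ℝ := 100000 * H * P with hΓ
  have hΓ' : Γ = 100000 * (H * P) := by rw [hΓ]; ring
  have hΓ0 : 0 < Γ := by rw [hΓ']; positivity
  have e : qn (mkP q θ Γ) H = q * θ ^ 3 / (Γ ^ 14 * (16 * H)) := by
    unfold qn mkP; simp only; field_simp
  rw [e]
  apply div_le_div_of_nonneg_left (by positivity) (by positivity)
  have e15 : Γ ^ 15 = Γ ^ 14 * Γ := by ring
  rw [e15]
  apply mul_le_mul_of_nonneg_left _ (by positivity)
  rw [hΓ']; linarith

theorem HasO.step {N P Q T L g P₂ H : ℕ} {β b : ℝ} (h : HasO N P Q T L β) (h2 : HasI g P₂ H b)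
    (hβ : 0 ≤ β) (hb : 0 ≤ b) :
    HasO (N * (g * H * 262650) * P ^ 2) (50 * P * P₂)
      (Q * T ^ 3 * (100000 * H * P) ^ 15) ((100000 * H * P) ^ 5) (4 * L) (β * b) := by
  classical
  obtain ⟨hN, hP, hQ1, hT1, hL1, E, hE, hr, A, R₁, _, _, k₁, S₁, hQl, hA, hR₁⟩ := h
  obtain ⟨hg, hP₂, hH, E₂, hE₂, hr₂, G, R₂, _, _, k₂, S₂, σ, hInn, hG, hR₂⟩ := h2
  have hQR : (1:ℝ) ≤ Q := by exact_mod_cast hQ1
  have hTR : (1:ℝ) ≤ T := by exact_mod_cast hT1
  have hLR : (1:ℝ) ≤ L := by exact_mod_cast hL1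
  have hHR : (1:ℝ) ≤ H := by exact_mod_cast hH
  have hPR : (1:ℝ) ≤ P := by exact_mod_cast hP
  have hHP3 : (H:ℝ) ≤ H * P := by nlinarith
  have hHP2 : (P:ℝ) ≤ H * P := by nlinarith
  have hq0 : (0:ℝ) < 1 / Q := by positivity
  have hq1 : (1:ℝ) / Q ≤ 1 := by rw [div_le_one (by linarith)]; exact hQR
  have hθ0 : (0:ℝ) < 1 / T := by positivity
  have hθ1 : (1:ℝ) / T ≤ 1 := by rw [div_le_one (by linarith)]; exact hTR
  have hp := mkP_PP (q := 1 / Q) (θ := 1 / T) hH hP hq0 hθ0 hθ1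
  have hqn := mkP_qn (q := 1 / Q) (θ := 1 / T) hH hP hq0 hθ0
  set Γ : ℝ := 100000 * H * P with hΓ
  have hΓ' : Γ = 100000 * (H * P) := by rw [hΓ]; ring
  have hHP : (1:ℝ) ≤ H * P := one_le_mul_of_one_le_of_one_le hHR hPR
  have hΓ0 : 0 < Γ := by rw [hΓ']; linarith
  have hΓ1 : 1 ≤ Γ := by rw [hΓ']; linarith
  obtain ⟨r₂⟩ : Nonempty R₂ := Fintype.card_pos_iff.mp (by omega)
  have hk := level_lt S₂ r₂
  obtain ⟨K, -, hK⟩ := Finset.exists_subset_card_eq (s := (Finset.univ : Finset G)) (n := k₂)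
    (by rw [Finset.card_univ]; omega)
  obtain ⟨S, hS⟩ := composeQl (K := K) (θn := 1 / Γ ^ 5) hp hInn hQl hK hq1 hLR (by positivity)
    (by rw [div_le_one (by positivity)]; exact one_le_pow₀ hΓ1)
    (by
      show 1 / Γ ^ 5 * (8 * H * H * ((50 * P : ℕ) + 1)) ≤ 1 / Γ ^ 3
      push_cast
      have h1 : (8 * (H:ℝ) * H * (50 * P + 1)) ≤ Γ ^ 2 := by
        have h3 : (8:ℝ) * H * H * (50 * P + 1) ≤ (H * P) * (408 * (H * P)) := by
          have h4 : (8:ℝ) * H * H * (50 * P + 1) ≤ 8 * H * H * (51 * P) :=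
            mul_le_mul_of_nonneg_left (by linarith) (by positivity)
          have h5 : (H:ℝ) * (408 * (H * P)) ≤ (H * P) * (408 * (H * P)) :=
            mul_le_mul_of_nonneg_right hHP3 (by positivity)
          nlinarith
        rw [hΓ']
        have h6 : 0 ≤ ((H:ℝ) * P) * (H * P) := by positivity
        nlinarith
      calc 1 / Γ ^ 5 * (8 * H * H * (50 * P + 1)) ≤ 1 / Γ ^ 5 * Γ ^ 2 :=
            mul_le_mul_of_nonneg_left h1 (by positivity)
        _ = 1 / Γ ^ 3 := by field_simp)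
  have hcard : Fintype.card (Idx A G (50 * P) P (H * (50 * P) + 2500 * H * P)) =
      N * (g * H * 262650) * P ^ 2 := by
    simp only [Fintype.card_prod, Fintype.card_sum, Fintype.card_fin, hA, hG]
    ring
  have hpos : 0 < 2500 * H * P := Nat.mul_pos (Nat.mul_pos (by norm_num) hH) hP
  refine ⟨?_, ?_, ?_, ?_, by omega, E * (50 * P * (2500 * H * P) * E₂), ?_, ?_, _, _,
    inferInstance, inferInstance, _, S, ?_, hcard, ?_⟩
  · exact Nat.mul_pos (Nat.mul_pos hN (Nat.mul_pos (Nat.mul_pos hg hH) (by norm_num)))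
      (pow_pos hP 2)
  · exact Nat.mul_pos (Nat.mul_pos (by norm_num) hP) hP₂
  · exact Nat.mul_pos (Nat.mul_pos hQ1 (pow_pos hT1 3))
      (pow_pos (Nat.mul_pos (Nat.mul_pos (by norm_num) hH) hP) 15)
  · exact pow_pos (Nat.mul_pos (Nat.mul_pos (by norm_num) hH) hP) 5
  · exact Nat.mul_pos hE (Nat.mul_pos (Nat.mul_pos (Nat.mul_pos (by norm_num) hP) hpos) hE₂)
  · have h1 : (β * N * 5253) * (b * g * 5253) ≤ (2500 * E) * (2500 * E₂) :=
      mul_le_mul hr hr₂ (by positivity) (by positivity)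
    have h2 : (0:ℝ) ≤ H * P ^ 2 * 50 := by positivity
    have h3 := mul_le_mul_of_nonneg_right h1 h2
    push_cast
    nlinarith [h3]
  · refine hS.mono ?_ ?_ ?_
    · refine le_trans (le_of_eq ?_) hqn
      push_cast
      rw [← hΓ]
      field_simp
    · push_cast
      rw [← hΓ]
    · push_cast; exact le_refl _
  · simp only [Fintype.card_prod, Fintype.card_fin, hR₁, hR₂]

theorem HasO.start : HasO 2 1 1 1 1 (2500 / 10506) := by
  classical
  refine ⟨by norm_num, by norm_num, by norm_num, by norm_num, by norm_num, 1, by norm_num,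
    by norm_num, Bool, Unit, inferInstance, inferInstance, 0,
    { s := fun c => if c then 1 else 0
      t := fun _ => 0
      X := fun _ => 0
      a := fun _ => true
      b := fun _ => false
      tie := fun _ => by simp
      hs := fun _ => by simp
      hne := fun _ c h1 h2 => by
        cases c
        · exact absurd rfl h2
        · exact absurd rfl h1
      hcard := fun _ => by simp
      hX := fun _ _ _ => rfl
      slot := fun _ => 0
      hslot := fun _ _ _ _ => rfl }, ?_, by simp, by simp⟩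
  refine { s0 := fun c => ?_, s1 := fun c => ?_, tb := fun c => ?_, Xb := fun e => ?_
           D := fun e => ?_, g1 := fun e c h1 h2 => ?_, g2 := fun e c h1 h2 => ?_
           w := fun e f h => ?_, th := fun e f h1 h2 => ?_ }
  · simp only; split_ifs <;> norm_num
  · simp only; split_ifs <;> norm_num
  · simp
  · simp
  · simp [Ev.D]
  · exfalso
    cases c
    · exact h2 rfl
    · exact h1 rfl
  · exfalso
    cases c
    · exact h2 rfl
    · exact h1 rfl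
  · exact absurd rfl h
  · exact absurd rfl h1

end NearPoly
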