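import Pool.Agent.H112R2.FinalGap
set_option autoImplicit false

/-! Sets in a real vector space with no three points on a line: a set with small doubling is small. -/

namespace H141.Lines

open Finset
open scoped Pointwise

/-- no three points on a line -/
def NoThree {V : Type*} [AddCommGroup V] [Module ℝ V] (P : Finset V) : Prop :=
  ∀ a ∈ P, ∀ b ∈ P, ∀ c ∈ P, a ≠ b → a ≠ c → b ≠ c → ¬ Collinear ℝ {a, b, c}

/-- on a line in direction `w` there are at most two points of `P` -/
theorem card_line_le {V : Type*} [AddCommGroup V] [Module ℝ V] [DecidableEq V] {P : Finset V}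
    (hP : NoThree P) (Q : Finset V) (hQ : Q ⊆ P) (x w : V)
    (h : ∀ a ∈ Q, ∃ r : ℝ, a = x + r • w) : Q.card ≤ 2 := by
  by_contra hc
  push Not at hc
  obtain ⟨a, b, c, ha, hb, hcc, hab, hac, hbc⟩ := Finset.two_lt_card_iff.1 hc
  refine hP a (hQ ha) b (hQ hb) c (hQ hcc) hab hac hbc ?_
  rw [collinear_iff_exists_forall_eq_smul_vadd]
  refine ⟨x, w, ?_⟩
  intro p hp
  have hp' : p ∈ Q := by
    rcases hp with rfl | rfl | hp
    · exact ha
    · exact hb
    · rw [Set.mem_singleton_iff] at hp; rw [hp]; exact hcc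
  obtain ⟨r, hr⟩ := h p hp'
  exact ⟨r, by rw [hr, vadd_eq_add, add_comm]⟩

/-- a translate of a progression contains few points of `P` -/
theorem card_prog_le {V : Type*} [AddCommGroup V] [Module ℝ V] [DecidableEq V] {P : Finset V}
    (hP : NoThree P) {k : ℕ} (v : Fin k → V) (N : Fin k → ℕ) (t : V) (i0 : Fin k) (Q : Finset V)
    (hQ : Q ⊆ P) (h : ∀ a ∈ Q, ∃ n : Fin k → ℕ, (∀ i, n i < N i) ∧ a = t + ∑ i, n i • v i) :
    Q.card * N i0 ≤ 2 * ∏ i, N i := by
  classical
  choose! f hf1 hf2 using h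
  -- code: forget the coordinate i0
  let g : V → ((i : Fin k) → ℕ) := fun a => Function.update (f a) i0 0
  let S : Finset ((i : Fin k) → ℕ) :=
    Fintype.piFinset (fun i => if i = i0 then {0} else Finset.range (N i))
  have hmap : ∀ a ∈ Q, g a ∈ S := by
    intro a ha
    rw [Fintype.mem_piFinset]
    intro i
    by_cases hi : i = i0
    · subst hi; simp [g]
    · simp only [g, hi, if_false, Function.update_of_ne hi, Finset.mem_range]
      exact hf1 a ha i
  have hfib : ∀ s ∈ S, (Q.filter (fun a => g a = s)).card ≤ 2 := by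
    intro s _
    apply card_line_le hP _ ((Finset.filter_subset _ _).trans hQ)
      (t + ∑ i, s i • v i) (v i0)
    intro a ha
    obtain ⟨haQ, hga⟩ := Finset.mem_filter.1 ha
    refine ⟨(f a i0 : ℝ), ?_⟩
    have h1 : ∑ i, f a i • v i = ∑ i, s i • v i + f a i0 • v i0 := by
      rw [← hga]
      rw [← Finset.add_sum_erase _ _ (Finset.mem_univ i0),
        ← Finset.add_sum_erase (Finset.univ) (fun i => g a i • v i) (Finset.mem_univ i0)]
      have h2 : ∑ i ∈ univ.erase i0, f a i • v i = ∑ i ∈ univ.erase i0, g a i • v i := by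
        apply Finset.sum_congr rfl
        intro i hi
        rw [show g a i = f a i from Function.update_of_ne (Finset.ne_of_mem_erase hi) _ _]
      have h3 : g a i0 = 0 := Function.update_self _ _ _
      rw [h2, h3, zero_smul, zero_add, add_comm]
    calc a = t + ∑ i, f a i • v i := hf2 a haQ
      _ = t + ∑ i, s i • v i + (f a i0 : ℝ) • v i0 := by
          rw [h1, Nat.cast_smul_eq_nsmul, add_assoc]
  have hQ2 : Q.card ≤ 2 * S.card := by
    have := Finset.card_le_mul_card_image_of_maps_to (s := Q) (t := S) (f := g) hmap 2 hfib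
    exact this
  have hS : S.card * N i0 = ∏ i, N i := by
    rw [Fintype.card_piFinset, ← Finset.mul_prod_erase _ _ (Finset.mem_univ i0),
      ← Finset.mul_prod_erase (Finset.univ) N (Finset.mem_univ i0)]
    have h2 : ∏ i ∈ univ.erase i0, (if i = i0 then ({0} : Finset ℕ) else Finset.range (N i)).card
        = ∏ i ∈ univ.erase i0, N i := by
      apply Finset.prod_congr rfl
      intro i hi
      rw [if_neg (Finset.ne_of_mem_erase hi), Finset.card_range]
    rw [h2, if_pos rfl, Finset.card_singleton, one_mul, mul_comm]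
  calc Q.card * N i0 ≤ 2 * S.card * N i0 := Nat.mul_le_mul_right _ hQ2
    _ = 2 * ∏ i, N i := by rw [mul_assoc, hS]

/-- **Main bound.** -/
theorem card_le {V : Type*} [AddCommGroup V] [Module ℝ V] [DecidableEq V] {P : Finset V}
    (hP : NoThree P) (hne : P.Nonempty) {K : ℝ} (hK : ((P + P).card : ℝ) ≤ K * P.card) :
    ∃ (k T : ℕ), (k : ℝ) ≤ 300 * Real.log (2 * K) ∧
      (T : ℝ) ≤ (2 * K) ^ (17000 * (1 + Real.log (1 + Real.log (2 * K)))) ∧ 1 ≤ T ∧
      P.card ≤ T * (2 * T) ^ k := by
  classical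
  have htf : ∀ (n : ℕ) (x : V), n ≠ 0 → n • x = 0 → x = 0 := by
    intro n x hn hx
    rw [← Nat.cast_smul_eq_nsmul ℝ, smul_eq_zero] at hx
    rcases hx with h | h
    · exact absurd (Nat.cast_eq_zero.1 h) hn
    · exact h
  obtain ⟨k, v, N, T, hk, hN, hprop, hvol, hT, hcov⟩ := H112.near_pfr_gap' htf hne hK
  have hTpos : 1 ≤ T.card := by
    obtain ⟨a, ha⟩ := hne
    obtain ⟨t, ht, _⟩ := hcov a ha
    exact Finset.card_pos.2 ⟨t, ht⟩
  have hPpos : 0 < P.card := hne.card_pos
  refine ⟨k, T.card, hk, hT, hTpos, ?_⟩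
  -- each N i ≤ 2 T
  obtain ⟨t, ht, hbig⟩ := H112.cover_pigeonhole hne
    (fun t a => ∃ n : Fin k → ℕ, (∀ i, n i < N i) ∧ a = t + ∑ i, n i • v i) hcov
  have hNi : ∀ i, N i ≤ 2 * T.card := by
    intro i
    have h1 := card_prog_le hP v N t i
      (P.filter (fun a => ∃ n : Fin k → ℕ, (∀ i, n i < N i) ∧ a = t + ∑ i, n i • v i))
      (Finset.filter_subset _ _) (fun a ha => (Finset.mem_filter.1 ha).2)
    have h2 : P.card * N i ≤ T.card * (2 * P.card) := by
      calc P.card * N i ≤ (T.card * (P.filter (fun a => ∃ n : Fin k → ℕ,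
            (∀ i, n i < N i) ∧ a = t + ∑ i, n i • v i)).card) * N i := Nat.mul_le_mul_right _ hbig
        _ = T.card * ((P.filter (fun a => ∃ n : Fin k → ℕ,
            (∀ i, n i < N i) ∧ a = t + ∑ i, n i • v i)).card * N i) := by ring
        _ ≤ T.card * (2 * ∏ i, N i) := Nat.mul_le_mul_left _ h1
        _ ≤ T.card * (2 * P.card) := by gcongr
    have h3 : P.card * N i ≤ P.card * (2 * T.card) := by
      calc P.card * N i ≤ T.card * (2 * P.card) := h2
        _ = P.card * (2 * T.card) := by ring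
    exact Nat.le_of_mul_le_mul_left h3 hPpos
  have hcardt : (P.filter (fun a => ∃ n : Fin k → ℕ, (∀ i, n i < N i) ∧
      a = t + ∑ i, n i • v i)).card ≤ ∏ i, N i := by
    have hsub : P.filter (fun a => ∃ n : Fin k → ℕ, (∀ i, n i < N i) ∧
        a = t + ∑ i, n i • v i) ⊆
        (Fintype.piFinset (fun i => Finset.range (N i))).image (fun n => t + ∑ i, n i • v i) := by
      intro a ha
      obtain ⟨n, hn, e⟩ := (Finset.mem_filter.1 ha).2
      exact Finset.mem_image.2 ⟨n, Fintype.mem_piFinset.2 fun i => Finset.mem_range.2 (hn i), e.symm⟩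
    refine (Finset.card_le_card hsub).trans (Finset.card_image_le.trans ?_)
    rw [Fintype.card_piFinset]
    simp
  calc P.card ≤ T.card * (P.filter (fun a => ∃ n : Fin k → ℕ,
            (∀ i, n i < N i) ∧ a = t + ∑ i, n i • v i)).card := hbig
    _ ≤ T.card * ∏ i, N i := Nat.mul_le_mul_left _ hcardt
    _ ≤ T.card * ∏ _i : Fin k, (2 * T.card) :=
        Nat.mul_le_mul_left _ (Finset.prod_le_prod' fun i _ => hNi i)
    _ = T.card * (2 * T.card) ^ k := by simp

/-- logarithmic form of the main bound -/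
theorem log_card_le {V : Type*} [AddCommGroup V] [Module ℝ V] [DecidableEq V] {P : Finset V}
    (hP : NoThree P) (hne : P.Nonempty) {K : ℝ} (hK : ((P + P).card : ℝ) ≤ K * P.card) :
    Real.log P.card ≤ 5200000 * Real.log (2 * K) ^ 2 *
      (1 + Real.log (1 + Real.log (2 * K))) := by
  obtain ⟨k, T, hk, hT, hT1, hcard⟩ := card_le hP hne hK
  have hApos : (0 : ℝ) < P.card := by exact_mod_cast hne.card_pos
  have hK1 : 1 ≤ K := by
    have h1 : (P.card : ℝ) ≤ (P + P).card := by
      exact_mod_cast Finset.card_le_card_add_right hne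
    nlinarith
  have h2 : (0.69 : ℝ) < Real.log 2 := by
    have := Real.log_two_gt_d9; linarith
  have hκ : (0.69 : ℝ) < Real.log (2 * K) :=
    lt_of_lt_of_le h2 (Real.log_le_log (by norm_num) (by linarith))
  set κ := Real.log (2 * K) with hκdef
  have hΛ : 1 ≤ 1 + Real.log (1 + κ) := by
    have := Real.log_nonneg (show (1 : ℝ) ≤ 1 + κ by linarith)
    linarith
  set Λ := 1 + Real.log (1 + κ) with hΛdef
  have hTpos : (0 : ℝ) < T := by exact_mod_cast hT1
  have hlogT : Real.log T ≤ 17000 * κ * Λ := by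
    have h3 : Real.log T ≤ Real.log ((2 * K) ^ (17000 * Λ)) := Real.log_le_log hTpos hT
    rw [Real.log_rpow (by linarith)] at h3
    calc Real.log T ≤ 17000 * Λ * κ := h3
      _ = 17000 * κ * Λ := by ring
  have hlogT0 : 0 ≤ Real.log T := Real.log_nonneg (by exact_mod_cast hT1)
  have hκΛ : κ ≤ κ * Λ := by nlinarith
  have hlog2T : Real.log (2 * T) ≤ 17002 * κ * Λ := by
    rw [Real.log_mul (by norm_num) hTpos.ne']
    have h4 : Real.log 2 ≤ 0.7 := by
      have := Real.log_two_lt_d9; linarith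
    nlinarith
  have hlog2T0 : 0 ≤ Real.log (2 * T) := Real.log_nonneg (by
    have : (1 : ℝ) ≤ T := by exact_mod_cast hT1
    linarith)
  have h5 : Real.log P.card ≤ Real.log T + k * Real.log (2 * T) := by
    have h6 : (P.card : ℝ) ≤ T * (2 * T) ^ k := by exact_mod_cast hcard
    calc Real.log P.card ≤ Real.log (T * (2 * T) ^ k) := Real.log_le_log hApos h6
      _ = Real.log T + k * Real.log (2 * T) := by
          rw [Real.log_mul hTpos.ne' (by positivity), Real.log_pow]
  have h7 : Real.log T ≤ Real.log (2 * T) := Real.log_le_log hTpos (by linarith)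
  have h8 : (k : ℝ) + 1 ≤ 302 * κ := by nlinarith
  calc Real.log P.card ≤ (k + 1) * Real.log (2 * T) := by linarith
    _ ≤ (302 * κ) * (17002 * κ * Λ) := by
        apply mul_le_mul h8 hlog2T hlog2T0 (by nlinarith)
    _ = 5134604 * κ ^ 2 * Λ := by ring
    _ ≤ 5200000 * κ ^ 2 * Λ := by
        have : 0 ≤ κ ^ 2 * Λ := by positivity
        nlinarith

/-- lower bound for the doubling constant of a set without three collinear points -/
theorem log_doubling_ge {V : Type*} [AddCommGroup V] [Module ℝ V] [DecidableEq V] {P : Finset V}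
    (hP : NoThree P) (hn : (16 : ℝ) ≤ Real.log P.card) {K : ℝ}
    (hK : ((P + P).card : ℝ) ≤ K * P.card) :
    1 / 3000 * Real.sqrt (Real.log P.card / Real.log (Real.log P.card)) ≤ Real.log (2 * K) := by
  have hne : P.Nonempty := by
    rw [Finset.nonempty_iff_ne_empty]
    rintro rfl
    simp at hn
    linarith
  have hApos : (0 : ℝ) < P.card := by exact_mod_cast hne.card_pos
  have hK1 : 1 ≤ K := by
    have h1 : (P.card : ℝ) ≤ (P + P).card := by
      exact_mod_cast Finset.card_le_card_add_right hne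
    nlinarith
  have hκ0 : 0 ≤ Real.log (2 * K) := Real.log_nonneg (by linarith)
  have hmain := log_card_le hP hne hK
  set x := Real.log P.card with hx
  set κ := Real.log (2 * K) with hκ
  by_contra hcon
  push Not at hcon
  have hx0 : 0 < x := by linarith
  have hlx : 1 ≤ Real.log x := by
    have h3 : Real.exp 1 ≤ x := by
      have := Real.exp_one_lt_d9; linarith
    calc (1 : ℝ) = Real.log (Real.exp 1) := (Real.log_exp 1).symm
      _ ≤ Real.log x := Real.log_le_log (Real.exp_pos 1) h3
  have hlx0 : 0 < Real.log x := by linarith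
  -- κ ≤ √x
  have hsq : Real.sqrt (x / Real.log x) ≤ Real.sqrt x :=
    Real.sqrt_le_sqrt (div_le_self hx0.le hlx)
  have hκx : κ ≤ Real.sqrt x := by
    have h0 : 0 ≤ Real.sqrt x := Real.sqrt_nonneg x
    calc κ ≤ 1 / 3000 * Real.sqrt (x / Real.log x) := hcon.le
      _ ≤ 1 / 3000 * Real.sqrt x := by gcongr
      _ ≤ Real.sqrt x := by linarith
  have hsx : 4 ≤ Real.sqrt x := by
    rw [show (4 : ℝ) = Real.sqrt 16 by
      rw [show (16 : ℝ) = 4 ^ 2 by norm_num, Real.sqrt_sq (by norm_num)]]
    exact Real.sqrt_le_sqrt hn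
  -- 1 + log (1 + κ) ≤ log x
  have hΛ : 1 + Real.log (1 + κ) ≤ Real.log x := by
    have h4 : Real.log (1 + κ) ≤ Real.log (1 + Real.sqrt x) :=
      Real.log_le_log (by linarith) (by linarith)
    have h5 : Real.exp 1 * (1 + Real.sqrt x) ≤ x := by
      have h6 : Real.sqrt x * Real.sqrt x = x := Real.mul_self_sqrt hx0.le
      have h7 := Real.exp_one_lt_d9
      nlinarith
    have h8 : 1 + Real.log (1 + Real.sqrt x) = Real.log (Real.exp 1 * (1 + Real.sqrt x)) := by
      rw [Real.log_mul (Real.exp_pos 1).ne' (by positivity), Real.log_exp]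
    have h9 : Real.log (Real.exp 1 * (1 + Real.sqrt x)) ≤ Real.log x :=
      Real.log_le_log (by positivity) h5
    linarith
  have hκ2 : κ ^ 2 ≤ (1 / 3000) ^ 2 * (x / Real.log x) := by
    have h10 : κ ^ 2 ≤ (1 / 3000 * Real.sqrt (x / Real.log x)) ^ 2 :=
      pow_le_pow_left₀ hκ0 hcon.le 2
    rw [mul_pow, Real.sq_sqrt (by positivity)] at h10
    exact h10
  have hΛ0 : 0 ≤ 1 + Real.log (1 + κ) := by
    have := Real.log_nonneg (show (1 : ℝ) ≤ 1 + κ by linarith)
    linarith
  have h11 : x ≤ 5200000 * ((1 / 3000) ^ 2 * (x / Real.log x)) * Real.log x := by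
    calc x ≤ 5200000 * κ ^ 2 * (1 + Real.log (1 + κ)) := hmain
      _ ≤ 5200000 * ((1 / 3000) ^ 2 * (x / Real.log x)) * Real.log x := by
        apply mul_le_mul _ hΛ hΛ0 (by positivity)
        exact mul_le_mul_of_nonneg_left hκ2 (by norm_num)
  have h12 : 5200000 * ((1 / 3000 : ℝ) ^ 2 * (x / Real.log x)) * Real.log x
      = 5200000 * (1 / 3000) ^ 2 * x := by
    field_simp
  rw [h12] at h11
  nlinarith

/-- the number of distinct difference vectors of `P` -/
theorem diffs_ge {V : Type*} [AddCommGroup V] [Module ℝ V] [DecidableEq V] {P : Finset V}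
    (hP : NoThree P) (hn : (16 : ℝ) ≤ Real.log P.card)
    (hs : (21000 : ℝ) ≤ Real.sqrt (Real.log P.card / Real.log (Real.log P.card))) :
    P.card * Real.exp (1 / 10000 * Real.sqrt (Real.log P.card / Real.log (Real.log P.card)))
      ≤ ((P.offDiag.image (fun x => x.1 - x.2)).card : ℝ) := by
  have hne : P.Nonempty := by
    rw [Finset.nonempty_iff_ne_empty]
    rintro rfl
    simp at hn
    linarith
  have hApos : (0 : ℝ) < P.card := by exact_mod_cast hne.card_pos
  set v := (P.offDiag.image (fun x => x.1 - x.2)).card with hv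
  -- `|P - P| ≤ v + 1`
  have hsub : P - P ⊆ insert 0 (P.offDiag.image (fun x => x.1 - x.2)) := by
    intro z hz
    obtain ⟨a, ha, b, hb, rfl⟩ := Finset.mem_sub.1 hz
    by_cases hab : a = b
    · rw [hab, sub_self]; exact Finset.mem_insert_self _ _
    · exact Finset.mem_insert_of_mem (Finset.mem_image.2
        ⟨(a, b), Finset.mem_offDiag.2 ⟨ha, hb, hab⟩, rfl⟩)
  have hdc : (P - P).card ≤ v + 1 := (Finset.card_le_card hsub).trans (Finset.card_insert_le _ _)
  -- Pluennecke
  have hpl : ((P + P).card : ℝ) ≤ (((v : ℝ) + 1) / P.card) ^ 2 * P.card := by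
    have h1 := Finset.pluennecke_ruzsa_inequality_nsmul_sub_nsmul_add (A := P) hne (-P) 2 0
    simp only [zero_nsmul, sub_zero, zero_add, add_zero] at h1
    have h2 : ((2 • (-P) : Finset V)).card = (P + P).card := by
      rw [two_nsmul, ← neg_add_rev, Finset.card_neg]
    rw [h2] at h1
    have h3 : ((P + P).card : ℝ) ≤ (((P + -P).card : ℝ) / P.card) ^ 2 * P.card := by
      have h1' := (NNRat.cast_le (K := ℝ)).2 h1
      push_cast at h1'
      exact h1'
    refine h3.trans ?_
    have h4 : ((P + -P).card : ℝ) ≤ (v : ℝ) + 1 := by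
      rw [← sub_eq_add_neg]; exact_mod_cast hdc
    gcongr
  have hmain := log_doubling_ge hP hn hpl
  set s := Real.sqrt (Real.log P.card / Real.log (Real.log P.card)) with hsdef
  have hv1 : (0 : ℝ) < (v : ℝ) + 1 := by positivity
  have h5 : Real.log (2 * (((v : ℝ) + 1) / P.card) ^ 2)
      = Real.log 2 + 2 * Real.log (((v : ℝ) + 1) / P.card) := by
    rw [Real.log_mul (by norm_num) (by positivity), Real.log_pow]
    push_cast; ring
  rw [h5] at hmain
  have h6 : Real.log 2 ≤ 0.7 := by
    have := Real.log_two_lt_d9; linarith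
  have h7 : 1 / 6000 * s - 0.35 ≤ Real.log (((v : ℝ) + 1) / P.card) := by linarith
  have h8 : Real.exp (1 / 6000 * s - 0.35) ≤ ((v : ℝ) + 1) / P.card := by
    rw [← Real.le_log_iff_exp_le (by positivity)]; exact h7
  have h9 : 2 * Real.exp (1 / 10000 * s) ≤ Real.exp (1 / 6000 * s - 0.35) := by
    have h10 : (2 : ℝ) ≤ Real.exp 0.7 := by
      calc (2 : ℝ) = Real.exp (Real.log 2) := (Real.exp_log (by norm_num)).symm
        _ ≤ Real.exp 0.7 := Real.exp_le_exp.2 h6
    calc 2 * Real.exp (1 / 10000 * s) ≤ Real.exp 0.7 * Real.exp (1 / 10000 * s) := by gcongr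
      _ = Real.exp (0.7 + 1 / 10000 * s) := by rw [Real.exp_add]
      _ ≤ Real.exp (1 / 6000 * s - 0.35) := by
          apply Real.exp_le_exp.2
          linarith
  have h11 : P.card * (2 * Real.exp (1 / 10000 * s)) ≤ (v : ℝ) + 1 := by
    have h12 := h9.trans h8
    rw [le_div_iff₀ hApos] at h12
    linarith
  have h13 : (1 : ℝ) ≤ P.card * Real.exp (1 / 10000 * s) := by
    have h14 : (1 : ℝ) ≤ P.card := by exact_mod_cast hne.card_pos
    have h15 : (1 : ℝ) ≤ Real.exp (1 / 10000 * s) := Real.one_le_exp (by linarith)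
    nlinarith
  linarith

end H141.Lines
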