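import Pool.Agent.KLev.Glue

/-!
# Quantitative composition of events: definitions and elementary sign lemmas
-/

namespace NearPoly

open KLev Finset

section defs

variable {A R : Type} [Fintype A] {k P : ℕ}

/-- signed height of the line `c` over the crossing point of the event `e` -/
noncomputable def Fv (S : Ev A R k P) (c : A) (e : R) : ℝ := S.s c * S.X e + S.t c - S.Y e

/-- quantitative general position of an arrangement with events -/
structure Ql (S : Ev A R k P) (q θ L : ℝ) : Prop where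
  s0 : ∀ c, 0 ≤ S.s c
  s1 : ∀ c, S.s c ≤ 1
  tb : ∀ c, |S.t c| ≤ L
  Xb : ∀ e, |S.X e| ≤ L
  D : ∀ e, q ≤ S.D e
  g1 : ∀ e c, c ≠ S.a e → c ≠ S.b e → q ≤ |Fv S c e|
  g2 : ∀ e c, c ≠ S.a e → c ≠ S.b e → q * |S.s c - S.s (S.a e)| ≤ |Fv S c e| * S.D e
  w : ∀ e f, e ≠ f → q ≤ S.D e * |S.X e - S.X f|
  th : ∀ e f, S.a f ≠ S.a e → S.a f ≠ S.b e →
    θ * (S.D f * |S.X e - S.X f|) ≤ |Fv S (S.a f) e|

/-- quantitative data of an inner arrangement: natural slopes -/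
structure Inn (S : Ev A R k P) (σ : A → ℕ) (H : ℕ) : Prop where
  H1 : 1 ≤ H
  hσ : ∀ α, S.s α = σ α
  hH : ∀ α, σ α ≤ H
  X : ∀ r, |S.X r| ≤ H
  Y : ∀ r, |S.Y r| ≤ H
  t : ∀ α, |S.t α| ≤ H
  F : ∀ r α, |Fv S α r| ≤ H
  g : ∀ r α, α ≠ S.a r → α ≠ S.b r → 1 ≤ H * |Fv S α r|
  sep : ∀ r r', r ≠ r' → 1 ≤ H * |S.X r - S.X r'|

end defs

/-- `B` is at most `-μ` if `Q` holds and at least `μ` otherwise -/
def Sg (B μ : ℝ) (Q : Prop) : Prop := (Q → B ≤ -μ) ∧ (¬ Q → μ ≤ B)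

lemma Sg.abs {B μ : ℝ} {Q : Prop} (h : Sg B μ Q) : μ ≤ |B| := by
  by_cases hQ : Q
  · have := h.1 hQ; have := neg_abs_le B; linarith
  · exact (h.2 hQ).trans (le_abs_self _)

lemma Sg.iff {B μ : ℝ} {Q : Prop} (h : Sg B μ Q) (hμ : 0 < μ) : B < 0 ↔ Q := by
  by_cases hQ : Q
  · simp only [hQ, iff_true]; linarith [h.1 hQ]
  · simp only [hQ, iff_false]; linarith [h.2 hQ]

lemma Sg.mono {B μ ν : ℝ} {Q : Prop} (h : Sg B μ Q) (hν : ν ≤ μ) : Sg B ν Q :=
  ⟨fun hQ => by linarith [h.1 hQ], fun hQ => by linarith [h.2 hQ]⟩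

lemma Sg.congr {B μ : ℝ} {Q Q' : Prop} (h : Sg B μ Q) (hQ : Q ↔ Q') : Sg B μ Q' :=
  ⟨fun h' => h.1 (hQ.mpr h'), fun h' => h.2 (fun h'' => h' (hQ.mp h''))⟩

lemma Sg.scale {B μ c : ℝ} {Q : Prop} (h : Sg B μ Q) (hc : 0 < c) : Sg (c * B) (c * μ) Q :=
  ⟨fun hQ => by have := mul_le_mul_of_nonneg_left (h.1 hQ) hc.le; linarith,
    fun hQ => mul_le_mul_of_nonneg_left (h.2 hQ) hc.le⟩

lemma Sg.of_near {F B : ℝ} (hF : F ≠ 0) (h : |B - F| ≤ |F| / 4) : Sg B (3 / 4 * |F|) (F < 0) := by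
  have h1 := abs_le.mp h
  constructor
  · intro hF'
    rw [abs_of_neg hF'] at h1 ⊢; linarith [h1.2]
  · intro hF'
    have : 0 < F := lt_of_le_of_ne (not_lt.mp hF') (Ne.symm hF)
    rw [abs_of_pos this] at h1 ⊢; linarith [h1.1]

/-- numerical parameters -/
structure Pm where
  φ : ℝ
  lam : ℝ
  κ : ℝ
  δ : ℝ
  ε : ℝ

/-- smallness conditions on the parameters -/
structure PP (Nx V P H : ℕ) (q θ W : ℝ) (p : Pm) : Prop where
  q0 : 0 < q
  θ0 : 0 < θ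
  θ1 : θ ≤ 1
  φ0 : 0 < p.φ
  φ1 : p.φ * (Nx + 1) ≤ 1 / 4
  φθ : p.φ ≤ θ / 16
  l0 : 0 < p.lam
  l1 : p.lam * (H * Nx + V + 1) ≤ 1 / 8
  l2 : p.lam * (4 * H * H) ≤ 1
  κ0 : 0 < p.κ
  κ1 : p.κ * (2 * H) ≤ p.lam / 8
  κ2 : p.κ * H ≤ 1 / 2
  δ0 : 0 < p.δ
  δ1 : p.δ * (V + 1) ≤ p.φ * p.lam / 8
  δ2 : p.δ * (V + 1) ≤ 1 / 8
  δ3 : p.δ * (H + 1) ≤ p.φ / 8
  ε0 : 0 < p.ε
  W1 : 4 * Nx + 8 * P + 16 ≤ W
  εW : p.ε * W ≤ p.φ * q / 64

/-! ### far lines -/

lemma c1 {F D q d U ω W ε : ℝ} (hq : 0 < q) (hD : 0 < D) (hF : q ≤ |F|)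
    (h2 : q * |d| ≤ |F| * D) (hU : |U| ≤ W / 2) (hω : |ω| ≤ W / 2) (hε : 0 < ε)
    (hW : ε * W ≤ q / 64) : |F + ε * (d * (U / D) + ω) - F| ≤ |F| / 4 := by
  have hW0 : 0 ≤ W := by linarith [abs_nonneg U]
  have e1 : F + ε * (d * (U / D) + ω) - F = ε * (d * (U / D) + ω) := by ring
  rw [e1, abs_mul, abs_of_pos hε]
  have h3 : |d * (U / D)| ≤ |F| / q * (W / 2) := by
    rw [abs_mul, abs_div, abs_of_pos hD]
    have h4 : |d| / D ≤ |F| / q := by
      rw [div_le_div_iff₀ hD hq]; linarith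
    calc |d| * (|U| / D) = |d| / D * |U| := by ring
      _ ≤ |F| / q * (W / 2) := mul_le_mul h4 hU (abs_nonneg _) (by positivity)
  have h5 : |d * (U / D) + ω| ≤ |F| / q * (W / 2) + W / 2 :=
    (abs_add_le _ _).trans (add_le_add h3 hω)
  have h6 : (1:ℝ) ≤ |F| / q := by rw [le_div_iff₀ hq]; linarith
  calc ε * |d * (U / D) + ω| ≤ ε * (|F| / q * (W / 2) + W / 2) :=
        mul_le_mul_of_nonneg_left h5 hε.le
    _ ≤ ε * (|F| / q * (W / 2) + |F| / q * (W / 2)) := by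
        apply mul_le_mul_of_nonneg_left _ hε.le
        have := mul_le_mul_of_nonneg_right h6 (by positivity : (0:ℝ) ≤ W / 2)
        linarith
    _ = |F| / q * (ε * W) := by ring
    _ ≤ |F| / q * (q / 64) := mul_le_mul_of_nonneg_left hW (by positivity)
    _ = |F| / 64 := by field_simp
    _ ≤ |F| / 4 := by linarith [abs_nonneg F]

lemma c2 {F De Df dX q θ φ ψ d U γ W ε : ℝ} (hq : 0 < q) (hθ : 0 < θ) (hDe : 0 < De)
    (hDf : 0 < Df) (hF : q ≤ |F|) (h2 : q * |d| ≤ |F| * De) (hw : q ≤ De * |dX|)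
    (hth : θ * (Df * |dX|) ≤ |F|) (hψ0 : 0 ≤ ψ) (hψ : ψ ≤ φ) (hφ : φ ≤ θ / 16)
    (hφ1 : φ ≤ 1 / 4)
    (hU : |U| ≤ W / 2) (hγ : |γ| ≤ W / 2) (hε : 0 < ε) (hW : ε * W ≤ φ * q / 64) :
    |F - ψ * (Df * dX) + ε * ((d - ψ * Df) * (U / De) + γ) - F| ≤ |F| / 4 := by
  have hW0 : 0 ≤ W := by linarith [abs_nonneg U]
  have hF0 : 0 ≤ |F| := abs_nonneg F
  have hφ0 : 0 ≤ φ := hψ0.trans hψ
  have hq64 : φ * q / 64 ≤ q / 256 := by nlinarith
  have e1 : F - ψ * (Df * dX) + ε * ((d - ψ * Df) * (U / De) + γ) - F =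
      - (ψ * (Df * dX)) + (ε * (d * (U / De) + γ) - ε * (ψ * Df * (U / De))) := by ring
  rw [e1]
  have h1 : |ψ * (Df * dX)| ≤ |F| / 16 := by
    rw [abs_mul, abs_mul, abs_of_nonneg hψ0, abs_of_pos hDf]
    have h3 : ψ * (Df * |dX|) ≤ θ / 16 * (Df * |dX|) :=
      mul_le_mul_of_nonneg_right (hψ.trans hφ) (by positivity)
    linarith
  have h3 := c1 hq hDe hF h2 hU hγ hε (by linarith : ε * W ≤ q / 64)
  have h3' : |ε * (d * (U / De) + γ)| ≤ |F| / 64 := by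
    -- repeat the estimate with the better constant
    have h4 : |d| / De ≤ |F| / q := by
      rw [div_le_div_iff₀ hDe hq]; linarith
    have h5 : |d * (U / De)| ≤ |F| / q * (W / 2) := by
      rw [abs_mul, abs_div, abs_of_pos hDe]
      calc |d| * (|U| / De) = |d| / De * |U| := by ring
        _ ≤ |F| / q * (W / 2) := mul_le_mul h4 hU (abs_nonneg _) (by positivity)
    have h6 : (1:ℝ) ≤ |F| / q := by rw [le_div_iff₀ hq]; linarith
    rw [abs_mul, abs_of_pos hε]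
    calc ε * |d * (U / De) + γ| ≤ ε * (|F| / q * (W / 2) + W / 2) :=
          mul_le_mul_of_nonneg_left ((abs_add_le _ _).trans (add_le_add h5 hγ)) hε.le
      _ ≤ ε * (|F| / q * (W / 2) + |F| / q * (W / 2)) := by
          apply mul_le_mul_of_nonneg_left _ hε.le
          have := mul_le_mul_of_nonneg_right h6 (by positivity : (0:ℝ) ≤ W / 2)
          linarith
      _ = |F| / q * (ε * W) := by ring
      _ ≤ |F| / q * (q / 64) := mul_le_mul_of_nonneg_left (by linarith) (by positivity)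
      _ = |F| / 64 := by field_simp
  have h7 : |ε * (ψ * Df * (U / De))| ≤ |F| / 64 := by
    have h8 : Df / De ≤ |F| / (θ * q) := by
      rw [div_le_div_iff₀ hDe (by positivity)]
      have h9 : Df * q ≤ Df * (De * |dX|) := mul_le_mul_of_nonneg_left hw hDf.le
      have h10 : θ * (Df * q) ≤ θ * (Df * (De * |dX|)) := mul_le_mul_of_nonneg_left h9 hθ.le
      have h11 : De * (θ * (Df * |dX|)) ≤ De * |F| := mul_le_mul_of_nonneg_left hth hDe.le
      linarith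
    rw [abs_mul, abs_of_pos hε, abs_mul, abs_mul, abs_of_nonneg hψ0, abs_of_pos hDf, abs_div,
      abs_of_pos hDe]
    calc ε * (ψ * Df * (|U| / De)) = ε * ψ * (Df / De) * |U| := by ring
      _ ≤ ε * φ * (|F| / (θ * q)) * (W / 2) := by
          apply mul_le_mul _ hU (abs_nonneg _) (by positivity)
          apply mul_le_mul _ h8 (by positivity) (by positivity)
          exact mul_le_mul_of_nonneg_left hψ hε.le
      _ = (ε * W) * (φ * |F| / (2 * (θ * q))) := by ring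
      _ ≤ (φ * q / 64) * (φ * |F| / (2 * (θ * q))) :=
          mul_le_mul_of_nonneg_right hW (by positivity)
      _ = φ * (φ / θ) * |F| / 128 := by field_simp; ring
      _ ≤ 1 / 4 * (1 / 16) * |F| / 128 := by
          have h12 : φ / θ ≤ 1 / 16 := by rw [div_le_iff₀ hθ]; linarith
          have h13 : φ * (φ / θ) ≤ 1 / 4 * (1 / 16) :=
            mul_le_mul hφ1 h12 (by positivity) (by norm_num)
          have := mul_le_mul_of_nonneg_right h13 hF0
          linarith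
      _ ≤ |F| / 64 := by linarith
  have h8 := abs_add_le (-(ψ * (Df * dX))) (ε * (d * (U / De) + γ) - ε * (ψ * Df * (U / De)))
  have h9 := abs_sub (ε * (d * (U / De) + γ)) (ε * (ψ * Df * (U / De)))
  rw [abs_neg] at h8
  linarith

lemma c3 {De Df dX q φ ψ d U γ W ε : ℝ} (hq : 0 < q) (hDe : 0 < De) (hDf : 0 < Df)
    (hd : |d| ≤ De) (hw : q ≤ De * |dX|) (hw' : q ≤ Df * |dX|)
    (hψ : φ / 2 ≤ ψ) (hφ0 : 0 < φ) (hφ1 : φ ≤ 1 / 4)
    (hU : |U| ≤ W / 2) (hγ : |γ| ≤ W / 2) (hε : 0 < ε) (hW : ε * W ≤ φ * q / 64) :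
    |0 - ψ * (Df * dX) + ε * ((d - ψ * Df) * (U / De) + γ) - (- (ψ * (Df * dX)))| ≤
      |-(ψ * (Df * dX))| / 4 := by
  have hW0 : 0 ≤ W := by linarith [abs_nonneg U]
  have hψ0 : 0 < ψ := by linarith
  have e1 : 0 - ψ * (Df * dX) + ε * ((d - ψ * Df) * (U / De) + γ) - (- (ψ * (Df * dX))) =
      ε * (d * (U / De) + γ) - ε * (ψ * Df * (U / De)) := by ring
  rw [e1, abs_neg]
  set m := |ψ * (Df * dX)| with hm
  have hm' : m = ψ * (Df * |dX|) := by
    rw [hm, abs_mul, abs_mul, abs_of_pos hψ0, abs_of_pos hDf]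
  have hm1 : φ / 2 * q ≤ m := by
    rw [hm']; exact mul_le_mul hψ hw' hq.le hψ0.le
  have h3 : |ε * (d * (U / De) + γ)| ≤ m / 32 := by
    have h4 : |d * (U / De)| ≤ W / 2 := by
      rw [abs_mul, abs_div, abs_of_pos hDe]
      calc |d| * (|U| / De) = |d| / De * |U| := by ring
        _ ≤ 1 * (W / 2) := mul_le_mul (by rw [div_le_one hDe]; exact hd) hU (abs_nonneg _)
            (by norm_num)
        _ = W / 2 := one_mul _
    rw [abs_mul, abs_of_pos hε]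
    calc ε * |d * (U / De) + γ| ≤ ε * (W / 2 + W / 2) :=
          mul_le_mul_of_nonneg_left ((abs_add_le _ _).trans (add_le_add h4 hγ)) hε.le
      _ = ε * W := by ring
      _ ≤ φ * q / 64 := hW
      _ = (φ / 2 * q) / 32 := by ring
      _ ≤ m / 32 := by linarith
  have h5 : |ε * (ψ * Df * (U / De))| ≤ m / 32 := by
    have h6 : 1 / De ≤ |dX| / q := by
      rw [div_le_div_iff₀ hDe hq]; linarith
    rw [abs_mul, abs_of_pos hε, abs_mul, abs_mul, abs_of_pos hψ0, abs_of_pos hDf, abs_div,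
      abs_of_pos hDe]
    calc ε * (ψ * Df * (|U| / De)) = (ε * |U|) * (ψ * Df) * (1 / De) := by ring
      _ ≤ (ε * (W / 2)) * (ψ * Df) * (|dX| / q) := by
          apply mul_le_mul _ h6 (by positivity) (by positivity)
          apply mul_le_mul_of_nonneg_right _ (by positivity)
          exact mul_le_mul_of_nonneg_left hU hε.le
      _ = (ε * W) * (m / (2 * q)) := by rw [hm']; ring
      _ ≤ (φ * q / 64) * (m / (2 * q)) :=
          mul_le_mul_of_nonneg_right hW (by positivity)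
      _ = φ * m / 128 := by field_simp; ring
      _ ≤ m / 32 := by
          have : 0 ≤ m := abs_nonneg _
          nlinarith
  have h9 := abs_sub (ε * (d * (U / De) + γ)) (ε * (ψ * Df * (U / De)))
  have hm0 : 0 ≤ m := abs_nonneg _
  linarith

end NearPoly
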