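import Pool.Agent.H141R2.NP1

/-!
# Sign lemmas with margins for the lines near a crossing
-/

namespace NearPoly

open KLev Finset

section raw

variable {Nx V P H : ℕ} {q θ W : ℝ} {p : Pm}

/-- the time coordinate -/
noncomputable def xi (p : Pm) (i j : ℕ) (x y : ℝ) : ℝ := i + p.κ * x + p.lam * (j + p.κ * y)

/-- the scaled vertical coordinate -/
noncomputable def vv (p : Pm) (i j : ℕ) (x y : ℝ) : ℝ :=
  -p.φ * xi p i j x y + p.δ * (j + p.κ * y)

lemma PP.lam_le (h : PP Nx V P H q θ W p) : p.lam ≤ 1 / 8 := by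
  have h1 := h.l1
  have h0 := h.l0
  have : (0:ℝ) ≤ (H:ℝ) * Nx + V := by positivity
  nlinarith

lemma PP.φ_le (h : PP Nx V P H q θ W p) : p.φ ≤ 1 / 16 := by
  have := h.φθ; have := h.θ1; linarith

lemma PP.κ1' (h : PP Nx V P H q θ W p) {x y : ℝ} (hx : |x| ≤ H) (hy : |y| ≤ H) :
    |p.κ * (x + p.lam * y)| ≤ p.lam / 8 := by
  refine le_trans ?_ h.κ1
  rw [abs_mul, abs_of_pos h.κ0]
  apply mul_le_mul_of_nonneg_left _ h.κ0.le
  have h1 := h.lam_le
  have h2 : |p.lam * y| ≤ 1 * H := by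
    rw [abs_mul, abs_of_pos h.l0]
    exact mul_le_mul (by linarith) hy (abs_nonneg _) (by norm_num)
  calc |x + p.lam * y| ≤ |x| + |p.lam * y| := abs_add_le _ _
    _ ≤ 2 * H := by linarith

lemma PP.κ3 (h : PP Nx V P H q θ W p) {y : ℝ} (hy : |y| ≤ H) : |p.κ * y| ≤ 1 / 2 := by
  rw [abs_mul, abs_of_pos h.κ0]
  exact (mul_le_mul_of_nonneg_left hy h.κ0.le).trans h.κ2

/-- bounds on the time coordinate -/
lemma PP.xi_bd (h : PP Nx V P H q θ W p) {x y : ℝ} (hx : |x| ≤ H) (hy : |y| ≤ H)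
    (i : ℕ) {j : ℕ} (hj : j < V) :
    (i:ℝ) + p.lam * j - p.lam / 8 ≤ xi p i j x y ∧ xi p i j x y ≤ (i:ℝ) + p.lam * j + p.lam / 8 ∧
      p.lam * j + p.lam ≤ 1 / 8 :=
  let h' := xi_bounds (i := i) (j := j) (V := V) (Rz := H) (Nx := Nx) (κ := p.κ) (x := x)
    (y := y) h.l0 h.l1 hj (h.κ1' hx hy)
  ⟨h'.1, h'.2.1, h'.2.2.1⟩

lemma PP.dw_bd (h : PP Nx V P H q θ W p) {y : ℝ} (hy : |y| ≤ H) {j : ℕ} (hj : j < V) :
    |p.δ * (j + p.κ * y)| ≤ p.δ * (V + 1) := w_bounds hj (h.κ3 hy) h.δ0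

lemma PP.xi_lo (h : PP Nx V P H q θ W p) {x y : ℝ} (hx : |x| ≤ H) (hy : |y| ≤ H)
    (i : ℕ) {j : ℕ} (hj : j < V) : (i:ℝ) - 1 / 64 ≤ xi p i j x y := by
  obtain ⟨h1, -, -⟩ := h.xi_bd hx hy i hj
  have := h.lam_le
  have : 0 ≤ p.lam * j := mul_nonneg h.l0.le (Nat.cast_nonneg _)
  linarith

lemma PP.xi_hi (h : PP Nx V P H q θ W p) {x y : ℝ} (hx : |x| ≤ H) (hy : |y| ≤ H)
    (i : ℕ) {j : ℕ} (hj : j < V) : xi p i j x y ≤ i + 1 / 8 := by
  obtain ⟨-, h1, h2⟩ := h.xi_bd hx hy i hj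
  have := h.l0
  linarith

lemma PP.vv_abs (h : PP Nx V P H q θ W p) {x y : ℝ} (hx : |x| ≤ H) (hy : |y| ≤ H)
    {i : ℕ} (hi : i < Nx) {j : ℕ} (hj : j < V) : |vv p i j x y| ≤ 1 / 2 := by
  have h1 := h.xi_lo hx hy i hj
  have h2 := h.xi_hi hx hy i hj
  have h3 := abs_le.mp ((h.dw_bd hy hj).trans h.δ2)
  have hi' : (i:ℝ) + 1 ≤ Nx := by exact_mod_cast hi
  have h4 := h.φ1
  have h5 := h.φ0
  have h6 := h.φ_le
  have hi0 : (0:ℝ) ≤ i := Nat.cast_nonneg _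
  have h7 : p.φ * xi p i j x y ≤ 1 / 4 := by
    refine le_trans ?_ h4
    exact mul_le_mul_of_nonneg_left (by linarith) h5.le
  have h8 : -(1/4) ≤ p.φ * xi p i j x y := by nlinarith
  unfold vv
  rw [abs_le]
  constructor <;> linarith [h3.1, h3.2]

/-- T-line of the leaving bundle -/
lemma PP.sTa (h : PP Nx V P H q θ W p) {x y : ℝ} (hx : |x| ≤ H) (hy : |y| ≤ H)
    {i i' j val : ℕ} {τ : ℝ} (hj : j < V) (hval : val ≤ H * Nx + V) (K : Prop)
    (hτ : (K → τ = -1/2) ∧ (¬ K → τ = 1/2)) :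
    Sg (-p.φ * (i' + p.lam * (val + τ)) - vv p i j x y) (p.φ * p.lam / 4)
      (i < i' ∨ (i' = i ∧ (j < val ∨ (val = j ∧ ¬ K)))) := by
  obtain ⟨hx1, hx2, hx3⟩ := h.xi_bd hx hy i hj
  have hx4 := h.lam_le
  have hw := abs_le.mp (h.dw_bd hy hj)
  have hφ0 := h.φ0
  have hl0 := h.l0
  have hl1 := h.l1
  have hδ1 := h.δ1
  set ξ := xi p i j x y with hξ
  set dw := p.δ * (j + p.κ * y) with hdw
  have hB : -p.φ * (i' + p.lam * (val + τ)) - vv p i j x y =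
      p.φ * (ξ - (i' + p.lam * (val + τ))) - dw := by unfold vv; ring
  rw [hB]
  have hvr : (val:ℝ) ≤ H * Nx + V := by exact_mod_cast hval
  have hv0 : (0:ℝ) ≤ val := by positivity
  have hj0 : (0:ℝ) ≤ j := by positivity
  have hτ2 : τ ≤ 1/2 := by
    by_cases hK : K
    · rw [hτ.1 hK]; norm_num
    · rw [hτ.2 hK]
  have hτ1 : -1/2 ≤ τ := by
    by_cases hK : K
    · rw [hτ.1 hK]
    · rw [hτ.2 hK]; norm_num
  have a0 : 0 ≤ p.lam * val := by positivity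
  have a0' : 0 ≤ p.lam * j := by positivity
  have a1 : p.lam * τ ≤ p.lam * (1/2) := mul_le_mul_of_nonneg_left hτ2 hl0.le
  have a2 : p.lam * (-1/2) ≤ p.lam * τ := mul_le_mul_of_nonneg_left hτ1 hl0.le
  have a3 : p.lam * val ≤ p.lam * (H * Nx + V) := mul_le_mul_of_nonneg_left hvr hl0.le
  have a4 : p.lam * (H * Nx + V) + p.lam ≤ 1/8 := by linarith
  have a6 : p.lam * ((val:ℝ) + τ) = p.lam * val + p.lam * τ := by ring
  have a7 : 0 < p.φ * p.lam := mul_pos hφ0 hl0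
  have hub : ∀ z : ℝ, z ≤ -(3/8 * p.lam) → p.φ * z - dw ≤ -(p.φ * p.lam / 4) := by
    intro z hz
    have : p.φ * z ≤ p.φ * (-(3/8 * p.lam)) := mul_le_mul_of_nonneg_left hz hφ0.le
    have e : p.φ * (-(3/8 * p.lam)) = -(3/8) * (p.φ * p.lam) := by ring
    linarith [hw.1]
  have hlb : ∀ z : ℝ, 3/8 * p.lam ≤ z → p.φ * p.lam / 4 ≤ p.φ * z - dw := by
    intro z hz
    have : p.φ * (3/8 * p.lam) ≤ p.φ * z := mul_le_mul_of_nonneg_left hz hφ0.le
    have e : p.φ * (3/8 * p.lam) = (3/8) * (p.φ * p.lam) := by ring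
    linarith [hw.2]
  rcases lt_trichotomy i i' with h' | h' | h'
  · have hi : (i:ℝ) + 1 ≤ i' := by exact_mod_cast h'
    exact ⟨fun _ => hub _ (by linarith), fun hn => absurd (Or.inl h') hn⟩
  · subst h'
    rcases lt_trichotomy j val with h' | h' | h'
    · have hv : (j:ℝ) + 1 ≤ val := by exact_mod_cast h'
      have hv2 : p.lam * (j + 1) ≤ p.lam * val := mul_le_mul_of_nonneg_left hv hl0.le
      exact ⟨fun _ => hub _ (by linarith), fun hn => absurd (Or.inr ⟨rfl, Or.inl h'⟩) hn⟩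
    · subst h'
      by_cases hK : K
      · have hτ' := hτ.1 hK
        refine ⟨fun h3 => ?_, fun _ => hlb _ (by rw [hτ'] at *; linarith)⟩
        rcases h3 with h3 | ⟨-, h3 | ⟨-, h3⟩⟩
        · exact absurd h3 (lt_irrefl _)
        · exact absurd h3 (lt_irrefl _)
        · exact absurd hK h3
      · have hτ' := hτ.2 hK
        exact ⟨fun _ => hub _ (by rw [hτ'] at *; linarith),
          fun hn => absurd (Or.inr ⟨rfl, Or.inr ⟨rfl, hK⟩⟩) hn⟩
    · have hv : (val:ℝ) + 1 ≤ j := by exact_mod_cast h'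
      have hv2 : p.lam * (val + 1) ≤ p.lam * j := mul_le_mul_of_nonneg_left hv hl0.le
      refine ⟨fun h3 => ?_, fun _ => hlb _ (by linarith)⟩
      exfalso
      rcases h3 with h3 | ⟨-, h3 | ⟨h3, -⟩⟩ <;> omega
  · have hi : (i':ℝ) + 1 ≤ i := by exact_mod_cast h'
    refine ⟨fun h3 => ?_, fun _ => hlb _ (by linarith)⟩
    exfalso
    rcases h3 with h3 | ⟨h3, -⟩ <;> omega

/-- T-line of the entering bundle -/
lemma PP.sTb (h : PP Nx V P H q θ W p) {x y : ℝ} (hx : |x| ≤ H) (hy : |y| ≤ H)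
    {i i' j val c : ℕ} {τ : ℝ} (hj : j < V) (hτ1 : -1/2 ≤ τ) :
    -(c + 1/2 + (1 + p.φ) * xi p i j x y) + -p.φ * (i' + p.lam * (val + τ))
      - vv p i j x y ≤ -(1/4) := by
  have hx1 := h.xi_lo hx hy i hj
  have hw := abs_le.mp ((h.dw_bd hy hj).trans h.δ2)
  have hφ0 := h.φ0
  have hl0 := h.l0
  have hφ := h.φ_le
  have hl := h.lam_le
  set ξ := xi p i j x y with hξ
  have hv0 : (0:ℝ) ≤ val := by positivity
  have hi0 : (0:ℝ) ≤ i := by positivity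
  have hi0' : (0:ℝ) ≤ i' := by positivity
  have hc0 : (0:ℝ) ≤ c := by positivity
  have h1 : 0 ≤ p.φ * i' := by positivity
  have h2 : 0 ≤ p.φ * (p.lam * val) := by positivity
  have h3 : p.φ * p.lam ≤ 1/16 * (1/8) := mul_le_mul hφ hl hl0.le (by norm_num)
  have h4 : p.φ * (p.lam * τ) ≥ - (p.φ * p.lam) := by nlinarith [mul_pos hφ0 hl0]
  have e : -((c:ℝ) + 1/2 + (1 + p.φ) * ξ) + -p.φ * (i' + p.lam * (val + τ)) - vv p i j x y =
      -(c:ℝ) - 1/2 - ξ - p.φ * i' - p.φ * (p.lam * val) - p.φ * (p.lam * τ) -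
        p.δ * (j + p.κ * y) := by
    unfold vv; rw [← hξ]; ring
  rw [e]
  linarith [hw.1]

/-- W-line of the leaving bundle -/
lemma PP.sWa (h : PP Nx V P H q θ W p) {x y : ℝ} (hx : |x| ≤ H) (hy : |y| ≤ H)
    {i j : ℕ} {ω : ℝ} (hi : i < Nx) (hj : j < V) (hω : 1 ≤ ω) :
    1/4 ≤ ω - vv p i j x y := by
  have := (abs_le.mp (h.vv_abs hx hy hi hj)).2
  linarith

/-- W-line of the entering bundle -/
lemma PP.sWb (h : PP Nx V P H q θ W p) {x y : ℝ} (hx : |x| ≤ H) (hy : |y| ≤ H)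
    {i j c u : ℕ} (hj : j < V) :
    Sg (-(c + 1/2 + (1 + p.φ) * xi p i j x y) + (1 + u : ℝ) - vv p i j x y) (1/4)
      (u < c + i) := by
  have hx1 := h.xi_lo hx hy i hj
  have hx2 := h.xi_hi hx hy i hj
  have hw := abs_le.mp ((h.dw_bd hy hj).trans h.δ2)
  set ξ := xi p i j x y with hξ
  have e : -((c:ℝ) + 1/2 + (1 + p.φ) * ξ) + (1 + u : ℝ) - vv p i j x y =
      (u:ℝ) + 1/2 - c - ξ - p.δ * (j + p.κ * y) := by
    unfold vv; rw [← hξ]; ring
  rw [e]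
  constructor
  · intro h'
    have h' : (u:ℝ) + 1 ≤ c + i := by exact_mod_cast h'
    linarith [hw.1]
  · intro h'
    have h' : (c:ℝ) + i ≤ u := by exact_mod_cast (not_lt.mp h')
    linarith [hw.2]

/-- dummy line of the entering bundle -/
lemma PP.sDb (h : PP Nx V P H q θ W p) {x y : ℝ} (hx : |x| ≤ H) (hy : |y| ≤ H)
    {i j c : ℕ} (hi : i < Nx) (hj : j < V) (hc : c ≤ 2 * P) :
    1/4 ≤ -(c + 1/2 + (1 + p.φ) * xi p i j x y) + (Nx + 2 * P + 4 : ℝ) - vv p i j x y := by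
  have hx2 := h.xi_hi hx hy i hj
  have hw := abs_le.mp ((h.dw_bd hy hj).trans h.δ2)
  set ξ := xi p i j x y with hξ
  have e : -((c:ℝ) + 1/2 + (1 + p.φ) * ξ) + (Nx + 2 * P + 4 : ℝ) - vv p i j x y =
      (Nx:ℝ) + 2 * P + 4 - c - 1/2 - ξ - p.δ * (j + p.κ * y) := by
    unfold vv; rw [← hξ]; ring
  rw [e]
  have hc' : (c:ℝ) ≤ 2 * P := by exact_mod_cast hc
  have hi' : (i:ℝ) + 1 ≤ Nx := by exact_mod_cast hi
  linarith [hw.2]

/-- pool line of the same event -/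
lemma PP.sS (h : PP Nx V P H q θ W p) (hH : 1 ≤ H) {F : ℝ} {j val s : ℕ} (hs : s ≤ H)
    (hF : |F| ≤ H) (hg : val = j → 1 ≤ H * |F|) :
    Sg (p.δ / (1 + p.lam * s) * (val - j + p.κ * F)) (p.δ * p.κ / (4 * H))
      (val < j ∨ (val = j ∧ F < 0)) := by
  have hH' : (1:ℝ) ≤ H := by exact_mod_cast hH
  have hH0 : (0:ℝ) < H := by linarith
  have hs' : (s:ℝ) ≤ H := by exact_mod_cast hs
  have hs0 : (0:ℝ) ≤ s := Nat.cast_nonneg _
  have hl0 := h.l0
  have hl2 := h.l2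
  have hδ0 := h.δ0
  have hκ0 := h.κ0
  have hls : 1 + p.lam * s ≤ 2 := by
    have h1 : p.lam * s ≤ p.lam * H := mul_le_mul_of_nonneg_left hs' hl0.le
    have h2 : p.lam * H ≤ p.lam * (4 * H * H) :=
      mul_le_mul_of_nonneg_left (by nlinarith) hl0.le
    linarith
  have hls0 : 0 < 1 + p.lam * s := by positivity
  have hq : p.δ / 2 ≤ p.δ / (1 + p.lam * s) := by
    apply div_le_div_of_nonneg_left hδ0.le hls0 hls
  set D := p.δ / (1 + p.lam * s) with hD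
  have hD0 : 0 < D := by positivity
  have hκF : |p.κ * F| ≤ 1/2 := h.κ3 hF
  have hκF' := abs_le.mp hκF
  have hκ1 : p.κ ≤ 1 / 2 := by
    have := h.κ2
    nlinarith
  have hm : p.δ * p.κ / (4 * H) ≤ D * (1/2) := by
    have h1 : p.δ * p.κ / (4 * H) ≤ p.δ * (1/2) / (4 * 1) := by
      apply div_le_div₀ (by positivity) _ (by norm_num) (by linarith)
      exact mul_le_mul_of_nonneg_left hκ1 hδ0.le
    linarith
  have hm2 : val = j → p.δ * p.κ / (4 * H) ≤ D * (p.κ * |F|) := by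
    intro hv
    have h1 := hg hv
    have h2 : 1 / H ≤ |F| := by rw [div_le_iff₀ hH0]; linarith
    calc p.δ * p.κ / (4 * H) = p.δ / 4 * (p.κ * (1 / H)) := by field_simp
      _ ≤ p.δ / 2 * (p.κ * |F|) := by
          apply mul_le_mul (by linarith) (mul_le_mul_of_nonneg_left h2 hκ0.le) (by positivity)
            (by positivity)
      _ ≤ D * (p.κ * |F|) := mul_le_mul_of_nonneg_right hq (by positivity)
  rcases lt_trichotomy val j with h1 | h1 | h1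
  · have h1' : (val:ℝ) + 1 ≤ j := by exact_mod_cast h1
    refine ⟨fun _ => ?_, fun hn => absurd (Or.inl h1) hn⟩
    have : D * (val - j + p.κ * F) ≤ D * (-(1/2)) :=
      mul_le_mul_of_nonneg_left (by linarith [hκF'.2]) hD0.le
    linarith
  · subst h1
    have hF0 : F ≠ 0 := by
      rintro rfl
      have := hg rfl
      rw [abs_zero, mul_zero] at this
      linarith
    have e : D * ((val:ℝ) - val + p.κ * F) = D * (p.κ * F) := by ring
    rw [e]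
    have hm3 := hm2 rfl
    rcases lt_or_gt_of_ne hF0 with h2 | h2
    · rw [abs_of_neg h2] at hm3
      refine ⟨fun _ => by linarith, fun hn => absurd (Or.inr ⟨rfl, h2⟩) hn⟩
    · rw [abs_of_pos h2] at hm3
      refine ⟨fun h3 => ?_, fun _ => hm3⟩
      exfalso
      rcases h3 with h3 | ⟨-, h3⟩
      · exact lt_irrefl _ h3
      · linarith
  · have h1' : (j:ℝ) + 1 ≤ val := by exact_mod_cast h1
    refine ⟨fun h3 => ?_, fun _ => ?_⟩
    · exfalso; rcases h3 with h3 | ⟨h3, -⟩ <;> omega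
    · have : D * (1/2) ≤ D * (val - j + p.κ * F) :=
        mul_le_mul_of_nonneg_left (by linarith [hκF'.1]) hD0.le
      linarith

end raw

end NearPoly
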