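import Pool.Agent.H141R2.NP3

/-!
# Margins of the composed arrangement, line by line
-/

namespace NearPoly

open KLev Finset

section

variable {A R₁ G R₂ : Type} [Fintype A] [Fintype G] {k₁ P₁ k₂ P₂ : ℕ}
variable {S₁ : Ev A R₁ k₁ P₁} {S₂ : Ev G R₂ k₂ P₂} {σ : G → ℕ} {H Nx V : ℕ}
variable {q θ W L : ℝ} {p : Pm} {K : Finset G}

/-- height of a line over an event of the composed arrangement -/
noncomputable def FF (S₁ : Ev A R₁ k₁ P₁) (S₂ : Ev G R₂ k₂ P₂) (σ : G → ℕ) (Nx V : ℕ) (p : Pm)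
    (K : Finset G) (e : R₁) (i j : ℕ) (r : R₂) (l : Idx A G Nx P₁ V) : ℝ :=
  sl S₁ σ Nx V p l * xx S₁ p e i j (S₂.X r) (S₂.Y r) + ic S₁ σ S₂.t Nx V p K l -
    yy S₁ p e i j (S₂.X r) (S₂.Y r)

/-- slope difference factor -/
noncomputable def dd (S₂ : Ev G R₂ k₂ P₂) (σ : G → ℕ) (p : Pm) (r : R₂) : ℝ :=
  ps p σ (S₂.b r) - ps p σ (S₂.a r)

section basic

variable (hp : PP Nx V P₁ H q θ W p)
include hp

lemma PP.ls {s : ℕ} (hH : 1 ≤ H) (hs : s ≤ H) : 1 ≤ 1 + p.lam * s ∧ 1 + p.lam * s ≤ 5 / 4 := by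
  have hs' : (s:ℝ) ≤ H := by exact_mod_cast hs
  have hH' : (1:ℝ) ≤ H := by exact_mod_cast hH
  have hl0 := hp.l0
  have hl2 := hp.l2
  refine ⟨by have : 0 ≤ p.lam * s := by positivity
             linarith, ?_⟩
  have h1 : p.lam * s ≤ p.lam * H := mul_le_mul_of_nonneg_left hs' hl0.le
  have h2 : 4 * (p.lam * H) ≤ p.lam * (4 * H * H) := by
    have : p.lam * (4 * H * H) - 4 * (p.lam * H) = 4 * (p.lam * H) * (H - 1) := by ring
    have h3 : 0 ≤ 4 * (p.lam * H) * (H - 1) := by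
      apply mul_nonneg (by positivity); linarith
    linarith
  linarith

lemma PP.ps_bd {α : G} (hH : 1 ≤ H) (hα : σ α ≤ H) : p.φ / 2 ≤ ps p σ α ∧ ps p σ α ≤ p.φ := by
  have hφ0 := hp.φ0
  have hφ := hp.φ_le
  have hδ0 := hp.δ0
  have hδ3 := hp.δ3
  obtain ⟨h1, h2⟩ := hp.ls hH hα
  have hα' : (σ α : ℝ) ≤ H := by exact_mod_cast hα
  have hfr0 : 0 ≤ p.δ * σ α / (1 + p.lam * σ α) := by positivity
  have hfr : p.δ * σ α / (1 + p.lam * σ α) ≤ p.φ / 8 := by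
    calc p.δ * σ α / (1 + p.lam * σ α) ≤ p.δ * σ α := div_le_self (by positivity) h1
      _ ≤ p.δ * (H + 1) := mul_le_mul_of_nonneg_left (by linarith) hδ0.le
      _ ≤ _ := hδ3
  unfold ps
  constructor
  · rw [le_div_iff₀ (by linarith)]; nlinarith
  · rw [div_le_iff₀ (by linarith)]; nlinarith

omit [Fintype G] in
lemma PP.ps_sub {α γ : G} (hH : 1 ≤ H) (hα : σ α ≤ H) (hγ : σ γ ≤ H) :
    ps p σ γ - ps p σ α = p.δ * ((σ α : ℝ) - σ γ) /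
      ((1 + p.φ) * ((1 + p.lam * σ α) * (1 + p.lam * σ γ))) := by
  have hφ0 := hp.φ0
  have h1 := (hp.ls hH hα).1
  have h2 := (hp.ls hH hγ).1
  have h3 : (1 + p.lam * (σ α:ℝ)) ≠ 0 := by linarith
  have h4 : (1 + p.lam * (σ γ:ℝ)) ≠ 0 := by linarith
  have h5 : (1 + p.φ) ≠ 0 := by linarith
  have e1 : p.δ * (σ α:ℝ) / (1 + p.lam * σ α) - p.δ * (σ γ:ℝ) / (1 + p.lam * σ γ) =
      p.δ * ((σ α : ℝ) - σ γ) / ((1 + p.lam * σ α) * (1 + p.lam * σ γ)) := by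
    rw [div_sub_div _ _ h3 h4]; congr 1; ring
  unfold ps
  rw [div_sub_div_same, mul_comm (1 + p.φ), ← div_div, ← e1]
  congr 1
  ring

lemma PP.dd_bd (hI : Inn S₂ σ H) (r : R₂) :
    p.δ / 2 ≤ dd S₂ σ p r ∧ dd S₂ σ p r ≤ p.δ * H := by
  have hH := hI.H1
  have hφ0 := hp.φ0
  have hφ := hp.φ_le
  have hδ0 := hp.δ0
  have ha := hI.hH (S₂.a r)
  have hb := hI.hH (S₂.b r)
  have hsl := S₂.hs r
  rw [hI.hσ, hI.hσ] at hsl
  have hsl' : σ (S₂.b r) < σ (S₂.a r) := by exact_mod_cast hsl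
  have hsl2 : (σ (S₂.b r) : ℝ) + 1 ≤ σ (S₂.a r) := by exact_mod_cast hsl'
  have ha' : (σ (S₂.a r) : ℝ) ≤ H := by exact_mod_cast ha
  have hb0 : (0:ℝ) ≤ σ (S₂.b r) := Nat.cast_nonneg _
  obtain ⟨h1, h2⟩ := hp.ls hH ha
  obtain ⟨h3, h4⟩ := hp.ls hH hb
  unfold dd
  rw [hp.ps_sub hH ha hb]
  set M := (1 + p.φ) * ((1 + p.lam * σ (S₂.a r)) * (1 + p.lam * σ (S₂.b r))) with hM
  have hM1 : 1 ≤ M := by
    have h5 : 1 ≤ (1 + p.lam * σ (S₂.a r)) * (1 + p.lam * σ (S₂.b r)) :=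
      one_le_mul_of_one_le_of_one_le h1 h3
    exact one_le_mul_of_one_le_of_one_le (by linarith) h5
  have hM2 : M ≤ 2 := by
    have h5 : (1 + p.lam * σ (S₂.a r)) * (1 + p.lam * σ (S₂.b r)) ≤ 5/4 * (5/4) :=
      mul_le_mul h2 h4 (by linarith) (by norm_num)
    have h6 : M ≤ 17/16 * (5/4 * (5/4)) := mul_le_mul (by linarith) h5 (by positivity)
      (by norm_num)
    linarith
  constructor
  · rw [le_div_iff₀ (by linarith)]
    calc p.δ / 2 * M ≤ p.δ / 2 * 2 := mul_le_mul_of_nonneg_left hM2 (by positivity)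
      _ = p.δ * 1 := by ring
      _ ≤ p.δ * (σ (S₂.a r) - σ (S₂.b r)) := mul_le_mul_of_nonneg_left (by linarith) hδ0.le
  · calc p.δ * ((σ (S₂.a r):ℝ) - σ (S₂.b r)) / M ≤ p.δ * ((σ (S₂.a r):ℝ) - σ (S₂.b r)) :=
          div_le_self (mul_nonneg hδ0.le (by linarith)) hM1
      _ ≤ p.δ * H := mul_le_mul_of_nonneg_left (by linarith) hδ0.le

lemma PP.UU_abs {e : R₁} {i j : ℕ} {x y : ℝ} (hx : |x| ≤ H) (hy : |y| ≤ H) (hi : i < Nx)
    (hj : j < V) : |UU S₁ p e i j x y| ≤ W / 2 := by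
  have h1 := hp.xi_lo hx hy i hj
  have h2 := hp.xi_hi hx hy i hj
  have hi' : (i:ℝ) + 1 ≤ Nx := by exact_mod_cast hi
  have hφ0 := hp.φ0
  have hφ := hp.φ_le
  have hW := hp.W1
  have hc : (S₁.c0 e : ℝ) ≤ 2 * P₁ := by exact_mod_cast S₁.c0_le e
  have hc0 : (0:ℝ) ≤ S₁.c0 e := Nat.cast_nonneg _
  have hi0 : (0:ℝ) ≤ i := Nat.cast_nonneg _
  have hP0 : (0:ℝ) ≤ P₁ := Nat.cast_nonneg _
  set ξ := xi p i j x y
  have h3 : ξ ≤ Nx := by linarith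
  have h4 : p.φ * ξ ≤ 1 * Nx := by
    calc p.φ * ξ ≤ p.φ * Nx := mul_le_mul_of_nonneg_left h3 hφ0.le
      _ ≤ 1 * Nx := mul_le_mul_of_nonneg_right (by linarith) (Nat.cast_nonneg _)
  have h5 : -(1/64) ≤ p.φ * ξ := by nlinarith
  unfold UU
  rw [abs_le]
  constructor <;> nlinarith

lemma PP.omT (hH : 1 ≤ H) {i' : Fin Nx} {α : G} {β : Fin V} (hα : σ α ≤ H) :
    |-p.φ * (((i':ℕ):ℝ) + p.lam * (((σ α * (i':ℕ) + (β:ℕ) : ℕ) : ℝ) + tau K α))| ≤ 1 / 4 := by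
  have hφ0 := hp.φ0
  have hl0 := hp.l0
  have hl1 := hp.l1
  obtain ⟨ht1, ht2⟩ := tau_bounds K α
  have hi : ((i':ℕ):ℝ) + 1 ≤ Nx := by exact_mod_cast i'.2
  have hv : σ α * (i':ℕ) + (β:ℕ) ≤ H * Nx + V :=
    Nat.add_le_add (Nat.mul_le_mul hα i'.2.le) β.2.le
  have hv' : ((σ α * (i':ℕ) + (β:ℕ) : ℕ) : ℝ) ≤ H * Nx + V := by exact_mod_cast hv
  have hv0 : (0:ℝ) ≤ ((σ α * (i':ℕ) + (β:ℕ) : ℕ) : ℝ) := Nat.cast_nonneg _
  have hi0 : (0:ℝ) ≤ ((i':ℕ):ℝ) := Nat.cast_nonneg _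
  set v := ((σ α * (i':ℕ) + (β:ℕ) : ℕ) : ℝ)
  have h1 : p.lam * (v + tau K α) ≤ 1 / 8 := by
    refine le_trans (mul_le_mul_of_nonneg_left ?_ hl0.le) hl1
    linarith
  have h2 : -(1/8) ≤ p.lam * (v + tau K α) := by
    have := hp.lam_le
    nlinarith
  rw [neg_mul, abs_neg, abs_mul, abs_of_pos hφ0]
  refine le_trans (mul_le_mul_of_nonneg_left ?_ hφ0.le) hp.φ1
  rw [abs_le]
  constructor <;> linarith

lemma PP.btS (hI : Inn S₂ σ H) (α : G) (β : Fin V) :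
    |p.δ * (((β:ℕ):ℝ) + p.κ * S₂.t α) / (1 + p.lam * σ α)| ≤ 1 / 8 := by
  obtain ⟨h1, -⟩ := hp.ls hI.H1 (hI.hH α)
  have hκt := hp.κ3 (hI.t α)
  have hδ0 := hp.δ0
  have hβ : ((β:ℕ):ℝ) + 1 ≤ V := by exact_mod_cast β.2
  have hβ0 : (0:ℝ) ≤ ((β:ℕ):ℝ) := Nat.cast_nonneg _
  rw [abs_div, abs_of_pos (by linarith : 0 < 1 + p.lam * (σ α:ℝ))]
  refine le_trans (div_le_self (abs_nonneg _) h1) ?_
  rw [abs_mul, abs_of_pos hδ0]
  refine le_trans (mul_le_mul_of_nonneg_left ?_ hδ0.le) hp.δ2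
  have := abs_le.mp hκt
  rw [abs_le]
  constructor <;> linarith [this.1, this.2]

end basic

section cases

variable (hp : PP Nx V P₁ H q θ W p) (hQ : Ql S₁ q θ L) (hI : Inn S₂ σ H)
include hp hQ hI

/-- lines of bundles not involved in the event -/
lemma caseA (e : R₁) {i j : ℕ} (hi : i < Nx) (hj : j < V) (r : R₂) (l : Idx A G Nx P₁ V)
    (ha : l.1 ≠ S₁.a e) (hb : l.1 ≠ S₁.b e) :
    |FF S₁ S₂ σ Nx V p K e i j r l - Fv S₁ l.1 e| ≤ |Fv S₁ l.1 e| / 4 := by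
  have hX := hI.X r
  have hY := hI.Y r
  have hU := hp.UU_abs (S₁ := S₁) (e := e) hX hY hi hj
  have hv := hp.vv_abs hX hY hi hj
  have hW := hp.W1
  have hφ := hp.φ_le
  have hφ0 := hp.φ0
  have hεW : p.ε * W ≤ q / 64 := by
    have := hp.εW
    have hq := hp.q0
    nlinarith
  have hq := hp.q0
  have hNx0 : (0:ℝ) ≤ Nx := Nat.cast_nonneg _
  have hP0 : (0:ℝ) ≤ P₁ := Nat.cast_nonneg _
  obtain ⟨c, l⟩ := l
  simp only at ha hb ⊢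
  have hg1 := hQ.g1 e c ha hb
  have hg2 := hQ.g2 e c ha hb
  rcases l with ⟨i', α, β⟩ | ⟨u, α, β⟩ | ⟨h, α, β⟩
  · have h4 : FF S₁ S₂ σ Nx V p K e i j r (c, Sum.inl (i', α, β)) =
        Fv S₁ c e + p.ε * ((S₁.s c - S₁.s (S₁.a e)) *
          (UU S₁ p e i j (S₂.X r) (S₂.Y r) / S₁.D e) + (-p.φ * (((i':ℕ):ℝ) + p.lam *
            (((σ α * (i':ℕ) + (β:ℕ) : ℕ) : ℝ) + tau K α)) - vv p i j (S₂.X r) (S₂.Y r))) := by
      simp only [FF, sl, ic, xx, yy, Fv]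
      ring
    rw [h4]
    refine c1 (F := Fv S₁ c e) hq (S₁.D_pos e) hg1 hg2 hU ?_ hp.ε0 hεW
    have h1 := hp.omT (K := K) (i' := i') (β := β) hI.H1 (hI.hH α)
    refine (abs_sub _ _).trans ?_
    linarith
  · have h4 : FF S₁ S₂ σ Nx V p K e i j r (c, Sum.inr (Sum.inl (u, α, β))) =
        Fv S₁ c e + p.ε * ((S₁.s c - S₁.s (S₁.a e)) *
          (UU S₁ p e i j (S₂.X r) (S₂.Y r) / S₁.D e) + ((1 + ((u:ℕ):ℝ)) -
            vv p i j (S₂.X r) (S₂.Y r))) := by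
      simp only [FF, sl, ic, xx, yy, Fv]
      ring
    rw [h4]
    refine c1 (F := Fv S₁ c e) hq (S₁.D_pos e) hg1 hg2 hU ?_ hp.ε0 hεW
    have h2 : ((u:ℕ):ℝ) + 1 ≤ Nx + 2 * P₁ := by exact_mod_cast u.2
    have h3 : (0:ℝ) ≤ ((u:ℕ):ℝ) := Nat.cast_nonneg _
    refine (abs_sub _ _).trans ?_
    rw [abs_of_nonneg (by linarith : (0:ℝ) ≤ 1 + ((u:ℕ):ℝ))]
    linarith
  · rcases hev : S₁.evt c h with _ | f
    · have h4 : FF S₁ S₂ σ Nx V p K e i j r (c, Sum.inr (Sum.inr (h, α, β))) =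
          Fv S₁ c e + p.ε * ((S₁.s c - S₁.s (S₁.a e)) *
            (UU S₁ p e i j (S₂.X r) (S₂.Y r) / S₁.D e) + (((Nx:ℝ) + 2 * P₁ + 4) -
              vv p i j (S₂.X r) (S₂.Y r))) := by
        simp only [FF, sl, ic, xx, yy, Fv, hev]
        ring
      rw [h4]
      refine c1 (F := Fv S₁ c e) hq (S₁.D_pos e) hg1 hg2 hU ?_ hp.ε0 hεW
      refine (abs_sub _ _).trans ?_
      rw [abs_of_nonneg (by linarith : (0:ℝ) ≤ (Nx:ℝ) + 2 * P₁ + 4)]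
      linarith
    · obtain ⟨hc, hh⟩ := S₁.evt_spec hev
      have hfe : e ≠ f := by rintro rfl; exact ha hc.symm
      obtain ⟨hψ1, hψ2⟩ := hp.ps_bd (σ := σ) hI.H1 (hI.hH α)
      have hth := hQ.th e f (by rw [hc]; exact ha) (by rw [hc]; exact hb)
      rw [hc] at hth
      have h4 : FF S₁ S₂ σ Nx V p K e i j r (c, Sum.inr (Sum.inr (h, α, β))) =
          Fv S₁ c e - ps p σ α * (S₁.D f * (S₁.X e - S₁.X f)) + p.ε *
            (((S₁.s c - S₁.s (S₁.a e)) - ps p σ α * S₁.D f) *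
              (UU S₁ p e i j (S₂.X r) (S₂.Y r) / S₁.D e) + (ps p σ α * (S₁.c0 f + 1/2) +
              p.δ * ((β:ℕ) + p.κ * S₂.t α) / (1 + p.lam * σ α) -
              vv p i j (S₂.X r) (S₂.Y r))) := by
        simp only [FF, sl, ic, xx, yy, hev, diff_med, Fv]
        ring
      rw [h4]
      refine c2 hq hp.θ0 (S₁.D_pos e) (S₁.D_pos f) hg1 hg2 (hQ.w e f hfe) hth (by linarith) hψ2
        hp.φθ (by linarith) hU ?_ hp.ε0 hp.εW
      have hc : (S₁.c0 f : ℝ) ≤ 2 * P₁ := by exact_mod_cast S₁.c0_le f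
      have hc0 : (0:ℝ) ≤ S₁.c0 f := Nat.cast_nonneg _
      have hbt := hp.btS hI α β
      have h5 : |ps p σ α * (S₁.c0 f + 1/2)| ≤ 2 * P₁ + 1/2 := by
        rw [abs_mul, abs_of_nonneg (by linarith : 0 ≤ ps p σ α),
          abs_of_nonneg (by linarith : (0:ℝ) ≤ (S₁.c0 f : ℝ) + 1/2)]
        calc ps p σ α * ((S₁.c0 f:ℝ) + 1/2) ≤ 1 * ((S₁.c0 f:ℝ) + 1/2) :=
              mul_le_mul_of_nonneg_right (by linarith) (by linarith)
          _ ≤ _ := by linarith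
      refine (abs_sub _ _).trans ?_
      have h6 := abs_add_le (ps p σ α * ((S₁.c0 f:ℝ) + 1/2))
        (p.δ * ((β:ℕ) + p.κ * S₂.t α) / (1 + p.lam * σ α))
      linarith

/-- pool lines of another event in an involved bundle -/
lemma caseB (e f : R₁) (hfe : f ≠ e) {i j : ℕ} (hi : i < Nx) (hj : j < V) (r : R₂)
    (c : A) (h : Fin P₁) (hev : S₁.evt c h = some f) (hc : c = S₁.a e ∨ c = S₁.b e)
    (α : G) (β : Fin V) :
    |FF S₁ S₂ σ Nx V p K e i j r (c, Sum.inr (Sum.inr (h, (α, β)))) -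
      (- (ps p σ α * (S₁.D f * (S₁.X e - S₁.X f))))| ≤
      |-(ps p σ α * (S₁.D f * (S₁.X e - S₁.X f)))| / 4 := by
  have hX := hI.X r
  have hY := hI.Y r
  have hU := hp.UU_abs (S₁ := S₁) (e := e) hX hY hi hj
  have hv := hp.vv_abs hX hY hi hj
  have hW := hp.W1
  have hφ := hp.φ_le
  have hφ0 := hp.φ0
  have hq := hp.q0
  have hNx0 : (0:ℝ) ≤ Nx := Nat.cast_nonneg _
  have hP0 : (0:ℝ) ≤ P₁ := Nat.cast_nonneg _
  obtain ⟨hψ1, hψ2⟩ := hp.ps_bd (σ := σ) hI.H1 (hI.hH α)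
  have hF0 : Fv S₁ c e = 0 := by
    rcases hc with h' | h'
    · rw [h']; exact tie'' S₁ e
    · rw [h']; exact tie' S₁ e
  have h4 : FF S₁ S₂ σ Nx V p K e i j r (c, Sum.inr (Sum.inr (h, α, β))) =
      0 - ps p σ α * (S₁.D f * (S₁.X e - S₁.X f)) + p.ε *
        (((S₁.s c - S₁.s (S₁.a e)) - ps p σ α * S₁.D f) *
          (UU S₁ p e i j (S₂.X r) (S₂.Y r) / S₁.D e) + (ps p σ α * (S₁.c0 f + 1/2) +
          p.δ * ((β:ℕ) + p.κ * S₂.t α) / (1 + p.lam * σ α) -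
          vv p i j (S₂.X r) (S₂.Y r))) := by
    rw [← hF0]
    simp only [FF, sl, ic, xx, yy, hev, diff_med, Fv]
    ring
  rw [h4]
  have hw := hQ.w e f (Ne.symm hfe)
  have hw' := hQ.w f e hfe
  rw [abs_sub_comm (S₁.X f)] at hw'
  have hd : |S₁.s c - S₁.s (S₁.a e)| ≤ S₁.D e := by
    have hD := S₁.D_pos e
    rcases hc with h' | h'
    · rw [h', sub_self, abs_zero]; exact hD.le
    · rw [h', abs_sub_comm]; unfold Ev.D at hD ⊢; rw [abs_of_pos hD]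
  refine c3 hq (S₁.D_pos e) (S₁.D_pos f) hd hw hw' hψ1 hφ0 (by linarith) hU ?_ hp.ε0 hp.εW
  have hc : (S₁.c0 f : ℝ) ≤ 2 * P₁ := by exact_mod_cast S₁.c0_le f
  have hc0 : (0:ℝ) ≤ S₁.c0 f := Nat.cast_nonneg _
  have hbt := hp.btS hI α β
  have h5 : |ps p σ α * (S₁.c0 f + 1/2)| ≤ 2 * P₁ + 1/2 := by
    rw [abs_mul, abs_of_nonneg (by linarith : 0 ≤ ps p σ α),
      abs_of_nonneg (by linarith : (0:ℝ) ≤ (S₁.c0 f : ℝ) + 1/2)]
    calc ps p σ α * ((S₁.c0 f:ℝ) + 1/2) ≤ 1 * ((S₁.c0 f:ℝ) + 1/2) :=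
          mul_le_mul_of_nonneg_right (by linarith) (by linarith)
      _ ≤ _ := by linarith
  refine (abs_sub _ _).trans ?_
  have h6 := abs_add_le (ps p σ α * ((S₁.c0 f:ℝ) + 1/2))
    (p.δ * ((β:ℕ) + p.κ * S₂.t α) / (1 + p.lam * σ α))
  linarith

end cases

end

end NearPoly
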