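import Pool.Agent.H141R2.NP4

/-!
# Signs and margins over the events of the composed arrangement
-/

namespace NearPoly

open KLev Finset

section

variable {A R₁ G R₂ : Type} [Fintype A] [Fintype G] {k₁ P₁ k₂ P₂ : ℕ}
variable {S₁ : Ev A R₁ k₁ P₁} {S₂ : Ev G R₂ k₂ P₂} {σ : G → ℕ} {H Nx V : ℕ}
variable {q θ W L : ℝ} {p : Pm} {K : Finset G}

/-- the new margin -/
noncomputable def qn (p : Pm) (H : ℕ) : ℝ := p.ε * p.δ ^ 2 * p.κ / (16 * H)

/-- margin of the near lines -/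
noncomputable def mn (p : Pm) (H : ℕ) : ℝ := p.ε * (p.δ * p.κ / (4 * H))

section basic

variable (hp : PP Nx V P₁ H q θ W p) (hH : 1 ≤ H)
include hp hH

lemma PP.κ_le : p.κ ≤ 1 / 2 := by
  have := hp.κ2
  have hH' : (1:ℝ) ≤ H := by exact_mod_cast hH
  have := hp.κ0
  nlinarith

lemma PP.δ_le : p.δ ≤ 1 / 8 := by
  have := hp.δ3
  have hH' : (1:ℝ) ≤ H := by exact_mod_cast hH
  have := hp.δ0
  have := hp.φ_le
  nlinarith

lemma PP.mn_pos : 0 < mn p H := by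
  have hH' : (1:ℝ) ≤ H := by exact_mod_cast hH
  have := hp.κ0
  have := hp.δ0
  have := hp.ε0
  unfold mn; positivity

lemma PP.qn_pos : 0 < qn p H := by
  have hH' : (1:ℝ) ≤ H := by exact_mod_cast hH
  have := hp.κ0
  have := hp.δ0
  have := hp.ε0
  unfold qn; positivity

lemma PP.qn_mn : qn p H ≤ mn p H * (p.δ / 2) := by
  have hH' : (1:ℝ) ≤ H := by exact_mod_cast hH
  have hκ := hp.κ0
  have hδ := hp.δ0
  have hε := hp.ε0
  have e : mn p H * (p.δ / 2) = 2 * qn p H := by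
    unfold mn qn; field_simp; ring
  have := hp.qn_pos hH
  linarith

lemma PP.qn_le_mn : qn p H ≤ mn p H := by
  have h1 := hp.qn_mn hH
  have h2 := hp.δ_le hH
  have h3 := hp.mn_pos hH
  nlinarith

/-- the new margin is much smaller than the old one -/
lemma PP.qn_le : qn p H ≤ p.φ * q * p.δ / 1024 := by
  have hH' : (1:ℝ) ≤ H := by exact_mod_cast hH
  have hκ := hp.κ0
  have hδ := hp.δ0
  have hε := hp.ε0
  have hκ1 := hp.κ_le hH
  have hδ1 := hp.δ_le hH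
  have hW : (16:ℝ) ≤ W := by
    have := hp.W1
    have h1 : (0:ℝ) ≤ Nx := Nat.cast_nonneg _
    have h2 : (0:ℝ) ≤ P₁ := Nat.cast_nonneg _
    linarith
  have h1 : p.ε ≤ p.φ * q / 1024 := by
    have h2 := hp.εW
    have h3 : p.ε * 16 ≤ p.ε * W := mul_le_mul_of_nonneg_left hW hε.le
    linarith
  have h4 : p.δ * p.κ / (16 * H) ≤ 1 := by
    rw [div_le_one (by positivity)]
    nlinarith
  have e : qn p H = p.ε * p.δ * (p.δ * p.κ / (16 * H)) := by unfold qn; ring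
  rw [e]
  calc p.ε * p.δ * (p.δ * p.κ / (16 * H)) ≤ p.ε * p.δ * 1 :=
        mul_le_mul_of_nonneg_left h4 (by positivity)
    _ ≤ (p.φ * q / 1024) * p.δ := by
        rw [mul_one]; exact mul_le_mul_of_nonneg_right h1 hδ.le
    _ = _ := by ring

end basic

section near

variable (hp : PP Nx V P₁ H q θ W p) (hI : Inn S₂ σ H)
include hp hI

lemma PP.quarter_mn : mn p H ≤ p.ε * (1 / 4) := by
  have hH' : (1:ℝ) ≤ H := by exact_mod_cast hI.H1
  have hκ := hp.κ0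
  have hδ := hp.δ0
  have hκ1 := hp.κ_le hI.H1
  have hδ1 := hp.δ_le hI.H1
  unfold mn
  apply mul_le_mul_of_nonneg_left _ hp.ε0.le
  rw [div_le_iff₀ (by positivity)]
  nlinarith

lemma PP.fl_mn : mn p H ≤ p.ε * (p.φ * p.lam / 4) := by
  have hH' : (1:ℝ) ≤ H := by exact_mod_cast hI.H1
  have hκ := hp.κ0
  have hδ := hp.δ0
  have hκ1 := hp.κ_le hI.H1
  have hδ1 := hp.δ1
  have hV : (0:ℝ) ≤ V := Nat.cast_nonneg _
  have hφl : 0 < p.φ * p.lam := mul_pos hp.φ0 hp.l0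
  unfold mn
  apply mul_le_mul_of_nonneg_left _ hp.ε0.le
  have h1 : p.δ ≤ p.φ * p.lam / 8 := by
    refine le_trans ?_ hδ1
    nlinarith
  have h2 : p.δ * p.κ / (4 * H) ≤ p.δ := by
    rw [div_le_iff₀ (by positivity)]; nlinarith
  linarith

lemma D_cancel (e : R₁) (U : ℝ) :
    (S₁.s (S₁.b e) - S₁.s (S₁.a e)) * (U / S₁.D e) = -U := by
  have hD := S₁.D_pos e
  have : S₁.s (S₁.b e) - S₁.s (S₁.a e) = - S₁.D e := by unfold Ev.D; ring
  rw [this]; field_simp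

/-- T-lines -/
lemma caseT (e : R₁) {i j : ℕ} (hj : j < V) (r : R₂) (c : A)
    (hc : c = S₁.a e ∨ c = S₁.b e) (i' : Fin Nx) (α : G) (β : Fin V) :
    Sg (FF S₁ S₂ σ Nx V p K e i j r (c, Sum.inl (i', (α, β)))) (mn p H)
      (belE S₁ S₂ σ Nx V K e i j r (c, Sum.inl (i', (α, β)))) := by
  classical
  have hab := S₁.ab_ne e
  have hX := hI.X r
  have hY := hI.Y r
  rcases hc with rfl | rfl
  · have h4 : FF S₁ S₂ σ Nx V p K e i j r (S₁.a e, Sum.inl (i', (α, β))) =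
        p.ε * (-p.φ * (((i':ℕ):ℝ) + p.lam * (((σ α * (i':ℕ) + (β:ℕ) : ℕ) : ℝ) + tau K α)) -
          vv p i j (S₂.X r) (S₂.Y r)) := by
      have := tie'' S₁ e
      simp only [FF, sl, ic, xx, yy, diff_off]
      rw [this]; ring
    rw [h4]
    have h5 := (hp.sTa (i := i) (i' := (i':ℕ)) (val := σ α * (i':ℕ) + (β:ℕ)) (τ := tau K α)
      hX hY hj (Nat.add_le_add (Nat.mul_le_mul (hI.hH α) i'.2.le) β.2.le) (α ∈ K)
      ⟨fun h => by unfold tau; rw [if_pos h], fun h => by unfold tau; rw [if_neg h]⟩).scale hp.ε0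
    refine (h5.mono (hp.fl_mn hI)).congr ?_
    simp [belE, hab]
  · have h4 : FF S₁ S₂ σ Nx V p K e i j r (S₁.b e, Sum.inl (i', (α, β))) =
        p.ε * (-((S₁.c0 e : ℝ) + 1/2 + (1 + p.φ) * xi p i j (S₂.X r) (S₂.Y r)) +
          -p.φ * (((i':ℕ):ℝ) + p.lam * (((σ α * (i':ℕ) + (β:ℕ) : ℕ) : ℝ) + tau K α)) -
          vv p i j (S₂.X r) (S₂.Y r)) := by
      have h1 := tie' S₁ e
      have h2 := D_cancel (S₁ := S₁) hp hI e (UU S₁ p e i j (S₂.X r) (S₂.Y r))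
      simp only [FF, sl, ic, xx, yy, diff_off]
      rw [h1, h2]; unfold UU; ring
    rw [h4]
    have h5 := hp.sTb (x := S₂.X r) (y := S₂.Y r) (i := i) (i' := (i':ℕ)) (j := j)
      (val := σ α * (i':ℕ) + (β:ℕ)) (c := S₁.c0 e) (τ := tau K α)
      hX hY hj (tau_bounds K α).1
    have h6 : Sg (p.ε * (-((S₁.c0 e : ℝ) + 1/2 + (1 + p.φ) * xi p i j (S₂.X r) (S₂.Y r)) +
          -p.φ * (((i':ℕ):ℝ) + p.lam * (((σ α * (i':ℕ) + (β:ℕ) : ℕ) : ℝ) + tau K α)) -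
          vv p i j (S₂.X r) (S₂.Y r))) (p.ε * (1/4)) True :=
      Sg.scale ⟨fun _ => h5, fun h => absurd trivial h⟩ hp.ε0
    refine (h6.mono (hp.quarter_mn hI)).congr ?_
    simp [belE]

/-- W-lines -/
lemma caseW (e : R₁) {i j : ℕ} (hi : i < Nx) (hj : j < V) (r : R₂) (c : A)
    (hc : c = S₁.a e ∨ c = S₁.b e) (u : Fin (Nx + 2 * P₁)) (z : G × Fin V) :
    Sg (FF S₁ S₂ σ Nx V p K e i j r (c, Sum.inr (Sum.inl (u, z)))) (mn p H)
      (belE S₁ S₂ σ Nx V K e i j r (c, Sum.inr (Sum.inl (u, z)))) := by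
  classical
  have hab := S₁.ab_ne e
  have hX := hI.X r
  have hY := hI.Y r
  obtain ⟨α, β⟩ := z
  rcases hc with rfl | rfl
  · have h4 : FF S₁ S₂ σ Nx V p K e i j r (S₁.a e, Sum.inr (Sum.inl (u, (α, β)))) =
        p.ε * ((1 + ((u:ℕ):ℝ)) - vv p i j (S₂.X r) (S₂.Y r)) := by
      have := tie'' S₁ e
      simp only [FF, sl, ic, xx, yy, diff_off]
      rw [this]; ring
    rw [h4]
    have h5 := hp.sWa (ω := 1 + ((u:ℕ):ℝ)) hX hY hi hj
      (by have : (0:ℝ) ≤ ((u:ℕ):ℝ) := Nat.cast_nonneg _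
          linarith)
    have h6 : Sg (p.ε * ((1 + ((u:ℕ):ℝ)) - vv p i j (S₂.X r) (S₂.Y r))) (p.ε * (1/4)) False :=
      Sg.scale ⟨fun h => absurd h not_false, fun _ => h5⟩ hp.ε0
    refine (h6.mono (hp.quarter_mn hI)).congr ?_
    simp [belE, hab]
  · have h4 : FF S₁ S₂ σ Nx V p K e i j r (S₁.b e, Sum.inr (Sum.inl (u, (α, β)))) =
        p.ε * (-((S₁.c0 e : ℝ) + 1/2 + (1 + p.φ) * xi p i j (S₂.X r) (S₂.Y r)) +
          (1 + ((u:ℕ):ℝ)) - vv p i j (S₂.X r) (S₂.Y r)) := by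
      have h1 := tie' S₁ e
      have h2 := D_cancel (S₁ := S₁) hp hI e (UU S₁ p e i j (S₂.X r) (S₂.Y r))
      simp only [FF, sl, ic, xx, yy, diff_off]
      rw [h1, h2]; unfold UU; ring
    rw [h4]
    have h5 := (hp.sWb (x := S₂.X r) (y := S₂.Y r) (i := i) (j := j) (c := S₁.c0 e)
      (u := (u:ℕ)) hX hY hj).scale hp.ε0
    refine (h5.mono (hp.quarter_mn hI)).congr ?_
    simp [belE]

/-- unused slots -/
lemma caseN (e : R₁) {i j : ℕ} (hi : i < Nx) (hj : j < V) (r : R₂) (c : A)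
    (hc : c = S₁.a e ∨ c = S₁.b e) (h : Fin P₁) (hev : S₁.evt c h = none) (z : G × Fin V) :
    Sg (FF S₁ S₂ σ Nx V p K e i j r (c, Sum.inr (Sum.inr (h, z)))) (mn p H)
      (belE S₁ S₂ σ Nx V K e i j r (c, Sum.inr (Sum.inr (h, z)))) := by
  classical
  have hX := hI.X r
  have hY := hI.Y r
  obtain ⟨α, β⟩ := z
  have hNx0 : (0:ℝ) ≤ Nx := Nat.cast_nonneg _
  have hP0 : (0:ℝ) ≤ P₁ := Nat.cast_nonneg _
  rcases hc with rfl | rfl
  · have h4 : FF S₁ S₂ σ Nx V p K e i j r (S₁.a e, Sum.inr (Sum.inr (h, (α, β)))) =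
        p.ε * (((Nx:ℝ) + 2 * P₁ + 4) - vv p i j (S₂.X r) (S₂.Y r)) := by
      have := tie'' S₁ e
      simp only [FF, sl, ic, xx, yy, hev, diff_off]
      rw [this]; ring
    rw [h4]
    have h5 := hp.sWa (ω := (Nx:ℝ) + 2 * P₁ + 4) hX hY hi hj (by linarith)
    have h6 : Sg (p.ε * (((Nx:ℝ) + 2 * P₁ + 4) - vv p i j (S₂.X r) (S₂.Y r))) (p.ε * (1/4))
        False := Sg.scale ⟨fun h => absurd h not_false, fun _ => h5⟩ hp.ε0
    refine (h6.mono (hp.quarter_mn hI)).congr ?_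
    simp [belE, hev]
  · have h4 : FF S₁ S₂ σ Nx V p K e i j r (S₁.b e, Sum.inr (Sum.inr (h, (α, β)))) =
        p.ε * (-((S₁.c0 e : ℝ) + 1/2 + (1 + p.φ) * xi p i j (S₂.X r) (S₂.Y r)) +
          ((Nx:ℝ) + 2 * P₁ + 4) - vv p i j (S₂.X r) (S₂.Y r)) := by
      have h1 := tie' S₁ e
      have h2 := D_cancel (S₁ := S₁) hp hI e (UU S₁ p e i j (S₂.X r) (S₂.Y r))
      simp only [FF, sl, ic, xx, yy, hev, diff_off]
      rw [h1, h2]; unfold UU; ring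
    rw [h4]
    have h5 := hp.sDb (x := S₂.X r) (y := S₂.Y r) (c := S₁.c0 e) hX hY hi hj (S₁.c0_le e)
    have h6 : Sg (p.ε * (-((S₁.c0 e : ℝ) + 1/2 + (1 + p.φ) * xi p i j (S₂.X r) (S₂.Y r)) +
          ((Nx:ℝ) + 2 * P₁ + 4) - vv p i j (S₂.X r) (S₂.Y r))) (p.ε * (1/4))
        False := Sg.scale ⟨fun h => absurd h not_false, fun _ => h5⟩ hp.ε0
    refine (h6.mono (hp.quarter_mn hI)).congr ?_
    simp [belE, hev]

/-- formula for the pool lines of the event -/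
lemma FF_pool (e : R₁) {i j : ℕ} (r : R₂) (c : A) (h : Fin P₁) (hev : S₁.evt c h = some e)
    (α : G) (β : Fin V) :
    FF S₁ S₂ σ Nx V p K e i j r (c, Sum.inr (Sum.inr (h, (α, β)))) =
      p.ε * (p.δ / (1 + p.lam * σ α) * (((σ α * i + (β:ℕ) : ℕ) : ℝ) - j + p.κ * Fv S₂ α r)) := by
  obtain ⟨hc, hh⟩ := S₁.evt_spec hev
  subst hc
  have hD := S₁.D_pos e
  have hl : (0:ℝ) < 1 + p.lam * σ α := by have := hp.l0; positivity
  have hl' : (1 + p.lam * (σ α:ℝ)) ≠ 0 := hl.ne'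
  have hφ0 := hp.φ0
  have hpm : ps p σ α * (1 + p.φ) = p.φ - p.δ * σ α / (1 + p.lam * σ α) := by
    unfold ps; field_simp
  simp only [FF, sl, ic, xx, yy, hev, diff_med]
  rw [tie'', sub_self, mul_zero, mul_zero, sub_self, zero_add]
  congr 1
  have h1 : (S₁.s (S₁.a e) - ps p σ α * S₁.D e - S₁.s (S₁.a e)) *
      (UU S₁ p e i j (S₂.X r) (S₂.Y r) / S₁.D e) =
      - ps p σ α * UU S₁ p e i j (S₂.X r) (S₂.Y r) := by
    field_simp; ring
  rw [h1]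
  have h2 : - ps p σ α * UU S₁ p e i j (S₂.X r) (S₂.Y r) +
      ps p σ α * (↑(S₁.c0 e) + 1 / 2) =
      - (ps p σ α * (1 + p.φ)) * xi p i j (S₂.X r) (S₂.Y r) := by
    unfold UU; ring
  rw [h2, hpm]
  unfold vv xi Fv
  rw [hI.hσ]
  push_cast
  have e1 : ∀ z : ℝ, z = z / (1 + p.lam * (σ α:ℝ)) * (1 + p.lam * (σ α:ℝ)) := by
    intro z; field_simp
  rw [e1 (p.δ * ((j:ℝ) + p.κ * S₂.Y r))]
  ring

lemma caseP (e : R₁) {i j : ℕ} (r : R₂) (c : A) (h : Fin P₁) (hev : S₁.evt c h = some e)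
    (α : G) (β : Fin V)
    (hn : ¬ (σ α * i + (β:ℕ) = j ∧ (α = S₂.a r ∨ α = S₂.b r))) :
    Sg (FF S₁ S₂ σ Nx V p K e i j r (c, Sum.inr (Sum.inr (h, (α, β))))) (mn p H)
      (belE S₁ S₂ σ Nx V K e i j r (c, Sum.inr (Sum.inr (h, (α, β))))) := by
  rw [FF_pool hp hI e r c h hev α β]
  obtain ⟨hc, hh⟩ := S₁.evt_spec hev
  have h5 := (hp.sS hI.H1 (F := Fv S₂ α r) (j := j) (val := σ α * i + (β:ℕ)) (s := σ α)
    (hI.hH α) (hI.F r α) (fun hv => by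
      rw [not_and_or] at hn
      rcases hn with hn | hn
      · exact absurd hv hn
      · push Not at hn
        exact hI.g r α hn.1 hn.2)).scale hp.ε0
  refine h5.congr ?_
  have h6 : Fv S₂ α r < 0 ↔ S₂.s α * S₂.X r + S₂.t α < S₂.Y r := by unfold Fv; exact sub_neg
  rw [h6]
  simp [belE, hev, hc]

end near

end

end NearPoly
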