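import Pool.Agent.H141R2.NP5

/-!
# Main sign and margin theorem
-/

namespace NearPoly

open KLev Finset

section

variable {A R₁ G R₂ : Type} [Fintype A] [Fintype G] {k₁ P₁ k₂ P₂ : ℕ}
variable {S₁ : Ev A R₁ k₁ P₁} {S₂ : Ev G R₂ k₂ P₂} {σ : G → ℕ} {H Nx V : ℕ}
variable {q θ W L : ℝ} {p : Pm} {K : Finset G}

/-- slope of the first line of an event of the composed arrangement -/
noncomputable def sA (S₁ : Ev A R₁ k₁ P₁) (S₂ : Ev G R₂ k₂ P₂) (σ : G → ℕ) (p : Pm)
    (e : R₁) (r : R₂) : ℝ := S₁.s (S₁.a e) - ps p σ (S₂.a r) * S₁.D e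

/-- numerical estimate in case A -/
lemma numA {φ δ q θ F FFv De Df dX d ddr ψ ψ' qn s' : ℝ} (hφ0 : 0 < φ) (hφ1 : φ ≤ 1 / 16)
    (hδ0 : 0 < δ) (hq : 0 < q) (hθ : 0 < θ) (hφθ : φ ≤ θ / 16)
    (hDe : 0 < De) (hDf : 0 ≤ Df) (hF : q ≤ |F|) (h2 : q * |d| ≤ |F| * De)
    (hw : q * Df ≤ De * |dX| * Df) (hth : θ * (Df * |dX|) ≤ |F|)
    (hψ0 : 0 ≤ ψ) (hψ : ψ ≤ φ) (hψ'0 : 0 ≤ ψ') (hψ' : ψ' ≤ φ)
    (hFF : 3 / 4 * |F| ≤ |FFv|) (hdd : δ / 2 ≤ ddr) (hqn0 : 0 < qn)
    (hqn : qn ≤ φ * q * δ / 1024) (hs : s' = d - ψ * Df + ψ' * De) :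
    qn * |s'| ≤ |FFv| * (De * ddr) := by
  have hF0 : 0 ≤ |F| := abs_nonneg F
  have h3 : |s'| ≤ |d| + φ * Df + φ * De := by
    rw [hs]
    have a1 := abs_add_le (d - ψ * Df) (ψ' * De)
    have a2 := abs_sub d (ψ * Df)
    have a3 : |ψ * Df| ≤ φ * Df := by
      rw [abs_of_nonneg (mul_nonneg hψ0 hDf)]; exact mul_le_mul_of_nonneg_right hψ hDf
    have a4 : |ψ' * De| ≤ φ * De := by
      rw [abs_of_nonneg (mul_nonneg hψ'0 hDe.le)]; exact mul_le_mul_of_nonneg_right hψ' hDe.le
    linarith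
  have h4 : q * (φ * Df) ≤ |F| * De / 16 := by
    have b1 : θ * (q * Df) ≤ θ * (De * |dX| * Df) := mul_le_mul_of_nonneg_left hw hθ.le
    have b2 : De * (θ * (Df * |dX|)) ≤ De * |F| := mul_le_mul_of_nonneg_left hth hDe.le
    have b3 : q * (φ * Df) ≤ q * (θ / 16 * Df) :=
      mul_le_mul_of_nonneg_left (mul_le_mul_of_nonneg_right hφθ hDf) hq.le
    nlinarith
  have h5 : q * (φ * De) ≤ |F| * De / 16 := by
    have b1 : q * (φ * De) ≤ |F| * (φ * De) := mul_le_mul_of_nonneg_right hF (by positivity)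
    have b2 : |F| * (φ * De) ≤ |F| * (1 / 16 * De) :=
      mul_le_mul_of_nonneg_left (mul_le_mul_of_nonneg_right hφ1 hDe.le) hF0
    linarith
  have h6 : q * |s'| ≤ 2 * (|F| * De) := by
    have b1 : q * |s'| ≤ q * (|d| + φ * Df + φ * De) := mul_le_mul_of_nonneg_left h3 hq.le
    have b2 : 0 ≤ |F| * De := by positivity
    linarith
  calc qn * |s'| ≤ (φ * q * δ / 1024) * |s'| := mul_le_mul_of_nonneg_right hqn (abs_nonneg _)
    _ = (φ * δ / 1024) * (q * |s'|) := by ring
    _ ≤ (φ * δ / 1024) * (2 * (|F| * De)) := mul_le_mul_of_nonneg_left h6 (by positivity)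
    _ ≤ (1 * δ / 1024) * (2 * (|F| * De)) := by
        apply mul_le_mul_of_nonneg_right _ (by positivity)
        have : φ * δ ≤ 1 * δ := mul_le_mul_of_nonneg_right (by linarith) hδ0.le
        linarith
    _ ≤ (3 / 4 * |F|) * (De * (δ / 2)) := by
        have : 0 ≤ |F| * De * δ := by positivity
        nlinarith
    _ ≤ |FFv| * (De * ddr) := by
        apply mul_le_mul hFF _ (by positivity) (abs_nonneg _)
        exact mul_le_mul_of_nonneg_left hdd hDe.le

/-- numerical estimate in case B -/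
lemma numB {φ δ q FFv De Df dX ddr ψ qn s' M : ℝ} (hφ0 : 0 < φ) (hφ1 : φ ≤ 1 / 16)
    (hδ0 : 0 < δ) (hq : 0 < q)
    (hDe : 0 < De) (hDf : 0 < Df)
    (hw : q ≤ De * |dX|) (hw' : q ≤ Df * |dX|)
    (hψ0 : φ / 2 ≤ ψ) (hM : M = -(ψ * (Df * dX)))
    (hFF : 3 / 4 * |M| ≤ |FFv|) (hdd : δ / 2 ≤ ddr) (hqn0 : 0 < qn)
    (hqn : qn ≤ φ * q * δ / 1024) (hs : |s'| ≤ 2 * De + φ * Df) :
    qn * |s'| ≤ |FFv| * (De * ddr) := by
  have hψ : 0 < ψ := by linarith
  have hM' : |M| = ψ * (Df * |dX|) := by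
    rw [hM, abs_neg, abs_mul, abs_mul, abs_of_pos hψ, abs_of_pos hDf]
  have h1 : φ / 2 * (q * De) ≤ |M| * De := by
    rw [hM']
    have : q * De ≤ Df * |dX| * De := mul_le_mul_of_nonneg_right hw' hDe.le
    calc φ / 2 * (q * De) ≤ ψ * (Df * |dX| * De) := mul_le_mul hψ0 this (by positivity) hψ.le
      _ = _ := by ring
  have h2 : φ / 2 * (q * Df) ≤ |M| * De := by
    rw [hM']
    have : q * Df ≤ De * |dX| * Df := mul_le_mul_of_nonneg_right hw hDf.le
    calc φ / 2 * (q * Df) ≤ ψ * (De * |dX| * Df) := mul_le_mul hψ0 this (by positivity) hψ.le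
      _ = _ := by ring
  have h3 : 0 ≤ |M| * De := by positivity
  have h4 : φ * q * |s'| ≤ 5 * (|M| * De) := by
    have b1 : φ * q * |s'| ≤ φ * q * (2 * De + φ * Df) :=
      mul_le_mul_of_nonneg_left hs (by positivity)
    have b2 : φ * (φ / 2 * (q * Df)) ≤ 1 / 16 * (|M| * De) :=
      mul_le_mul hφ1 h2 (by positivity) (by norm_num)
    nlinarith
  calc qn * |s'| ≤ (φ * q * δ / 1024) * |s'| := mul_le_mul_of_nonneg_right hqn (abs_nonneg _)
    _ = (δ / 1024) * (φ * q * |s'|) := by ring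
    _ ≤ (δ / 1024) * (5 * (|M| * De)) := mul_le_mul_of_nonneg_left h4 (by positivity)
    _ ≤ (3 / 4 * |M|) * (De * (δ / 2)) := by
        have : 0 ≤ |M| * De * δ := by positivity
        nlinarith
    _ ≤ |FFv| * (De * ddr) := by
        apply mul_le_mul hFF _ (by positivity) (abs_nonneg _)
        exact mul_le_mul_of_nonneg_left hdd hDe.le

variable (hp : PP Nx V P₁ H q θ W p) (hQ : Ql S₁ q θ L) (hI : Inn S₂ σ H)
include hp hQ hI

/-- near lines -/
lemma mainC (e : R₁) (r : R₂) {B s' : ℝ} {Q : Prop} (hB : Sg B (mn p H) Q)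
    (hs : |s' - sA S₁ S₂ σ p e r| ≤ S₁.D e) :
    (B < 0 ↔ Q) ∧ qn p H ≤ |B| ∧
      qn p H * |s' - sA S₁ S₂ σ p e r| ≤ |B| * (S₁.D e * dd S₂ σ p r) := by
  have hm := hp.mn_pos hI.H1
  have hD := S₁.D_pos e
  have hdd := (hp.dd_bd hI r).1
  have hδ := hp.δ0
  refine ⟨hB.iff hm, (hp.qn_le_mn hI.H1).trans hB.abs, ?_⟩
  calc qn p H * |s' - sA S₁ S₂ σ p e r| ≤ (mn p H * (p.δ / 2)) * S₁.D e :=
        mul_le_mul (hp.qn_mn hI.H1) hs (abs_nonneg _) (by positivity)
    _ = mn p H * (S₁.D e * (p.δ / 2)) := by ring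
    _ ≤ |B| * (S₁.D e * dd S₂ σ p r) := by
        apply mul_le_mul hB.abs _ (by positivity) (abs_nonneg _)
        exact mul_le_mul_of_nonneg_left hdd hD.le

/-- the slope of a near line is close -/
lemma near_slope (e : R₁) (r : R₂) (c : A) (hc : c = S₁.a e ∨ c = S₁.b e) :
    |S₁.s c - sA S₁ S₂ σ p e r| ≤ S₁.D e := by
  have hD := S₁.D_pos e
  obtain ⟨h1, h2⟩ := hp.ps_bd (σ := σ) hI.H1 (hI.hH (S₂.a r))
  have hφ := hp.φ_le
  have hφ0 := hp.φ0
  have h3 : 0 ≤ ps p σ (S₂.a r) * S₁.D e := mul_nonneg (by linarith) hD.le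
  have h4 : ps p σ (S₂.a r) * S₁.D e ≤ 1 * S₁.D e := mul_le_mul_of_nonneg_right (by linarith) hD.le
  unfold sA
  rcases hc with rfl | rfl
  · rw [abs_le]; constructor <;> linarith
  · have e1 : S₁.s (S₁.b e) = S₁.s (S₁.a e) - S₁.D e := by unfold Ev.D; ring
    rw [e1, abs_le]; constructor <;> linarith

theorem main (e : R₁) {i j : ℕ} (hi : i < Nx) (hj : j < V) (r : R₂)
    (l : Idx A G Nx P₁ V)
    (hn : ∀ (h : Fin P₁) (α : G) (β : Fin V), l = (l.1, Sum.inr (Sum.inr (h, (α, β)))) →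
      S₁.evt l.1 h = some e → ¬ (σ α * i + (β:ℕ) = j ∧ (α = S₂.a r ∨ α = S₂.b r))) :
    (FF S₁ S₂ σ Nx V p K e i j r l < 0 ↔ belE S₁ S₂ σ Nx V K e i j r l) ∧
      qn p H ≤ |FF S₁ S₂ σ Nx V p K e i j r l| ∧
      qn p H * |sl S₁ σ Nx V p l - sA S₁ S₂ σ p e r| ≤
        |FF S₁ S₂ σ Nx V p K e i j r l| * (S₁.D e * dd S₂ σ p r) := by
  classical
  have hφ := hp.φ_le
  have hφ0 := hp.φ0
  have hq := hp.q0
  have hδ0 := hp.δ0
  have hθ0 := hp.θ0
  have hD := S₁.D_pos e
  have hdd := (hp.dd_bd hI r).1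
  obtain ⟨hψ1, hψ2⟩ := hp.ps_bd (σ := σ) hI.H1 (hI.hH (S₂.a r))
  have hqn0 := hp.qn_pos hI.H1
  have hqn := hp.qn_le hI.H1
  by_cases hc : l.1 = S₁.a e ∨ l.1 = S₁.b e
  · obtain ⟨c, l⟩ := l
    simp only at hc hn
    rcases l with ⟨i', α, β⟩ | ⟨u, z⟩ | ⟨h, α, β⟩
    · exact mainC hp hQ hI e r (caseT hp hI e hj r c hc i' α β) (near_slope hp hQ hI e r c hc)
    · exact mainC hp hQ hI e r (caseW hp hI e hi hj r c hc u z) (near_slope hp hQ hI e r c hc)
    · rcases hev : S₁.evt c h with _ | f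
      · have h1 := near_slope hp hQ hI e r c hc
        have h2 : sl S₁ σ Nx V p (c, Sum.inr (Sum.inr (h, (α, β)))) = S₁.s c := by
          simp only [sl, hev]
        rw [h2]
        exact mainC hp hQ hI e r (caseN hp hI e hi hj r c hc h hev (α, β)) h1
      · have h2 : sl S₁ σ Nx V p (c, Sum.inr (Sum.inr (h, (α, β)))) =
            S₁.s c - ps p σ α * S₁.D f := by
          simp only [sl, hev]
        obtain ⟨hα1, hα2⟩ := hp.ps_bd (σ := σ) hI.H1 (hI.hH α)
        by_cases hfe : f = e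
        · subst hfe
          obtain ⟨hcf, hh⟩ := S₁.evt_spec hev
          refine mainC hp hQ hI f r (caseP hp hI f r c h hev α β (hn h α β rfl hev)) ?_
          rw [h2, ← hcf]
          unfold sA
          have e1 : S₁.s (S₁.a f) - ps p σ α * S₁.D f -
              (S₁.s (S₁.a f) - ps p σ (S₂.a r) * S₁.D f) =
              (ps p σ (S₂.a r) - ps p σ α) * S₁.D f := by ring
          rw [e1, abs_mul, abs_of_pos hD]
          have : |ps p σ (S₂.a r) - ps p σ α| ≤ 1 := by
            rw [abs_le]; constructor <;> linarith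
          nlinarith
        · have hB := caseB (K := K) hp hQ hI e f hfe hi hj r c h hev hc α β
          set M := -(ps p σ α * (S₁.D f * (S₁.X e - S₁.X f))) with hM
          have hDf := S₁.D_pos f
          have hw := hQ.w e f (Ne.symm hfe)
          have hw' := hQ.w f e hfe
          rw [abs_sub_comm (S₁.X f)] at hw'
          have hψα : 0 < ps p σ α := by linarith
          have hXne : S₁.X e - S₁.X f ≠ 0 := by
            intro h0
            rw [h0, abs_zero, mul_zero] at hw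
            linarith
          have hM0 : M ≠ 0 := by
            rw [hM]
            exact neg_ne_zero.mpr (mul_ne_zero hψα.ne' (mul_ne_zero hDf.ne' hXne))
          have hsg := Sg.of_near hM0 hB
          have hMpos : 0 < |M| := abs_pos.mpr hM0
          have hMlow : p.φ / 2 * q ≤ |M| := by

            rw [hM, abs_neg, abs_mul, abs_mul, abs_of_pos hψα, abs_of_pos hDf]
            exact mul_le_mul hα1 hw' hq.le hψα.le
          refine ⟨?_, ?_, ?_⟩
          · rw [hsg.iff (by positivity)]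
            have h5 : M < 0 ↔ S₁.X f < S₁.X e := by
              rw [hM, neg_lt_zero]
              constructor
              · intro h6
                by_contra h7
                push Not at h7
                have : ps p σ α * (S₁.D f * (S₁.X e - S₁.X f)) ≤ 0 :=
                  mul_nonpos_of_nonneg_of_nonpos hψα.le
                    (mul_nonpos_of_nonneg_of_nonpos hDf.le (by linarith))
                linarith
              · intro h6
                exact mul_pos hψα (mul_pos hDf (by linarith))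
            rw [h5]
            simp only [belE, hev, hfe, false_and, false_or]
            constructor
            · intro h6
              exact Or.inl ⟨hfe, hc, h6⟩
            · rintro (⟨-, -, h6⟩ | ⟨h6, h7, -⟩)
              · exact h6
              · rcases hc with hc | hc
                · exact absurd hc h6
                · exact absurd hc h7
          · refine le_trans ?_ (le_trans ?_ hsg.abs) (b := 3 / 4 * |M|)
            ·
              have hδ1 := hp.δ_le hI.H1
              have h9 : p.φ * q * p.δ ≤ p.φ * q * 1 :=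
                mul_le_mul_of_nonneg_left (by linarith) (by positivity)
              have h10 : 0 < p.φ * q := by positivity
              linarith
            · exact le_refl _
          · refine numB hφ0 hφ hδ0 hq hD hDf hw hw' hα1 hM hsg.abs hdd hqn0 hqn ?_
            rw [h2]
            have h5 := near_slope hp hQ hI e r c hc
            have h6 : |ps p σ α * S₁.D f| ≤ p.φ * S₁.D f := by
              rw [abs_of_pos (mul_pos hψα hDf)]
              exact mul_le_mul_of_nonneg_right hα2 hDf.le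
            have h7 := abs_sub (S₁.s c - sA S₁ S₂ σ p e r) (ps p σ α * S₁.D f)
            have h8 : S₁.s c - ps p σ α * S₁.D f - sA S₁ S₂ σ p e r =
              S₁.s c - sA S₁ S₂ σ p e r - ps p σ α * S₁.D f := by ring
            rw [h8]
            linarith
  · push Not at hc
    obtain ⟨ha, hb⟩ := hc
    have hA := caseA (K := K) hp hQ hI e hi hj r l ha hb
    have hg1 := hQ.g1 e l.1 ha hb
    have hg2 := hQ.g2 e l.1 ha hb
    have hF0 : Fv S₁ l.1 e ≠ 0 := by
      intro h0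
      rw [h0, abs_zero] at hg1
      linarith
    have hsg := Sg.of_near hF0 hA
    have hFpos : 0 < |Fv S₁ l.1 e| := abs_pos.mpr hF0
    refine ⟨?_, ?_, ?_⟩
    · rw [hsg.iff (by positivity)]
      have h5 : Fv S₁ l.1 e < 0 ↔ S₁.s l.1 * S₁.X e + S₁.t l.1 < S₁.Y e := by
        unfold Fv; exact sub_neg
      rw [h5]
      obtain ⟨c, l⟩ := l
      simp only at ha hb ⊢
      rcases l with ⟨i', α, β⟩ | ⟨u, z⟩ | ⟨h, α, β⟩
      · simp [belE, ha, hb]
      · simp [belE, ha, hb]
      · rcases hev : S₁.evt c h with _ | f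
        · simp [belE, hev, ha, hb]
        · obtain ⟨hcf, hh⟩ := S₁.evt_spec hev
          have hfe : f ≠ e := by rintro rfl; exact ha hcf.symm
          simp [belE, hev, ha, hb, hfe]
    · refine le_trans ?_ hsg.abs
      have hδ1 := hp.δ_le hI.H1
      have h9 : p.φ * q * p.δ ≤ 1 * q * 1 := by
        apply mul_le_mul _ (by linarith) hδ0.le (by positivity)
        exact mul_le_mul_of_nonneg_right (by linarith) hq.le
      linarith
    · obtain ⟨c, l⟩ := l
      simp only at ha hb hg1 hg2 hsg hA hF0 hFpos ⊢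
      have hplain : ∀ B : ℝ, 3 / 4 * |Fv S₁ c e| ≤ |B| →
          qn p H * |S₁.s c - sA S₁ S₂ σ p e r| ≤ |B| * (S₁.D e * dd S₂ σ p r) := by
        intro B hB
        refine numA (Df := 0) (dX := 0) (ψ := 0) hφ0 hφ hδ0 hq hθ0 hp.φθ hD le_rfl hg1 hg2
          (by simp) (by simp) le_rfl hφ0.le (by linarith : 0 ≤ ps p σ (S₂.a r)) hψ2 hB hdd hqn0
          hqn ?_
        unfold sA; ring
      rcases l with ⟨i', α, β⟩ | ⟨u, z⟩ | ⟨h, α, β⟩
      · exact hplain _ hsg.abs
      · exact hplain _ hsg.abs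
      · rcases hev : S₁.evt c h with _ | f
        · have h2 : sl S₁ σ Nx V p (c, Sum.inr (Sum.inr (h, (α, β)))) = S₁.s c := by
            simp only [sl, hev]
          rw [h2]
          exact hplain _ hsg.abs
        · have h2 : sl S₁ σ Nx V p (c, Sum.inr (Sum.inr (h, (α, β)))) =
              S₁.s c - ps p σ α * S₁.D f := by
            simp only [sl, hev]
          obtain ⟨hcf, hh⟩ := S₁.evt_spec hev
          have hfe : e ≠ f := by rintro rfl; exact ha hcf.symm
          have hDf := S₁.D_pos f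
          obtain ⟨hα1, hα2⟩ := hp.ps_bd (σ := σ) hI.H1 (hI.hH α)
          have hth := hQ.th e f (by rw [hcf]; exact ha) (by rw [hcf]; exact hb)
          rw [hcf] at hth
          have hw := hQ.w e f hfe
          rw [h2]
          refine numA (Df := S₁.D f) (dX := S₁.X e - S₁.X f) (ψ := ps p σ α)
            hφ0 hφ hδ0 hq hθ0 hp.φθ hD hDf.le hg1 hg2
            (mul_le_mul_of_nonneg_right hw hDf.le) hth (by linarith) hα2
            (by linarith : 0 ≤ ps p σ (S₂.a r)) hψ2 hsg.abs hdd hqn0 hqn ?_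
          unfold sA; ring

end

end NearPoly
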