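import Pool.Agent.H141R2.NP1
import Pool.Agent.KLev.Growth

/-!
# Interface: outer and inner blocks
-/

namespace NearPoly

open KLev Finset

/-- outer block: `N` lines with real slopes in `[0,1]`, margins `1/Q`, `1/T`, size `L` -/
def HasO (N P Q T L : ℕ) (β : ℝ) : Prop :=
  1 ≤ N ∧ 1 ≤ P ∧ 1 ≤ Q ∧ 1 ≤ T ∧ 1 ≤ L ∧ ∃ E : ℕ, 1 ≤ E ∧ β * N * 5253 ≤ 2500 * E ∧
    ∃ (A R : Type) (_ : Fintype A) (_ : Fintype R) (k : ℕ) (S : Ev A R k P),
      Ql S (1 / Q) (1 / T) L ∧ Fintype.card A = N ∧ Fintype.card R = E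

/-- inner block: natural slopes, all quantities between `1/H` and `H` -/
def HasI (N P H : ℕ) (β : ℝ) : Prop :=
  1 ≤ N ∧ 1 ≤ P ∧ 1 ≤ H ∧ ∃ E : ℕ, 1 ≤ E ∧ β * N * 5253 ≤ 2500 * E ∧
    ∃ (A R : Type) (_ : Fintype A) (_ : Fintype R) (k : ℕ) (S : Ev A R k P) (σ : A → ℕ),
      Inn S σ H ∧ Fintype.card A = N ∧ Fintype.card R = E

/-! The number of lines below an event is less than the number of lines. -/
lemma level_lt {A R : Type} [Fintype A] {k P : ℕ} (S : Ev A R k P) (r : R) :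
    k + 1 ≤ Fintype.card A := by
  classical
  have h : (Finset.univ.filter
      (fun c => S.s c * S.X r + S.t c < S.s (S.a r) * S.X r + S.t (S.a r))).card = k := by
    rw [Finset.card_filter]
    exact Eq.trans (Finset.sum_congr rfl fun c _ => by congr) (S.hcard r)
  have h2 : (Finset.univ.filter
      (fun c => S.s c * S.X r + S.t c < S.s (S.a r) * S.X r + S.t (S.a r))) ⊆
      Finset.univ.erase (S.a r) := by
    intro c hc
    simp only [Finset.mem_filter, Finset.mem_univ, true_and] at hc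
    rw [Finset.mem_erase]
    refine ⟨?_, Finset.mem_univ _⟩
    rintro rfl
    exact lt_irrefl _ hc
  have h3 := Finset.card_le_card h2
  rw [h, Finset.card_erase_of_mem (Finset.mem_univ _), Finset.card_univ] at h3
  have : 0 < Fintype.card A := Fintype.card_pos_iff.mpr ⟨S.a r⟩
  omega

/- STATEMENTS (to be proved in other files)

helper141:
theorem HasO.step {N P Q T L g P₂ H : ℕ} {β b : ℝ} (h : HasO N P Q T L β) (h2 : HasI g P₂ H b)
    (hβ : 0 ≤ β) (hb : 0 ≤ b) :
    HasO (N * (g * H * 262650) * P ^ 2) (50 * P * P₂)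
      (Q * T ^ 3 * (100000 * H * P) ^ 15) ((100000 * H * P) ^ 5) (4 * L) (β * b)

theorem HasO.start : HasO 2 1 1 1 1 (2500 / 10506)

helper131:
theorem HasO.round {N P Q T L : ℕ} {β : ℝ} (h : HasO N P Q T L β) : HasI N P (32 * L * Q ^ 2) β

theorem HasI.base : ∃ H₀, HasI 24 4 H₀ β₀

theorem HasI.hasR {N P H : ℕ} {β : ℝ} (h : HasI N P H β) : HasR N P β
theorem HasI.hasS {N P H : ℕ} {β : ℝ} (h : HasI N P H β) : HasS N P H β

iteration, final asymptotics, result files.
-/

end NearPoly
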