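import Pool.Agent.H141R2.NP6
import Pool.Agent.H141R2.NPI

/-!
# Separation of the events of the composed arrangement
-/

namespace NearPoly

open KLev Finset

lemma c4 {De Df dX X X' q φ U U' W ε : ℝ} (hq : 0 < q) (hDe : 0 < De) (hDf : 0 < Df)
    (hdX : dX = X - X')
    (hw : q ≤ De * |dX|) (hw' : q ≤ Df * |dX|) (hφ0 : 0 < φ) (hφ1 : φ ≤ 1 / 16)
    (hU : |U| ≤ W / 2) (hU' : |U'| ≤ W / 2) (hε : 0 < ε) (hW : ε * W ≤ φ * q / 64) :
    |dX| / 2 ≤ |X + ε * (U / De) - (X' + ε * (U' / Df))| ∧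
      |X + ε * (U / De) - (X' + ε * (U' / Df))| ≤ 2 * |dX| := by
  have hW0 : 0 ≤ W := by linarith [abs_nonneg U]
  have key : ∀ (D U : ℝ), 0 < D → q ≤ D * |dX| → |U| ≤ W / 2 → |ε * (U / D)| ≤ |dX| / 8 := by
    intro D U hD hw hU
    rw [abs_mul, abs_of_pos hε, abs_div, abs_of_pos hD]
    have h1 : ε * |U| ≤ q / 16 := by
      have : ε * |U| ≤ ε * (W / 2) := mul_le_mul_of_nonneg_left hU hε.le
      nlinarith
    rw [mul_div_assoc', div_le_iff₀ hD]
    nlinarith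
  have h1 := abs_le.mp (key De U hDe hw hU)
  have h2 := abs_le.mp (key Df U' hDf hw' hU')
  have e : X + ε * (U / De) - (X' + ε * (U' / Df)) = dX + (ε * (U / De) - ε * (U' / Df)) := by
    rw [hdX]; ring
  rw [e]
  have h3 : |ε * (U / De) - ε * (U' / Df)| ≤ |dX| / 4 := by
    rw [abs_le]; constructor <;> linarith [h1.1, h1.2, h2.1, h2.2]
  have h4 := abs_sub_abs_le_abs_sub dX (-(ε * (U / De) - ε * (U' / Df)))
  have h5 := abs_add_le dX (ε * (U / De) - ε * (U' / Df))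
  rw [abs_neg, sub_neg_eq_add] at h4
  have := abs_nonneg dX
  constructor <;> linarith

section

variable {A R₁ G R₂ : Type} [Fintype A] [Fintype G] {k₁ P₁ k₂ P₂ : ℕ}
variable {S₁ : Ev A R₁ k₁ P₁} {S₂ : Ev G R₂ k₂ P₂} {σ : G → ℕ} {H Nx V : ℕ}
variable {q θ W L : ℝ} {p : Pm} {K : Finset G}

variable (hp : PP Nx V P₁ H q θ W p) (hI : Inn S₂ σ H)
include hp hI

lemma PP.κ_half_lam : p.κ / (2 * H) ≤ p.lam / 2 ∧ p.κ / (2 * H) ≤ 1 / 2 := by
  have hH : (1:ℝ) ≤ H := by exact_mod_cast hI.H1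
  have h1 := hp.κ1
  have h2 := hp.κ0
  have h3 := hp.lam_le
  have h4 := hp.l0
  have h5 : p.κ / (2 * H) ≤ p.κ := div_le_self h2.le (by linarith)
  have h6 : p.κ * 2 ≤ p.κ * (2 * H) := mul_le_mul_of_nonneg_left (by linarith) h2.le
  constructor <;> linarith

lemma PP.xi_sep {i i' j j' : ℕ} (hj : j < V) (hj' : j' < V) {r r' : R₂}
    (hne : i ≠ i' ∨ j ≠ j' ∨ r ≠ r') :
    p.κ / (2 * H) ≤ |xi p i j (S₂.X r) (S₂.Y r) - xi p i' j' (S₂.X r') (S₂.Y r')| := by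
  have hH : (1:ℝ) ≤ H := by exact_mod_cast hI.H1
  obtain ⟨hk1, hk2⟩ := hp.κ_half_lam hI
  have hl := hp.l0
  have key : ∀ {i i' j j' : ℕ} (_ : j < V) (_ : j' < V) (r r' : R₂),
      (i < i' ∨ (i = i' ∧ j < j')) →
      p.κ / (2 * H) ≤ xi p i' j' (S₂.X r') (S₂.Y r') - xi p i j (S₂.X r) (S₂.Y r) := by
    intro i i' j j' hj hj' r r' h
    obtain ⟨h1, h2, h3⟩ := hp.xi_bd (hI.X r) (hI.Y r) i hj
    obtain ⟨h1', h2', h3'⟩ := hp.xi_bd (hI.X r') (hI.Y r') i' hj'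
    have hj0 : 0 ≤ p.lam * j' := by positivity
    rcases h with h | ⟨h, h'⟩
    · have hc : (i:ℝ) + 1 ≤ i' := by exact_mod_cast h
      linarith [hp.lam_le]
    · subst h
      have hc : (j:ℝ) + 1 ≤ j' := by exact_mod_cast h'
      have : p.lam * (j + 1) ≤ p.lam * j' := mul_le_mul_of_nonneg_left hc hl.le
      linarith
  rcases lt_trichotomy i i' with h | h | h
  · rw [abs_sub_comm]; exact (key hj hj' r r' (Or.inl h)).trans (le_abs_self _)
  · rcases lt_trichotomy j j' with h2 | h2 | h2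
    · rw [abs_sub_comm]; exact (key hj hj' r r' (Or.inr ⟨h, h2⟩)).trans (le_abs_self _)
    · subst h; subst h2
      have hr : r ≠ r' := by
        rcases hne with h | h | h
        · exact absurd rfl h
        · exact absurd rfl h
        · exact h
      have h3 := hI.sep r r' hr
      have h4 : |S₂.Y r - S₂.Y r'| ≤ 2 * H := by
        refine (abs_sub _ _).trans ?_
        linarith [hI.Y r, hI.Y r']
      have e : xi p i j (S₂.X r) (S₂.Y r) - xi p i j (S₂.X r') (S₂.Y r') =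
          p.κ * ((S₂.X r - S₂.X r') + p.lam * (S₂.Y r - S₂.Y r')) := by
        unfold xi; ring
      rw [e, abs_mul, abs_of_pos hp.κ0, div_eq_mul_inv]
      apply mul_le_mul_of_nonneg_left _ hp.κ0.le
      have h5 : |p.lam * (S₂.Y r - S₂.Y r')| ≤ (2 * (H:ℝ))⁻¹ := by
        rw [abs_mul, abs_of_pos hl, inv_eq_one_div, le_div_iff₀ (by positivity)]
        calc p.lam * |S₂.Y r - S₂.Y r'| * (2 * H) ≤ p.lam * (2 * H) * (2 * H) := by
              apply mul_le_mul_of_nonneg_right _ (by positivity)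
              exact mul_le_mul_of_nonneg_left h4 hl.le
          _ = p.lam * (4 * H * H) := by ring
          _ ≤ 1 := hp.l2
      have h6 : (H:ℝ)⁻¹ ≤ |S₂.X r - S₂.X r'| := by
        rw [inv_eq_one_div, div_le_iff₀ (by linarith)]; linarith
      have h7 := abs_sub_abs_le_abs_sub (S₂.X r - S₂.X r') (-(p.lam * (S₂.Y r - S₂.Y r')))
      rw [abs_neg, sub_neg_eq_add] at h7
      have h8 : (2 * (H:ℝ))⁻¹ = (H:ℝ)⁻¹ / 2 := by
        rw [mul_inv]; ring
      linarith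
    · exact (key hj' hj r' r (Or.inr ⟨h.symm, h2⟩)).trans (le_abs_self _)
  · exact (key hj' hj r' r (Or.inl h)).trans (le_abs_self _)

lemma PP.xi_up {i i' j j' : ℕ} (hi : i < Nx) (hi' : i' < Nx) (hj : j < V) (hj' : j' < V)
    {r r' : R₂} :
    |xi p i j (S₂.X r) (S₂.Y r) - xi p i' j' (S₂.X r') (S₂.Y r')| ≤ Nx + 1 := by
  have h1 := hp.xi_lo (hI.X r) (hI.Y r) i hj
  have h2 := hp.xi_hi (hI.X r) (hI.Y r) i hj
  have h3 := hp.xi_lo (hI.X r') (hI.Y r') i' hj'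
  have h4 := hp.xi_hi (hI.X r') (hI.Y r') i' hj'
  have h5 : (i:ℝ) + 1 ≤ Nx := by exact_mod_cast hi
  have h6 : (i':ℝ) + 1 ≤ Nx := by exact_mod_cast hi'
  have h7 : (0:ℝ) ≤ i := Nat.cast_nonneg _
  have h8 : (0:ℝ) ≤ i' := Nat.cast_nonneg _
  rw [abs_le]; constructor <;> linarith

omit [Fintype G] hI in
lemma xx_same (e : R₁) (i j i' j' : ℕ) (x y x' y' : ℝ) :
    S₁.D e * |xx S₁ p e i j x y - xx S₁ p e i' j' x' y'| =
      p.ε * ((1 + p.φ) * |xi p i j x y - xi p i' j' x' y'|) := by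
  have hD := S₁.D_pos e
  have hφ := hp.φ0
  have e1 : xx S₁ p e i j x y - xx S₁ p e i' j' x' y' =
      p.ε * ((1 + p.φ) * (xi p i j x y - xi p i' j' x' y')) / S₁.D e := by
    unfold xx UU; field_simp; ring
  rw [e1, abs_div, abs_of_pos hD, abs_mul, abs_mul, abs_of_pos hp.ε0,
    abs_of_pos (by linarith : (0:ℝ) < 1 + p.φ)]
  field_simp

lemma xx_ne (hQ : Ql S₁ q θ L) {e f : R₁} (hef : e ≠ f) {i j i' j' : ℕ} (hi : i < Nx)
    (hi' : i' < Nx)
    (hj : j < V) (hj' : j' < V) (r r' : R₂) :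
    |S₁.X e - S₁.X f| / 2 ≤
      |xx S₁ p e i j (S₂.X r) (S₂.Y r) - xx S₁ p f i' j' (S₂.X r') (S₂.Y r')| ∧
    |xx S₁ p e i j (S₂.X r) (S₂.Y r) - xx S₁ p f i' j' (S₂.X r') (S₂.Y r')| ≤
      2 * |S₁.X e - S₁.X f| := by
  have h1 := hQ.w e f hef
  have h2 := hQ.w f e hef.symm
  rw [abs_sub_comm] at h2
  exact c4 hp.q0 (S₁.D_pos e) (S₁.D_pos f) rfl h1 h2 hp.φ0 hp.φ_le
    (hp.UU_abs (hI.X r) (hI.Y r) hi hj) (hp.UU_abs (hI.X r') (hI.Y r') hi' hj') hp.ε0 hp.εW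

/-- separation of the new events -/
lemma w_new (hQ : Ql S₁ q θ L) {e f : R₁} {i j i' j' : ℕ} (hi : i < Nx) (hi' : i' < Nx)
    (hj : j < V) (hj' : j' < V) (r r' : R₂) (hne : e ≠ f ∨ i ≠ i' ∨ j ≠ j' ∨ r ≠ r') :
    qn p H ≤ S₁.D e * dd S₂ σ p r *
      |xx S₁ p e i j (S₂.X r) (S₂.Y r) - xx S₁ p f i' j' (S₂.X r') (S₂.Y r')| := by
  have hdd := (hp.dd_bd hI r).1
  have hD := S₁.D_pos e
  have hδ := hp.δ0
  have hφ := hp.φ0
  have hq := hp.q0
  have hφ1 := hp.φ_le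
  have hH : (1:ℝ) ≤ H := by exact_mod_cast hI.H1
  by_cases hef : e = f
  · subst hef
    have hne' : i ≠ i' ∨ j ≠ j' ∨ r ≠ r' := by
      rcases hne with h | h
      · exact absurd rfl h
      · exact h
    have h1 := hp.xi_sep hI hj hj' hne'
    have h2 := xx_same (S₁ := S₁) hp e i j i' j' (S₂.X r) (S₂.Y r) (S₂.X r') (S₂.Y r')
    calc qn p H ≤ mn p H := hp.qn_le_mn hI.H1
      _ = (p.δ / 2) * (p.ε * (1 * (p.κ / (2 * H)))) := by unfold mn; ring
      _ ≤ dd S₂ σ p r * (p.ε * ((1 + p.φ) *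
            |xi p i j (S₂.X r) (S₂.Y r) - xi p i' j' (S₂.X r') (S₂.Y r')|)) := by
          have hκ := hp.κ0
          have hε := hp.ε0
          apply mul_le_mul hdd _ (by positivity) (by linarith)
          apply mul_le_mul_of_nonneg_left _ hε.le
          exact mul_le_mul (by linarith) h1 (by positivity) (by linarith)
      _ = _ := by rw [← h2]; ring
  · obtain ⟨h1, -⟩ := xx_ne hp hI hQ hef hi hi' hj hj' r r'
    have h2 := hQ.w e f hef
    calc qn p H ≤ p.φ * q * p.δ / 1024 := hp.qn_le hI.H1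
      _ ≤ 1 * q * p.δ / 1024 := by
          apply div_le_div_of_nonneg_right _ (by norm_num)
          apply mul_le_mul_of_nonneg_right _ hδ.le
          exact mul_le_mul_of_nonneg_right (by linarith) hq.le
      _ ≤ (S₁.D e * |S₁.X e - S₁.X f|) * (p.δ / 4) := by
          have h3 : q * (p.δ / 4) ≤ (S₁.D e * |S₁.X e - S₁.X f|) * (p.δ / 4) :=
            mul_le_mul_of_nonneg_right h2 (by positivity)
          have : 0 ≤ q * p.δ := by positivity
          linarith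
      _ = S₁.D e * (p.δ / 2) * (|S₁.X e - S₁.X f| / 2) := by ring
      _ ≤ _ := by
          apply mul_le_mul _ h1 (by positivity) (by
            have : 0 ≤ dd S₂ σ p r := by linarith
            positivity)
          exact mul_le_mul_of_nonneg_left hdd hD.le

end

end NearPoly
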