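import Pool.Agent.H141R2.NP7

/-!
# The composed arrangement with events
-/

namespace NearPoly

open KLev Finset

section

variable {A R₁ G R₂ : Type} [Fintype A] [Fintype G] {k₁ P₁ k₂ P₂ : ℕ}
variable {S₁ : Ev A R₁ k₁ P₁} {S₂ : Ev G R₂ k₂ P₂} {σ : G → ℕ} {H Nx V₁ : ℕ}
variable {q θ W L : ℝ} {p : Pm} {K : Finset G}

/-- first line of an event -/
def aN (S₁ : Ev A R₁ k₁ P₁) (S₂ : Ev G R₂ k₂ P₂) (σ : G → ℕ) (H Nx V₁ : ℕ)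
    (hR : ∀ α, σ α ≤ H) (z : R₁ × ((Fin Nx × Fin V₁) × R₂)) : Idx A G Nx P₁ (H * Nx + V₁) :=
  (S₁.a z.1, Sum.inr (Sum.inr (S₁.slot z.1,
    (S₂.a z.2.2, beta0 σ H Nx V₁ hR (S₂.a z.2.2) z.2.1.1 z.2.1.2))))

/-- second line of an event -/
def bN (S₁ : Ev A R₁ k₁ P₁) (S₂ : Ev G R₂ k₂ P₂) (σ : G → ℕ) (H Nx V₁ : ℕ)
    (hR : ∀ α, σ α ≤ H) (z : R₁ × ((Fin Nx × Fin V₁) × R₂)) : Idx A G Nx P₁ (H * Nx + V₁) :=
  (S₁.a z.1, Sum.inr (Sum.inr (S₁.slot z.1,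
    (S₂.b z.2.2, beta0 σ H Nx V₁ hR (S₂.b z.2.2) z.2.1.1 z.2.1.2))))

/-- abscissa of an event -/
noncomputable def XN (S₁ : Ev A R₁ k₁ P₁) (S₂ : Ev G R₂ k₂ P₂) (H Nx V₁ : ℕ) (p : Pm)
    (z : R₁ × ((Fin Nx × Fin V₁) × R₂)) : ℝ :=
  xx S₁ p z.1 z.2.1.1 (H * Nx + z.2.1.2) (S₂.X z.2.2) (S₂.Y z.2.2)

/-- ordinate of an event -/
noncomputable def YN (S₁ : Ev A R₁ k₁ P₁) (S₂ : Ev G R₂ k₂ P₂) (H Nx V₁ : ℕ) (p : Pm)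
    (z : R₁ × ((Fin Nx × Fin V₁) × R₂)) : ℝ :=
  yy S₁ p z.1 z.2.1.1 (H * Nx + z.2.1.2) (S₂.X z.2.2) (S₂.Y z.2.2)

/-- height of a line over an event -/
noncomputable def FN (S₁ : Ev A R₁ k₁ P₁) (S₂ : Ev G R₂ k₂ P₂) (σ : G → ℕ) (H Nx V₁ : ℕ)
    (p : Pm) (K : Finset G) (z : R₁ × ((Fin Nx × Fin V₁) × R₂))
    (l : Idx A G Nx P₁ (H * Nx + V₁)) : ℝ :=
  sl S₁ σ Nx (H * Nx + V₁) p l * XN S₁ S₂ H Nx V₁ p z +
    ic S₁ σ S₂.t Nx (H * Nx + V₁) p K l - YN S₁ S₂ H Nx V₁ p z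

variable (hp : PP Nx (H * Nx + V₁) P₁ H q θ W p) (hI : Inn S₂ σ H)
include hp hI

lemma FN_a (z : R₁ × ((Fin Nx × Fin V₁) × R₂)) :
    FN S₁ S₂ σ H Nx V₁ p K z (aN S₁ S₂ σ H Nx V₁ hI.hH z) = 0 := by
  have h := FF_pool (S₁ := S₁) (K := K) hp hI z.1 (i := z.2.1.1) (j := H * Nx + z.2.1.2) z.2.2
    (S₁.a z.1) (S₁.slot z.1) (S₁.evt_self z.1) (S₂.a z.2.2)
    (beta0 σ H Nx V₁ hI.hH (S₂.a z.2.2) z.2.1.1 z.2.1.2)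
  have h2 := beta0_spec σ H Nx V₁ hI.hH (S₂.a z.2.2) z.2.1.1 z.2.1.2
  have h3 : Fv S₂ (S₂.a z.2.2) z.2.2 = 0 := tie'' S₂ z.2.2
  rw [h2, h3] at h
  have h4 : FN S₁ S₂ σ H Nx V₁ p K z (aN S₁ S₂ σ H Nx V₁ hI.hH z) =
    FF S₁ S₂ σ Nx (H * Nx + V₁) p K z.1 z.2.1.1 (H * Nx + z.2.1.2) z.2.2
      (S₁.a z.1, Sum.inr (Sum.inr (S₁.slot z.1,
    (S₂.a z.2.2, beta0 σ H Nx V₁ hI.hH (S₂.a z.2.2) z.2.1.1 z.2.1.2)))) := rfl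
  rw [h4, h]
  simp

lemma FN_b (z : R₁ × ((Fin Nx × Fin V₁) × R₂)) :
    FN S₁ S₂ σ H Nx V₁ p K z (bN S₁ S₂ σ H Nx V₁ hI.hH z) = 0 := by
  have h := FF_pool (S₁ := S₁) (K := K) hp hI z.1 (i := z.2.1.1) (j := H * Nx + z.2.1.2) z.2.2
    (S₁.a z.1) (S₁.slot z.1) (S₁.evt_self z.1) (S₂.b z.2.2)
    (beta0 σ H Nx V₁ hI.hH (S₂.b z.2.2) z.2.1.1 z.2.1.2)
  have h2 := beta0_spec σ H Nx V₁ hI.hH (S₂.b z.2.2) z.2.1.1 z.2.1.2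
  have h3 : Fv S₂ (S₂.b z.2.2) z.2.2 = 0 := tie' S₂ z.2.2
  rw [h2, h3] at h
  have h4 : FN S₁ S₂ σ H Nx V₁ p K z (bN S₁ S₂ σ H Nx V₁ hI.hH z) =
    FF S₁ S₂ σ Nx (H * Nx + V₁) p K z.1 z.2.1.1 (H * Nx + z.2.1.2) z.2.2
      (S₁.a z.1, Sum.inr (Sum.inr (S₁.slot z.1,
    (S₂.b z.2.2, beta0 σ H Nx V₁ hI.hH (S₂.b z.2.2) z.2.1.1 z.2.1.2)))) := rfl
  rw [h4, h]
  simp

omit hp in
/-- lines other than the two lines of the event -/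
lemma not_ab (z : R₁ × ((Fin Nx × Fin V₁) × R₂)) (l : Idx A G Nx P₁ (H * Nx + V₁))
    (ha : l ≠ aN S₁ S₂ σ H Nx V₁ hI.hH z) (hb : l ≠ bN S₁ S₂ σ H Nx V₁ hI.hH z)
    (h : Fin P₁) (α : G) (β : Fin (H * Nx + V₁))
    (hl : l = (l.1, Sum.inr (Sum.inr (h, (α, β))))) (hev : S₁.evt l.1 h = some z.1) :
    ¬ (σ α * (z.2.1.1 : ℕ) + (β:ℕ) = H * Nx + z.2.1.2 ∧ (α = S₂.a z.2.2 ∨ α = S₂.b z.2.2)) := by
  rintro ⟨h1, h2⟩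
  obtain ⟨h3, h4⟩ := S₁.evt_spec hev
  rcases h2 with h2 | h2
  · apply ha
    have h5 := beta0_spec σ H Nx V₁ hI.hH (S₂.a z.2.2) z.2.1.1 z.2.1.2
    have h6 : β = beta0 σ H Nx V₁ hI.hH (S₂.a z.2.2) z.2.1.1 z.2.1.2 := by
      apply Fin.ext
      rw [h2] at h1
      omega
    rw [hl]
    unfold aN
    rw [← h3, ← h4, ← h2, h6, ← h2]
  · apply hb
    have h5 := beta0_spec σ H Nx V₁ hI.hH (S₂.b z.2.2) z.2.1.1 z.2.1.2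
    have h6 : β = beta0 σ H Nx V₁ hI.hH (S₂.b z.2.2) z.2.1.1 z.2.1.2 := by
      apply Fin.ext
      rw [h2] at h1
      omega
    rw [hl]
    unfold bN
    rw [← h3, ← h4, ← h2, h6, ← h2]

lemma mainN (hQ : Ql S₁ q θ L) (z : R₁ × ((Fin Nx × Fin V₁) × R₂))
    (l : Idx A G Nx P₁ (H * Nx + V₁))
    (ha : l ≠ aN S₁ S₂ σ H Nx V₁ hI.hH z) (hb : l ≠ bN S₁ S₂ σ H Nx V₁ hI.hH z) :
    (FN S₁ S₂ σ H Nx V₁ p K z l < 0 ↔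
      belE S₁ S₂ σ Nx (H * Nx + V₁) K z.1 z.2.1.1 (H * Nx + z.2.1.2) z.2.2 l) ∧
      qn p H ≤ |FN S₁ S₂ σ H Nx V₁ p K z l| ∧
      qn p H * |sl S₁ σ Nx (H * Nx + V₁) p l - sA S₁ S₂ σ p z.1 z.2.2| ≤
        |FN S₁ S₂ σ H Nx V₁ p K z l| * (S₁.D z.1 * dd S₂ σ p z.2.2) :=
  main hp hQ hI z.1 z.2.1.1.2 (by have := z.2.1.2.2; omega) z.2.2 l
    (fun h α β hl hev => not_ab hI z l ha hb h α β hl hev)

/-- the sign of every line -/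
lemma signN (hQ : Ql S₁ q θ L) (z : R₁ × ((Fin Nx × Fin V₁) × R₂))
    (l : Idx A G Nx P₁ (H * Nx + V₁)) :
    (FN S₁ S₂ σ H Nx V₁ p K z l < 0 ↔
      belE S₁ S₂ σ Nx (H * Nx + V₁) K z.1 z.2.1.1 (H * Nx + z.2.1.2) z.2.2 l) := by
  by_cases ha : l = aN S₁ S₂ σ H Nx V₁ hI.hH z
  · have h1 := FN_a (S₁ := S₁) (K := K) hp hI z
    rw [ha, h1]
    have h2 := beta0_spec σ H Nx V₁ hI.hH (S₂.a z.2.2) z.2.1.1 z.2.1.2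
    have h3 : ¬ (S₂.s (S₂.a z.2.2) * S₂.X z.2.2 + S₂.t (S₂.a z.2.2) < S₂.Y z.2.2) := by
      unfold Ev.Y; exact lt_irrefl _
    have h4 : ¬ (σ (S₂.a z.2.2) * (z.2.1.1:ℕ) +
        (beta0 σ H Nx V₁ hI.hH (S₂.a z.2.2) z.2.1.1 z.2.1.2 : ℕ) < H * Nx + z.2.1.2) := by omega
    constructor
    · intro h; exact absurd h (lt_irrefl _)
    · intro h
      simp only [aN, belE, S₁.evt_self] at h
      rcases h with ⟨-, h | ⟨-, h⟩⟩ | ⟨h, -⟩ | ⟨h, -⟩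
      · exact absurd h h4
      · exact absurd h h3
      · exact absurd rfl h
      · exact absurd rfl h
  · by_cases hb : l = bN S₁ S₂ σ H Nx V₁ hI.hH z
    · have h1 := FN_b (S₁ := S₁) (K := K) hp hI z
      rw [hb, h1]
      have h2 := beta0_spec σ H Nx V₁ hI.hH (S₂.b z.2.2) z.2.1.1 z.2.1.2
      have h3 : ¬ (S₂.s (S₂.b z.2.2) * S₂.X z.2.2 + S₂.t (S₂.b z.2.2) < S₂.Y z.2.2) := by
        unfold Ev.Y; rw [S₂.tie]; exact lt_irrefl _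
      have h4 : ¬ (σ (S₂.b z.2.2) * (z.2.1.1:ℕ) +
        (beta0 σ H Nx V₁ hI.hH (S₂.b z.2.2) z.2.1.1 z.2.1.2 : ℕ) < H * Nx + z.2.1.2) := by omega
      constructor
      · intro h; exact absurd h (lt_irrefl _)
      · intro h
        simp only [bN, belE, S₁.evt_self] at h
        rcases h with ⟨-, h | ⟨-, h⟩⟩ | ⟨h, -⟩ | ⟨h, -⟩
        · exact absurd h h4
        · exact absurd h h3
        · exact absurd rfl h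
        · exact absurd rfl h
    · exact (mainN hp hI hQ z l ha hb).1

lemma wN (hQ : Ql S₁ q θ L) {z z' : R₁ × ((Fin Nx × Fin V₁) × R₂)} (hne : z ≠ z') :
    qn p H ≤ S₁.D z.1 * dd S₂ σ p z.2.2 * |XN S₁ S₂ H Nx V₁ p z - XN S₁ S₂ H Nx V₁ p z'| := by
  refine w_new hp hI hQ z.2.1.1.2 z'.2.1.1.2 (by have := z.2.1.2.2; omega)
    (by have := z'.2.1.2.2; omega) z.2.2 z'.2.2 ?_
  by_contra h
  push Not at h
  obtain ⟨h1, h2, h3, h4⟩ := h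
  apply hne
  exact Prod.ext h1 (Prod.ext (Prod.ext (Fin.ext h2) (Fin.ext (by omega))) h4)

/-- slope of the first line -/
lemma sl_a (z : R₁ × ((Fin Nx × Fin V₁) × R₂)) :
    sl S₁ σ Nx (H * Nx + V₁) p (aN S₁ S₂ σ H Nx V₁ hI.hH z) = sA S₁ S₂ σ p z.1 z.2.2 := by
  simp only [aN, sl, S₁.evt_self, sA]

/-- slope difference -/
lemma sl_ab (z : R₁ × ((Fin Nx × Fin V₁) × R₂)) :
    sl S₁ σ Nx (H * Nx + V₁) p (aN S₁ S₂ σ H Nx V₁ hI.hH z) -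
      sl S₁ σ Nx (H * Nx + V₁) p (bN S₁ S₂ σ H Nx V₁ hI.hH z) =
      S₁.D z.1 * dd S₂ σ p z.2.2 := by
  simp only [aN, bN, sl, S₁.evt_self, dd]
  ring

lemma a_ne_b (z : R₁ × ((Fin Nx × Fin V₁) × R₂)) :
    aN S₁ S₂ σ H Nx V₁ hI.hH z ≠ bN S₁ S₂ σ H Nx V₁ hI.hH z := by
  intro h
  have h1 := sl_ab (S₁ := S₁) hp hI z
  rw [h, sub_self] at h1
  have h2 := S₁.D_pos z.1
  have h3 := (hp.dd_bd hI z.2.2).1
  have h4 := hp.δ0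
  have h5 : 0 < S₁.D z.1 * dd S₂ σ p z.2.2 := mul_pos h2 (by linarith)
  linarith

/-- the composed arrangement -/
theorem composeEv (hQ : Ql S₁ q θ L) (hK : K.card = k₂) :
    ∃ S : Ev (Idx A G Nx P₁ (H * Nx + V₁)) (R₁ × ((Fin Nx × Fin V₁) × R₂))
      (k₁ * (Fintype.card G * (H * Nx + V₁) * (2 * Nx + 3 * P₁)) +
        Fintype.card G * (H * Nx + V₁) * (2 * Nx + 2 * P₁)) (Nx * P₂),
      S.s = sl S₁ σ Nx (H * Nx + V₁) p ∧ S.t = ic S₁ σ S₂.t Nx (H * Nx + V₁) p K ∧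
      S.X = XN S₁ S₂ H Nx V₁ p ∧ S.a = aN S₁ S₂ σ H Nx V₁ hI.hH ∧
      S.b = bN S₁ S₂ σ H Nx V₁ hI.hH := by
  classical
  have hqn := hp.qn_pos hI.H1
  have htie : ∀ z, sl S₁ σ Nx (H * Nx + V₁) p (aN S₁ S₂ σ H Nx V₁ hI.hH z) *
      XN S₁ S₂ H Nx V₁ p z + ic S₁ σ S₂.t Nx (H * Nx + V₁) p K (aN S₁ S₂ σ H Nx V₁ hI.hH z) =
      YN S₁ S₂ H Nx V₁ p z := fun z => sub_eq_zero.mp (FN_a hp hI z)
  have htie' : ∀ z, sl S₁ σ Nx (H * Nx + V₁) p (bN S₁ S₂ σ H Nx V₁ hI.hH z) *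
      XN S₁ S₂ H Nx V₁ p z + ic S₁ σ S₂.t Nx (H * Nx + V₁) p K (bN S₁ S₂ σ H Nx V₁ hI.hH z) =
      YN S₁ S₂ H Nx V₁ p z := fun z => sub_eq_zero.mp (FN_b hp hI z)
  refine ⟨{
    s := sl S₁ σ Nx (H * Nx + V₁) p
    t := ic S₁ σ S₂.t Nx (H * Nx + V₁) p K
    X := XN S₁ S₂ H Nx V₁ p
    a := aN S₁ S₂ σ H Nx V₁ hI.hH
    b := bN S₁ S₂ σ H Nx V₁ hI.hH
    tie := fun z => by rw [htie, htie']
    hs := fun z => ?_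
    hne := fun z c ha hb => ?_
    hcard := fun z => ?_
    hX := fun z z' h => ?_
    slot := fun z => finProdFinEquiv (z.2.1.1, S₂.slot z.2.2)
    hslot := fun z z' hl hsl => ?_ }, rfl, rfl, rfl, rfl, rfl⟩
  · have h1 := sl_ab (S₁ := S₁) hp hI z
    have h2 := S₁.D_pos z.1
    have h3 := (hp.dd_bd hI z.2.2).1
    have h4 := hp.δ0
    have h5 : 0 < S₁.D z.1 * dd S₂ σ p z.2.2 := mul_pos h2 (by linarith)
    linarith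
  · rw [htie]
    intro h
    have h1 := (mainN (K := K) hp hI hQ z c ha hb).2.1
    have h2 : FN S₁ S₂ σ H Nx V₁ p K z c = 0 := sub_eq_zero.mpr h
    rw [h2, abs_zero] at h1
    linarith
  · have hb : (H * Nx + (z.2.1.2:ℕ)) < H * Nx + V₁ := by have := z.2.1.2.2; omega
    rw [htie]
    have hc := count_belE S₁ S₂ σ H Nx (H * Nx + V₁) K hK hI.hH z.1 z.2.1.1 (H * Nx + z.2.1.2)
      z.2.1.1.2 (by omega) hb z.2.2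
    rw [← hc]
    apply Finset.sum_congr rfl
    intro l _
    have h2 := signN (K := K) hp hI hQ z l
    unfold FN at h2
    rw [sub_neg] at h2
    by_cases h3 : belE S₁ S₂ σ Nx (H * Nx + V₁) K z.1 z.2.1.1 (H * Nx + z.2.1.2) z.2.2 l
    · rw [if_pos h3, if_pos (h2.mpr h3)]
    · rw [if_neg h3, if_neg (fun h4 => h3 (h2.mp h4))]
  · by_contra hne
    have h1 := wN hp hI hQ hne
    rw [h, sub_self, abs_zero, mul_zero] at h1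
    linarith
  · unfold aN at hl
    simp only [Prod.mk.injEq, Sum.inr.injEq] at hl
    obtain ⟨h1, h2, h3, h4⟩ := hl
    have he := S₁.hslot _ _ h1 h2
    have h5 := finProdFinEquiv.injective hsl
    simp only [Prod.mk.injEq] at h5
    have hr := S₂.hslot _ _ h3 h5.2
    have hj : z.2.1.2 = z'.2.1.2 := by
      have e1 := beta0_spec σ H Nx V₁ hI.hH (S₂.a z.2.2) z.2.1.1 z.2.1.2
      have e2 := beta0_spec σ H Nx V₁ hI.hH (S₂.a z'.2.2) z'.2.1.1 z'.2.1.2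
      rw [h4, h3, h5.1] at e1
      apply Fin.ext
      omega
    exact Prod.ext he (Prod.ext (Prod.ext h5.1 hj) hr)

end

end NearPoly
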