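import Pool.Agent.H141R2.NP8

/-!
# Quantitative general position of the composed arrangement
-/

namespace NearPoly

open KLev Finset

section

variable {A R₁ G R₂ : Type} [Fintype A] [Fintype G] {k₁ P₁ k₂ P₂ : ℕ}
variable {S₁ : Ev A R₁ k₁ P₁} {S₂ : Ev G R₂ k₂ P₂} {σ : G → ℕ} {H Nx V : ℕ}
variable {q θ W L : ℝ} {p : Pm} {K : Finset G}

section bounds

variable (hp : PP Nx V P₁ H q θ W p) (hI : Inn S₂ σ H) (hQ : Ql S₁ q θ L)
include hp hI hQ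

lemma sl_mem (l : Idx A G Nx P₁ V) : 0 ≤ sl S₁ σ Nx V p l ∧ sl S₁ σ Nx V p l ≤ 1 := by
  obtain ⟨c, l⟩ := l
  have h0 := hQ.s0 c
  have h1 := hQ.s1 c
  rcases l with ⟨i', α, β⟩ | ⟨u, z⟩ | ⟨h, α, β⟩
  · exact ⟨h0, h1⟩
  · exact ⟨h0, h1⟩
  · rcases hev : S₁.evt c h with _ | f
    · have h2 : sl S₁ σ Nx V p (c, Sum.inr (Sum.inr (h, (α, β)))) = S₁.s c := by
        simp only [sl, hev]
      rw [h2]; exact ⟨h0, h1⟩
    · have h2 : sl S₁ σ Nx V p (c, Sum.inr (Sum.inr (h, (α, β)))) =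
          S₁.s c - ps p σ α * S₁.D f := by
        simp only [sl, hev]
      rw [h2]
      obtain ⟨hcf, hh⟩ := S₁.evt_spec hev
      obtain ⟨h3, h4⟩ := hp.ps_bd (σ := σ) hI.H1 (hI.hH α)
      have h5 := hp.φ_le
      have h6 := hp.φ0
      have h7 := S₁.D_pos f
      have h8 := hQ.s0 (S₁.b f)
      have h9 : S₁.D f = S₁.s c - S₁.s (S₁.b f) := by unfold Ev.D; rw [hcf]
      have h10 : ps p σ α * S₁.D f ≤ 1 * S₁.D f := mul_le_mul_of_nonneg_right (by linarith) h7.le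
      have h11 : 0 ≤ ps p σ α * S₁.D f := mul_nonneg (by linarith) h7.le
      constructor <;> linarith

lemma ic_abs (hq1 : q ≤ 1) (hL : 1 ≤ L) (l : Idx A G Nx P₁ V) :
    |ic S₁ σ S₂.t Nx V p K l| ≤ 4 * L := by
  have hq := hp.q0
  have hφ := hp.φ_le
  have hφ0 := hp.φ0
  have hε := hp.ε0
  have hW := hp.W1
  have hεW : p.ε * W ≤ 1 / 16 := by
    have h1 := hp.εW
    have h2 : p.φ * q ≤ 1 / 16 * 1 := mul_le_mul hφ hq1 hq.le (by norm_num)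
    linarith
  have hNx0 : (0:ℝ) ≤ Nx := Nat.cast_nonneg _
  have hP0 : (0:ℝ) ≤ P₁ := Nat.cast_nonneg _
  have hsm : ∀ x : ℝ, |x| ≤ W → |p.ε * x| ≤ 1 / 16 := by
    intro x hx
    rw [abs_mul, abs_of_pos hε]
    exact (mul_le_mul_of_nonneg_left hx hε.le).trans hεW
  obtain ⟨c, l⟩ := l
  have h0 := hQ.tb c
  rcases l with ⟨i', α, β⟩ | ⟨u, α, β⟩ | ⟨h, α, β⟩
  · have h1 := hp.omT (K := K) (i' := i') (β := β) hI.H1 (hI.hH α)
    have h2 := hsm _ (h1.trans (by linarith))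
    refine (abs_add_le _ _).trans ?_
    linarith
  · have h2 : ((u:ℕ):ℝ) + 1 ≤ Nx + 2 * P₁ := by exact_mod_cast u.2
    have h3 : (0:ℝ) ≤ ((u:ℕ):ℝ) := Nat.cast_nonneg _
    have h4 := hsm (1 + ((u:ℕ):ℝ)) (by
      rw [abs_of_nonneg (by linarith)]; linarith)
    refine (abs_add_le _ _).trans ?_
    linarith
  · rcases hev : S₁.evt c h with _ | f
    · have h2 : ic S₁ σ S₂.t Nx V p K (c, Sum.inr (Sum.inr (h, (α, β)))) =
          S₁.t c + p.ε * (Nx + 2 * P₁ + 4) := by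
        simp only [ic, hev]
      rw [h2]
      have h4 := hsm ((Nx:ℝ) + 2 * P₁ + 4) (by
        rw [abs_of_nonneg (by linarith)]; linarith)
      refine (abs_add_le _ _).trans ?_
      linarith
    · have h2 : ic S₁ σ S₂.t Nx V p K (c, Sum.inr (Sum.inr (h, (α, β)))) =
          S₁.t c + ps p σ α * (S₁.D f * S₁.X f + p.ε * (S₁.c0 f + 1/2)) +
        p.ε * (p.δ * ((β:ℕ) + p.κ * S₂.t α) / (1 + p.lam * σ α)) := by
        simp only [ic, hev]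
      rw [h2]
      have h3 := hsm _ ((hp.btS hI α β).trans (by linarith))
      obtain ⟨hψ1, hψ2⟩ := hp.ps_bd (σ := σ) hI.H1 (hI.hH α)
      have hD := S₁.D_pos f
      have hD1 : S₁.D f ≤ 1 := by
        have := hQ.s1 (S₁.a f); have := hQ.s0 (S₁.b f)
        unfold Ev.D; linarith
      have hX := hQ.Xb f
      have h5 : |S₁.D f * S₁.X f| ≤ 1 * L := by
        rw [abs_mul, abs_of_pos hD]
        exact mul_le_mul hD1 hX (abs_nonneg _) (by norm_num)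
      have hc : (S₁.c0 f : ℝ) ≤ 2 * P₁ := by exact_mod_cast S₁.c0_le f
      have hc0 : (0:ℝ) ≤ S₁.c0 f := Nat.cast_nonneg _
      have h6 := hsm ((S₁.c0 f : ℝ) + 1/2) (by
        rw [abs_of_nonneg (by linarith)]; linarith)
      have h7 : |ps p σ α * (S₁.D f * S₁.X f + p.ε * (S₁.c0 f + 1/2))| ≤ 1 * (L + 1 / 16) := by
        rw [abs_mul, abs_of_nonneg (by linarith : 0 ≤ ps p σ α)]
        apply mul_le_mul (by linarith) _ (abs_nonneg _) (by norm_num)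
        refine (abs_add_le _ _).trans ?_
        linarith
      have h8 := abs_add_le (S₁.t c + ps p σ α * (S₁.D f * S₁.X f + p.ε * (S₁.c0 f + 1/2)))
        (p.ε * (p.δ * ((β:ℕ) + p.κ * S₂.t α) / (1 + p.lam * σ α)))
      have h9 := abs_add_le (S₁.t c) (ps p σ α * (S₁.D f * S₁.X f + p.ε * (S₁.c0 f + 1/2)))
      linarith

lemma xx_abs (hL : 1 ≤ L) (e : R₁) {i j : ℕ} (hi : i < Nx) (hj : j < V) (r : R₂) :
    |xx S₁ p e i j (S₂.X r) (S₂.Y r)| ≤ 4 * L := by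
  have hU := hp.UU_abs (S₁ := S₁) (e := e) (hI.X r) (hI.Y r) hi hj
  have hD := S₁.D_pos e
  have hDq := hQ.D e
  have hq := hp.q0
  have hφ := hp.φ_le
  have hφ0 := hp.φ0
  have hε := hp.ε0
  have hX := hQ.Xb e
  have h1 : |p.ε * (UU S₁ p e i j (S₂.X r) (S₂.Y r) / S₁.D e)| ≤ 1 := by
    rw [abs_mul, abs_of_pos hε, abs_div, abs_of_pos hD, mul_div_assoc', div_le_one hD]
    have h2 : p.ε * |UU S₁ p e i j (S₂.X r) (S₂.Y r)| ≤ p.ε * (W / 2) :=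
      mul_le_mul_of_nonneg_left hU hε.le
    have h3 := hp.εW
    nlinarith
  unfold xx
  refine (abs_add_le _ _).trans ?_
  linarith

end bounds

end

section

variable {A R₁ G R₂ : Type} [Fintype A] [Fintype G] {k₁ P₁ k₂ P₂ : ℕ}
variable {S₁ : Ev A R₁ k₁ P₁} {S₂ : Ev G R₂ k₂ P₂} {σ : G → ℕ} {H Nx V₁ : ℕ}
variable {q θ W L : ℝ} {p : Pm} {K : Finset G}

variable (hp : PP Nx (H * Nx + V₁) P₁ H q θ W p) (hI : Inn S₂ σ H) (hQ : Ql S₁ q θ L)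
include hp hI hQ

lemma thN {θn : ℝ} (hθ0 : 0 ≤ θn) (hθ1 : θn ≤ 1)
    (hθ2 : θn * (8 * H * H * (Nx + 1)) ≤ p.κ) (z z' : R₁ × ((Fin Nx × Fin V₁) × R₂))
    (ha : aN S₁ S₂ σ H Nx V₁ hI.hH z' ≠ aN S₁ S₂ σ H Nx V₁ hI.hH z)
    (hb : aN S₁ S₂ σ H Nx V₁ hI.hH z' ≠ bN S₁ S₂ σ H Nx V₁ hI.hH z) :
    θn * (S₁.D z'.1 * dd S₂ σ p z'.2.2 * |XN S₁ S₂ H Nx V₁ p z - XN S₁ S₂ H Nx V₁ p z'|) ≤
      |FN S₁ S₂ σ H Nx V₁ p K z (aN S₁ S₂ σ H Nx V₁ hI.hH z')| := by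
  have hδ := hp.δ0
  have hφ0 := hp.φ0
  have hφ1 := hp.φ_le
  have hε := hp.ε0
  have hκ := hp.κ0
  have hq := hp.q0
  have hθ := hp.θ0
  have hφθ := hp.φθ
  have hH : (1:ℝ) ≤ H := by exact_mod_cast hI.H1
  have hNx : (0:ℝ) ≤ Nx := Nat.cast_nonneg _
  obtain ⟨hdd1, hdd2⟩ := hp.dd_bd hI z'.2.2
  have hdd0 : 0 ≤ dd S₂ σ p z'.2.2 := by linarith
  have hδH : p.δ * H ≤ p.φ / 8 := by
    have := hp.δ3
    nlinarith
  have hDf := S₁.D_pos z'.1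
  have hDe := S₁.D_pos z.1
  have hi := z.2.1.1.2
  have hi' := z'.2.1.1.2
  have hj : (H * Nx + (z.2.1.2:ℕ)) < H * Nx + V₁ := by have := z.2.1.2.2; omega
  have hj' : (H * Nx + (z'.2.1.2:ℕ)) < H * Nx + V₁ := by have := z'.2.1.2.2; omega
  by_cases hef : z.1 = z'.1
  · -- the same event: near lines
    have hev : S₁.evt (S₁.a z'.1) (S₁.slot z'.1) = some z.1 := by
      rw [hef]; exact S₁.evt_self z'.1
    have h1 := caseP (K := K) hp hI z.1 (i := z.2.1.1) (j := H * Nx + z.2.1.2) z.2.2 (S₁.a z'.1)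
      (S₁.slot z'.1) hev (S₂.a z'.2.2)
      (beta0 σ H Nx V₁ hI.hH (S₂.a z'.2.2) z'.2.1.1 z'.2.1.2)
      (not_ab hI z (aN S₁ S₂ σ H Nx V₁ hI.hH z') ha hb _ _ _ rfl hev)
    have h2 : mn p H ≤ |FN S₁ S₂ σ H Nx V₁ p K z (aN S₁ S₂ σ H Nx V₁ hI.hH z')| := h1.abs
    refine le_trans ?_ h2
    have h3 := xx_same (S₁ := S₁) hp z.1 z.2.1.1 (H * Nx + z.2.1.2) z'.2.1.1
      (H * Nx + z'.2.1.2) (S₂.X z.2.2) (S₂.Y z.2.2) (S₂.X z'.2.2) (S₂.Y z'.2.2)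
    have h4 := hp.xi_up hI hi hi' hj hj' (r := z.2.2) (r' := z'.2.2)
    have e1 : XN S₁ S₂ H Nx V₁ p z' = xx S₁ p z.1 z'.2.1.1 (H * Nx + z'.2.1.2)
        (S₂.X z'.2.2) (S₂.Y z'.2.2) := by unfold XN; rw [hef]
    rw [e1, ← hef]
    unfold XN
    set ξ := |xi p z.2.1.1 (H * Nx + z.2.1.2) (S₂.X z.2.2) (S₂.Y z.2.2) -
      xi p z'.2.1.1 (H * Nx + z'.2.1.2) (S₂.X z'.2.2) (S₂.Y z'.2.2)| with hξ
    calc θn * (S₁.D z.1 * dd S₂ σ p z'.2.2 * |xx S₁ p z.1 (z.2.1.1) (H * Nx + z.2.1.2)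
          (S₂.X z.2.2) (S₂.Y z.2.2) - xx S₁ p z.1 (z'.2.1.1) (H * Nx + z'.2.1.2)
          (S₂.X z'.2.2) (S₂.Y z'.2.2)|)
        = θn * (dd S₂ σ p z'.2.2 * (p.ε * ((1 + p.φ) * ξ))) := by rw [← h3]; ring
      _ ≤ θn * ((p.δ * H) * (p.ε * (2 * (Nx + 1)))) := by
          apply mul_le_mul_of_nonneg_left _ hθ0
          apply mul_le_mul hdd2 _ (by positivity) (by positivity)
          apply mul_le_mul_of_nonneg_left _ hε.le
          exact mul_le_mul (by linarith) h4 (abs_nonneg _) (by norm_num)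
      _ = (θn * (8 * H * H * (Nx + 1))) * (p.ε * p.δ / (4 * H)) := by field_simp; ring
      _ ≤ p.κ * (p.ε * p.δ / (4 * H)) := mul_le_mul_of_nonneg_right hθ2 (by positivity)
      _ = mn p H := by unfold mn; ring
  · obtain ⟨-, hup⟩ := xx_ne hp hI hQ hef hi hi' hj hj' z.2.2 z'.2.2
    have hup' : |XN S₁ S₂ H Nx V₁ p z - XN S₁ S₂ H Nx V₁ p z'| ≤ 2 * |S₁.X z.1 - S₁.X z'.1| := hup
    have hle : θn * (S₁.D z'.1 * dd S₂ σ p z'.2.2 *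
        |XN S₁ S₂ H Nx V₁ p z - XN S₁ S₂ H Nx V₁ p z'|) ≤
        (p.φ / 4) * (S₁.D z'.1 * |S₁.X z.1 - S₁.X z'.1|) := by
      calc θn * (S₁.D z'.1 * dd S₂ σ p z'.2.2 *
            |XN S₁ S₂ H Nx V₁ p z - XN S₁ S₂ H Nx V₁ p z'|) ≤
            1 * (S₁.D z'.1 * dd S₂ σ p z'.2.2 *
            |XN S₁ S₂ H Nx V₁ p z - XN S₁ S₂ H Nx V₁ p z'|) :=
            mul_le_mul_of_nonneg_right hθ1 (by positivity)
        _ ≤ 1 * (S₁.D z'.1 * (p.φ / 8) * (2 * |S₁.X z.1 - S₁.X z'.1|)) := by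
            apply mul_le_mul_of_nonneg_left _ zero_le_one
            apply mul_le_mul _ hup' (abs_nonneg _) (by positivity)
            exact mul_le_mul_of_nonneg_left (hdd2.trans hδH) hDf.le
        _ = _ := by ring
    refine hle.trans ?_
    by_cases hc : S₁.a z'.1 = S₁.a z.1 ∨ S₁.a z'.1 = S₁.b z.1
    · have hB := caseB (K := K) hp hQ hI z.1 z'.1 (Ne.symm hef) hi hj z.2.2 (S₁.a z'.1)
        (S₁.slot z'.1) (S₁.evt_self z'.1) hc (S₂.a z'.2.2)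
        (beta0 σ H Nx V₁ hI.hH (S₂.a z'.2.2) z'.2.1.1 z'.2.1.2)
      have hψ := (hp.ps_bd (σ := σ) hI.H1 (hI.hH (S₂.a z'.2.2))).1
      have hψ0 : 0 < ps p σ (S₂.a z'.2.2) := by linarith
      set M := -(ps p σ (S₂.a z'.2.2) * (S₁.D z'.1 * (S₁.X z.1 - S₁.X z'.1))) with hM
      have hMabs : |M| = ps p σ (S₂.a z'.2.2) * (S₁.D z'.1 * |S₁.X z.1 - S₁.X z'.1|) := by
        rw [hM, abs_neg, abs_mul, abs_mul, abs_of_pos hψ0, abs_of_pos hDf]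
      have h5 : 3 / 4 * |M| ≤ |FN S₁ S₂ σ H Nx V₁ p K z (aN S₁ S₂ σ H Nx V₁ hI.hH z')| := by
        have h6 : |FN S₁ S₂ σ H Nx V₁ p K z (aN S₁ S₂ σ H Nx V₁ hI.hH z') - M| ≤ |M| / 4 := hB
        have h7 := abs_sub_abs_le_abs_sub M (FN S₁ S₂ σ H Nx V₁ p K z (aN S₁ S₂ σ H Nx V₁ hI.hH z'))
        rw [abs_sub_comm] at h6
        linarith
      refine le_trans ?_ h5
      rw [hMabs]
      have h8 : p.φ / 2 * (S₁.D z'.1 * |S₁.X z.1 - S₁.X z'.1|) ≤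
          ps p σ (S₂.a z'.2.2) * (S₁.D z'.1 * |S₁.X z.1 - S₁.X z'.1|) :=
        mul_le_mul_of_nonneg_right hψ (by positivity)
      have h9 : 0 ≤ p.φ * (S₁.D z'.1 * |S₁.X z.1 - S₁.X z'.1|) := by positivity
      linarith
    · push Not at hc
      have hA := caseA (K := K) hp hQ hI z.1 hi hj z.2.2 (aN S₁ S₂ σ H Nx V₁ hI.hH z')
        hc.1 hc.2
      have h6 : |FN S₁ S₂ σ H Nx V₁ p K z (aN S₁ S₂ σ H Nx V₁ hI.hH z') -
        Fv S₁ (S₁.a z'.1) z.1| ≤ |Fv S₁ (S₁.a z'.1) z.1| / 4 := hA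
      have hth := hQ.th z.1 z'.1 hc.1 hc.2
      have h7 := abs_sub_abs_le_abs_sub (Fv S₁ (S₁.a z'.1) z.1)
        (FN S₁ S₂ σ H Nx V₁ p K z (aN S₁ S₂ σ H Nx V₁ hI.hH z'))
      rw [abs_sub_comm] at h6
      have h8 : p.φ * (S₁.D z'.1 * |S₁.X z.1 - S₁.X z'.1|) ≤
          θ / 16 * (S₁.D z'.1 * |S₁.X z.1 - S₁.X z'.1|) :=
        mul_le_mul_of_nonneg_right hφθ (by positivity)
      have := abs_nonneg (Fv S₁ (S₁.a z'.1) z.1)
      linarith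

/-- composition with margins -/
theorem composeQl (hK : K.card = k₂) (hq1 : q ≤ 1) (hL : 1 ≤ L) {θn : ℝ} (hθ0 : 0 ≤ θn)
    (hθ1 : θn ≤ 1) (hθ2 : θn * (8 * H * H * (Nx + 1)) ≤ p.κ) :
    ∃ S : Ev (Idx A G Nx P₁ (H * Nx + V₁)) (R₁ × ((Fin Nx × Fin V₁) × R₂))
      (k₁ * (Fintype.card G * (H * Nx + V₁) * (2 * Nx + 3 * P₁)) +
        Fintype.card G * (H * Nx + V₁) * (2 * Nx + 2 * P₁)) (Nx * P₂),
      Ql S (qn p H) θn (4 * L) := by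
  obtain ⟨S, hs, ht, hX, ha, hb⟩ := composeEv (K := K) hp hI hQ hK
  refine ⟨S, ?_⟩
  have hY : ∀ z, S.Y z = YN S₁ S₂ H Nx V₁ p z := by
    intro z
    unfold Ev.Y
    rw [hs, ht, hX, ha]
    exact sub_eq_zero.mp (FN_a hp hI z)
  have hF : ∀ z c, Fv S c z = FN S₁ S₂ σ H Nx V₁ p K z c := by
    intro z c
    unfold Fv FN
    rw [hY, hs, ht, hX]
  have hD : ∀ z, S.D z = S₁.D z.1 * dd S₂ σ p z.2.2 := by
    intro z
    unfold Ev.D
    rw [hs, ha, hb]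
    exact sl_ab (S₁ := S₁) hp hI z
  have hδ := hp.δ0
  have hφ := hp.φ0
  have hφ1 := hp.φ_le
  have hq := hp.q0
  refine { s0 := fun c => ?_, s1 := fun c => ?_, tb := fun c => ?_, Xb := fun z => ?_
           D := fun z => ?_, g1 := fun z c hca hcb => ?_, g2 := fun z c hca hcb => ?_
           w := fun z z' hne => ?_, th := fun z z' h1 h2 => ?_ }
  · rw [hs]; exact (sl_mem hp hI hQ c).1
  · rw [hs]; exact (sl_mem hp hI hQ c).2
  · rw [ht]; exact ic_abs hp hI hQ hq1 hL c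
  · rw [hX]
    exact xx_abs hp hI hQ hL z.1 z.2.1.1.2 (by have := z.2.1.2.2; omega) z.2.2
  · rw [hD]
    have h1 := hQ.D z.1
    have h2 := (hp.dd_bd hI z.2.2).1
    have h3 := hp.qn_le hI.H1
    calc qn p H ≤ p.φ * q * p.δ / 1024 := h3
      _ ≤ 1 * q * p.δ / 1024 := by
          apply div_le_div_of_nonneg_right _ (by norm_num)
          apply mul_le_mul_of_nonneg_right _ hδ.le
          exact mul_le_mul_of_nonneg_right (by linarith) hq.le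
      _ ≤ q * (p.δ / 2) := by
          have : 0 ≤ q * p.δ := by positivity
          linarith
      _ ≤ S₁.D z.1 * dd S₂ σ p z.2.2 := mul_le_mul h1 h2 (by positivity) (S₁.D_pos _).le
  · rw [ha] at hca
    rw [hb] at hcb
    rw [hF]
    exact (mainN hp hI hQ z c hca hcb).2.1
  · rw [ha] at hca
    rw [hb] at hcb
    rw [hF, hD]
    have h1 := (mainN (K := K) hp hI hQ z c hca hcb).2.2
    have h2 : S.s (S.a z) = sA S₁ S₂ σ p z.1 z.2.2 := by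
      rw [hs, ha]; exact sl_a hp hI z
    rw [h2, hs]
    exact h1
  · rw [hD, hX]
    exact wN hp hI hQ hne
  · have h1' : aN S₁ S₂ σ H Nx V₁ hI.hH z' ≠ aN S₁ S₂ σ H Nx V₁ hI.hH z := by
      rw [ha] at h1; exact h1
    have h2' : aN S₁ S₂ σ H Nx V₁ hI.hH z' ≠ bN S₁ S₂ σ H Nx V₁ hI.hH z := by
      rw [ha, hb] at h2; exact h2
    rw [hD, hF, hX, ha]
    exact thN hp hI hQ hθ0 hθ1 hθ2 z z' h1' h2'

end

end NearPoly
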